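import Mathlib

namespace Pool.Agent.P.MP_858e15_gt

open Complex

/-- The ideal tetrahedron with vertices `0, 1, z, ∞` in the upper half-space: the points over the
triangle `0, 1, z` that lie above the hemisphere through `0, 1, z`. -/
def idealTet (z : ℂ) : Set (ℂ × ℝ) :=
  {x | (∃ s t : ℝ, 0 ≤ s ∧ 0 ≤ t ∧ s + t ≤ 1 ∧ x.1 = s + t * z) ∧ 0 < x.2 ∧
    ∀ c : ℂ, ‖1 - c‖ = ‖c‖ → ‖z - c‖ = ‖c‖ → ‖c‖ ^ 2 ≤ ‖x.1 - c‖ ^ 2 + x.2 ^ 2}

/-- Its hyperbolic volume. -/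
noncomputable def hypVol (z : ℂ) : ℝ := ∫ x in idealTet z, 1 / x.2 ^ 3

/-- The gluing equation and the `(p, q)` filling equation of the two tetrahedra. -/
def Glued (p q : ℤ) (z w : ℂ) : Prop :=
  0 < z.im ∧ 0 < w.im ∧ z * (z - 1) * w * (w - 1) = 1 ∧
    (p : ℂ) * (log w + log (1 - z)) + (q : ℂ) * (2 * (log z + log (1 - z))) = 2 * Real.pi * I

/-- `v` is the volume of a solution for the slope `(p, q)`. -/
def Vol (p q : ℤ) (v : ℝ) : Prop := ∃ z w : ℂ, Glued p q z w ∧ v = hypVol z + hypVol w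

end Pool.Agent.P.MP_858e15_gt
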