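import Pool.Agent.P.MP_858e15_gt.Angle

namespace Pool.Agent.P.MP_858e15_gt

open Real

theorem adm_real {X X' W W' h i i' s1 s2 c Y K3 K4 : ℝ} (hX : |X| ≤ h ^ 2) (hX' : |X'| ≤ h ^ 2)
    (hW : |W| ≤ 4 * h ^ 2) (hW' : |W'| ≤ 4 * h ^ 2) (hc : |c| ≤ 2) (hY : 0 < Y) (hK3 : 0 ≤ K3)
    (hK4 : 1 ≤ K4) (hi : 12 * i ^ 2 ≤ K4 * Y) (hi' : 12 * i' ^ 2 ≤ K4 * Y)
    (h1 : Y * h ≤ s1 ^ 2 + 12 * i ^ 2) (h2 : Y * h ≤ s2 ^ 2 + 12 * i ^ 2) (hh : h ≤ 8 * Y)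
    (hh2 : 2 * K4 ≤ h) (hs : h ≤ |s2 - s1|)
    (g1 : |(X * (s1 ^ 4 - 72 * s1 ^ 2 * i ^ 2 + 144 * i ^ 4) + W * i * (4 * s1 ^ 3 - 48 * s1 * i ^ 2))
      - (X' * (s1 ^ 4 - 72 * s1 ^ 2 * i' ^ 2 + 144 * i' ^ 4)
        + W' * i' * (4 * s1 ^ 3 - 48 * s1 * i' ^ 2))
      - c * (h ^ 2 * (s1 ^ 2 + 12 * i ^ 2) ^ 2)| ≤ K3 * Y * h ^ 4)
    (g2 : |(X * (s2 ^ 4 - 72 * s2 ^ 2 * i ^ 2 + 144 * i ^ 4) + W * i * (4 * s2 ^ 3 - 48 * s2 * i ^ 2))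
      - (X' * (s2 ^ 4 - 72 * s2 ^ 2 * i' ^ 2 + 144 * i' ^ 4)
        + W' * i' * (4 * s2 ^ 3 - 48 * s2 * i' ^ 2))
      - c * (h ^ 2 * (s2 ^ 2 + 12 * i ^ 2) ^ 2)| ≤ K3 * Y * h ^ 4) :
    |X - X' - c * h ^ 2| ≤ (16 * K3 + 576 * K4) * h := by
  have h0 : 0 < h := by linarith
  obtain ⟨T, hT⟩ : ∃ T, T = √(Y * h / 2) := ⟨_, rfl⟩
  obtain ⟨J, hJ⟩ : ∃ J, J = √(K4 * Y / 12) := ⟨_, rfl⟩
  have T0 : 0 < T := by rw [hT]; positivity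
  have J0 : 0 ≤ J := by rw [hJ]; positivity
  have T2 : T ^ 2 = Y * h / 2 := by rw [hT]; exact sq_sqrt (by positivity)
  have J2 : J ^ 2 = K4 * Y / 12 := by rw [hJ]; exact sq_sqrt (by positivity)
  have KY : K4 * Y ≤ Y * h / 2 := by nlinarith
  have t1 : T ≤ |s1| := le_of_sq_le_sq (by rw [sq_abs]; linarith) (abs_nonneg _)
  have t2 : T ≤ |s2| := le_of_sq_le_sq (by rw [sq_abs]; linarith) (abs_nonneg _)
  have j1 : |i| ≤ J := abs_le_of_sq_le_sq (by linarith) J0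
  have j2 : |i'| ≤ J := abs_le_of_sq_le_sq (by linarith) J0
  have JT : J ≤ T := by
    apply le_of_sq_le_sq _ T0.le |> fun x => x
    have : 0 ≤ K4 * Y := by positivity
    linarith
  have hT4 : h ≤ 4 * T := by
    apply le_of_sq_le_sq _ (by positivity) |> fun x => x
    rw [mul_pow, T2]; nlinarith
  have q := quartic_lemma (g := X - X' - c * h ^ 2) (L := 4 * (W * i - W' * i'))
    (e2 := -72 * (X * i ^ 2 - X' * i' ^ 2) - 24 * (c * (h ^ 2 * i ^ 2)))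
    (e1 := -48 * (W * i ^ 3 - W' * i' ^ 3))
    (e0 := 144 * (X * i ^ 4 - X' * i' ^ 4) - 144 * (c * (h ^ 2 * i ^ 4))) T0 t1 t2
    (le_trans (le_of_eq (by congr 1; ring)) g1) (le_trans (le_of_eq (by congr 1; ring)) g2)
  have m1 : ∀ (A B x : ℝ) (n : ℕ), |A| ≤ B → |x| ≤ J → |A * x ^ n| ≤ B * J ^ n := by
    intro A B x n hA hx
    rw [abs_mul, abs_pow]
    exact mul_le_mul hA (pow_le_pow_left₀ (abs_nonneg _) hx n) (by positivity)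
      ((abs_nonneg _).trans hA)
  have m2 : ∀ n : ℕ, |c * (h ^ 2 * i ^ n)| ≤ 2 * (h ^ 2 * J ^ n) := by
    intro n
    rw [abs_mul]
    exact mul_le_mul hc (m1 _ _ _ n (le_of_eq (abs_of_nonneg (by positivity))) j1) (abs_nonneg _)
      (by norm_num)
  have b2 : |-72 * (X * i ^ 2 - X' * i' ^ 2) - 24 * (c * (h ^ 2 * i ^ 2))| ≤ 576 * (h ^ 2 * J ^ 2) := by
    have x1 := abs_le.mp (m1 _ _ _ 2 hX j1)
    have x2 := abs_le.mp (m1 _ _ _ 2 hX' j2)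
    have x3 := abs_le.mp (m2 2)
    have : 0 ≤ h ^ 2 * J ^ 2 := by positivity
    rw [abs_le]; constructor <;> linarith [x1.1, x1.2, x2.1, x2.2, x3.1, x3.2]
  have b1 : |-48 * (W * i ^ 3 - W' * i' ^ 3)| ≤ 576 * (h ^ 2 * J ^ 3) := by
    have x1 := abs_le.mp (m1 _ _ _ 3 hW j1)
    have x2 := abs_le.mp (m1 _ _ _ 3 hW' j2)
    have : 0 ≤ h ^ 2 * J ^ 3 := by positivity
    rw [abs_le]; constructor <;> linarith [x1.1, x1.2, x2.1, x2.2]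
  have b0 : |144 * (X * i ^ 4 - X' * i' ^ 4) - 144 * (c * (h ^ 2 * i ^ 4))|
      ≤ 576 * (h ^ 2 * J ^ 4) := by
    have x1 := abs_le.mp (m1 _ _ _ 4 hX j1)
    have x2 := abs_le.mp (m1 _ _ _ 4 hX' j2)
    have x3 := abs_le.mp (m2 4)
    rw [abs_le]; constructor <;> linarith [x1.1, x1.2, x2.1, x2.2, x3.1, x3.2]
  obtain ⟨r, hr⟩ : ∃ r, r = J / T := ⟨_, rfl⟩
  have r0 : 0 ≤ r := by rw [hr]; positivity
  have r1 : r ≤ 1 := by rw [hr]; exact div_le_one_of_le₀ JT T0.le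
  have r2 : r ^ 2 = K4 / (6 * h) := by rw [hr, div_pow, J2, T2]; field_simp; norm_num
  have r3 : r ^ 3 ≤ r ^ 2 := pow_le_pow_of_le_one r0 r1 (by norm_num)
  have r4 : r ^ 4 ≤ r ^ 2 := pow_le_pow_of_le_one r0 r1 (by norm_num)
  have u : |-72 * (X * i ^ 2 - X' * i' ^ 2) - 24 * (c * (h ^ 2 * i ^ 2))| / T ^ 2
      + 2 * |-48 * (W * i ^ 3 - W' * i' ^ 3)| / T ^ 3
      + 3 * |144 * (X * i ^ 4 - X' * i' ^ 4) - 144 * (c * (h ^ 2 * i ^ 4))| / T ^ 4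
      ≤ 576 * K4 * h := by
    calc _ ≤ 576 * (h ^ 2 * J ^ 2) / T ^ 2 + 2 * (576 * (h ^ 2 * J ^ 3)) / T ^ 3
          + 3 * (576 * (h ^ 2 * J ^ 4)) / T ^ 4 := by gcongr
      _ = 576 * h ^ 2 * (r ^ 2 + 2 * r ^ 3 + 3 * r ^ 4) := by rw [hr]; field_simp
      _ ≤ 576 * h ^ 2 * (6 * r ^ 2) := by gcongr; linarith
      _ = _ := by rw [r2]; field_simp
  have v : 2 * (K3 * Y * h ^ 4) / T ^ 3 ≤ |s2 - s1| * (16 * K3 * h) := by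
    have e : 2 * (K3 * Y * h ^ 4) / T ^ 3 = 4 * K3 * h ^ 2 * (h / T) := by
      rw [show T ^ 3 = T ^ 2 * T by ring, T2]; field_simp; ring
    have : h / T ≤ 4 := by rw [div_le_iff₀ T0]; exact hT4
    calc _ = 4 * K3 * h ^ 2 * (h / T) := e
      _ ≤ 4 * K3 * h ^ 2 * 4 := by gcongr
      _ = h * (16 * K3 * h) := by ring
      _ ≤ _ := by gcongr
  have s0 : 0 < |s2 - s1| := by linarith
  have w := mul_le_mul_of_nonneg_left u s0.le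
  apply le_of_mul_le_mul_right _ s0
  linarith

theorem G_bound {k : ℤ} {c K Y : ℝ} {P : V} (hk : |k| ≤ 13) (hY : 40 ≤ Y) (hK : 0 ≤ K)
    (hP : Near k c K Y P) :
    |((NN P : ℝ) ^ 2 - 96 * ((P 0 : ℝ) ^ 2 * (P 1 : ℝ) ^ 2))
      - ((NN' P : ℝ) ^ 2 - 96 * ((P 2 : ℝ) ^ 2 * (P 3 : ℝ) ^ 2)) - c * (NN P : ℝ) ^ 2|
      ≤ (4 * K + 65) * Y := by
  obtain ⟨a1, a2, a3, -, -, -, -⟩ := near_basic hk hY hP
  obtain ⟨p0, -, p2, p3, p4⟩ := hP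
  have Y0 : 0 < Y := by linarith
  obtain ⟨-, -, -, -, b5, -⟩ := ang_facts (p0 2) (p0 3) (NN'_cast P) (by linarith)
  have c1 : |c4 (P 2) (P 3)| ≤ 1 := by rw [← b5]; exact abs_cos_le_one _
  have k1 : (-13 : ℝ) ≤ k := by exact_mod_cast (abs_le.mp hk).1
  have k2 : (k : ℝ) ≤ 13 := by exact_mod_cast (abs_le.mp hk).2
  have e1 : (NN P : ℝ) ^ 2 - 96 * ((P 0 : ℝ) ^ 2 * (P 1 : ℝ) ^ 2)
      = (NN P : ℝ) ^ 2 * c4 (P 0) (P 1) := by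
    unfold c4; rw [← NN_cast]
    have : (NN P : ℝ) ≠ 0 := by linarith
    field_simp
  have e2 : (NN' P : ℝ) ^ 2 - 96 * ((P 2 : ℝ) ^ 2 * (P 3 : ℝ) ^ 2)
      = (NN' P : ℝ) ^ 2 * c4 (P 2) (P 3) := by
    unfold c4; rw [← NN'_cast]
    have : (NN' P : ℝ) ≠ 0 := by linarith
    field_simp
  have e3 : (NN P : ℝ) ^ 2 * c4 (P 0) (P 1) - (NN' P : ℝ) ^ 2 * c4 (P 2) (P 3) - c * (NN P : ℝ) ^ 2
      = (NN P : ℝ) ^ 2 * (c4 (P 0) (P 1) - c4 (P 2) (P 3) - c)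
        - k * (NN P + NN' P) * c4 (P 2) (P 3) := by rw [a1]; ring
  rw [e1, e2, e3]
  have t1 : |(NN P : ℝ) ^ 2 * (c4 (P 0) (P 1) - c4 (P 2) (P 3) - c)| ≤ (2 * Y) ^ 2 * (K / Y) := by
    rw [abs_mul, abs_of_nonneg (sq_nonneg _)]
    gcongr; linarith
  have t2 : |(k : ℝ) * (NN P + NN' P) * c4 (P 2) (P 3)| ≤ 13 * (5 * Y) * 1 := by
    rw [abs_mul, abs_mul]
    gcongr
    · exact abs_le.mpr ⟨k1, k2⟩
    · rw [abs_le]; constructor <;> linarith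
  have e4 : (2 * Y) ^ 2 * (K / Y) = 4 * K * Y := by field_simp; ring
  refine (abs_sub _ _).trans ?_
  linarith

theorem XW_bound (e f : ℝ) : |(e ^ 2 + 12 * f ^ 2) ^ 2 - 96 * (e ^ 2 * f ^ 2)| ≤ (e ^ 2 + 12 * f ^ 2) ^ 2
    ∧ |48 * (e * f) * (e ^ 2 - 12 * f ^ 2)| ≤ 4 * (e ^ 2 + 12 * f ^ 2) ^ 2 := by
  have id : ((e ^ 2 + 12 * f ^ 2) ^ 2 - 96 * (e ^ 2 * f ^ 2)) ^ 2
      + (48 * (e * f) * (e ^ 2 - 12 * f ^ 2)) ^ 2 / 12 = ((e ^ 2 + 12 * f ^ 2) ^ 2) ^ 2 := by ring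
  constructor
  · apply abs_le_of_sq_le_sq _ (by positivity)
    nlinarith [sq_nonneg (48 * (e * f) * (e ^ 2 - 12 * f ^ 2))]
  · apply abs_le_of_sq_le_sq _ (by positivity)
    nlinarith [sq_nonneg ((e ^ 2 + 12 * f ^ 2) ^ 2 - 96 * (e ^ 2 * f ^ 2)),
      sq_nonneg ((e ^ 2 + 12 * f ^ 2) ^ 2)]

theorem quart_id {e f s i h n p q : ℝ} (hh : h = e ^ 2 + 12 * f ^ 2) (h1 : n * h = s ^ 2 + 12 * i ^ 2)
    (h2 : h * p = s * e + 12 * i * f) (h3 : h * q = s * f - i * e) :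
    (n ^ 2 - 96 * (p ^ 2 * q ^ 2)) * h ^ 4
      = (h ^ 2 - 96 * (e ^ 2 * f ^ 2)) * (s ^ 4 - 72 * s ^ 2 * i ^ 2 + 144 * i ^ 4)
        + 48 * (e * f) * (e ^ 2 - 12 * f ^ 2) * i * (4 * s ^ 3 - 48 * s * i ^ 2) := by
  have : (n ^ 2 - 96 * (p ^ 2 * q ^ 2)) * h ^ 4
      = h ^ 2 * (n * h) ^ 2 - 96 * ((h * p) ^ 2 * (h * q) ^ 2) := by ring
  rw [this, h1, h2, h3, hh]; ring

theorem G_line {k : ℤ} {c K Y : ℝ} {P d : V} (hk : |k| ≤ 13) (hY : 40 ≤ Y) (hK : 0 ≤ K)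
    (hP : Near k c K Y P) (hi : NN' d = NN d) (hB : BB P d = 0) :
    |(((NN d : ℝ) ^ 2 - 96 * ((d 0 : ℝ) ^ 2 * (d 1 : ℝ) ^ 2))
        * ((ss P d : ℝ) ^ 4 - 72 * (ss P d : ℝ) ^ 2 * (ii P d : ℝ) ^ 2 + 144 * (ii P d : ℝ) ^ 4)
        + 48 * ((d 0 : ℝ) * d 1) * ((d 0 : ℝ) ^ 2 - 12 * (d 1 : ℝ) ^ 2) * (ii P d : ℝ)
          * (4 * (ss P d : ℝ) ^ 3 - 48 * (ss P d : ℝ) * (ii P d : ℝ) ^ 2))
      - (((NN d : ℝ) ^ 2 - 96 * ((d 2 : ℝ) ^ 2 * (d 3 : ℝ) ^ 2))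
        * ((ss P d : ℝ) ^ 4 - 72 * (ss P d : ℝ) ^ 2 * (ii' P d : ℝ) ^ 2 + 144 * (ii' P d : ℝ) ^ 4)
        + 48 * ((d 2 : ℝ) * d 3) * ((d 2 : ℝ) ^ 2 - 12 * (d 3 : ℝ) ^ 2) * (ii' P d : ℝ)
          * (4 * (ss P d : ℝ) ^ 3 - 48 * (ss P d : ℝ) * (ii' P d : ℝ) ^ 2))
      - c * ((NN d : ℝ) ^ 2 * ((ss P d : ℝ) ^ 2 + 12 * (ii P d : ℝ) ^ 2) ^ 2)|
      ≤ (4 * K + 65) * Y * (NN d : ℝ) ^ 4 := by
  obtain ⟨f1, f2, f3, f4, f5, f6⟩ := line_facts hi hB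
  have g1 : (NN P : ℝ) * NN d = (ss P d : ℝ) ^ 2 + 12 * (ii P d : ℝ) ^ 2 := by exact_mod_cast f1
  have g2 : (NN' P : ℝ) * NN d = (ss P d : ℝ) ^ 2 + 12 * (ii' P d : ℝ) ^ 2 := by exact_mod_cast f2
  have hd' : (NN d : ℝ) = (d 2 : ℝ) ^ 2 + 12 * (d 3 : ℝ) ^ 2 := by rw [← hi, NN'_cast]
  rw [← quart_id (p := P 0) (q := P 1) (NN_cast d) g1 (by exact_mod_cast f3) (by exact_mod_cast f4),
    ← quart_id (p := P 2) (q := P 3) hd' g2 (by exact_mod_cast f5) (by exact_mod_cast f6), ← g1]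
  have := mul_le_mul_of_nonneg_right (G_bound hk hY hK hP) (show 0 ≤ (NN d : ℝ) ^ 4 by positivity)
  rw [← abs_of_nonneg (show 0 ≤ (NN d : ℝ) ^ 4 by positivity), ← abs_mul,
    abs_of_nonneg (show 0 ≤ (NN d : ℝ) ^ 4 by positivity)] at this
  refine le_trans (le_of_eq ?_) this
  congr 1; ring

theorem c4_abs (p q : ℤ) : |c4 p q| ≤ 1 := by
  unfold c4
  by_cases h : (p : ℝ) ^ 2 + 12 * (q : ℝ) ^ 2 = 0
  · rw [h]; simp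
  · have h0 : 0 < ((p : ℝ) ^ 2 + 12 * (q : ℝ) ^ 2) ^ 2 := by positivity
    have h1 : 0 ≤ 96 * ((p : ℝ) ^ 2 * (q : ℝ) ^ 2) / ((p : ℝ) ^ 2 + 12 * (q : ℝ) ^ 2) ^ 2 := by
      positivity
    have h2 : 96 * ((p : ℝ) ^ 2 * (q : ℝ) ^ 2) / ((p : ℝ) ^ 2 + 12 * (q : ℝ) ^ 2) ^ 2 ≤ 2 := by
      rw [div_le_iff₀ h0]; nlinarith [sq_nonneg ((p : ℝ) ^ 2 - 12 * (q : ℝ) ^ 2)]
    rw [abs_le]; constructor <;> linarith

theorem admissible {k m : ℤ} {c K Y : ℝ} {P Q d : V} (hk : |k| ≤ 13) (hc : |c| ≤ 2) (hY : 40 ≤ Y)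
    (hK : 0 ≤ K) (hP : Near k c K Y P) (hQ : Near k c K Y Q) (hm : m ≠ 0)
    (hD : ∀ i, Q i - P i = m * d i) (hi : NN' d = NN d) (h0 : 0 < NN d) (hB : BB P d = 0)
    (h1 : 12 * (ii P Q : ℝ) ^ 2 ≤ (1 + 10 * K) * Y) (h2 : 12 * (ii' P Q : ℝ) ^ 2 ≤ (1 + 10 * K) * Y) :
    (NN d : ℝ) ≤ 8 * Y ∧
      |c4 (d 0) (d 1) - c4 (d 2) (d 3) - c| ≤ (6000 * K + 2000) / NN d := by
  have Y0 : 0 < Y := by linarith
  have h0' : (0 : ℝ) < NN d := by exact_mod_cast h0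
  have q0 : ∀ i, Q i = P i + m * d i := fun i => by linarith [hD i]
  have m1 : 1 ≤ m ^ 2 := by have := sq_pos_of_ne_zero hm; omega
  have m2 : (1 : ℝ) ≤ (m : ℝ) ^ 2 := by exact_mod_cast m1
  have h8 : (NN d : ℝ) ≤ 8 * Y := by
    have e1 : m ^ 2 * NN d ≤ 2 * NN P + 2 * NN Q := by
      have : m ^ 2 * NN d = (Q 0 - P 0) ^ 2 + 12 * (Q 1 - P 1) ^ 2 := by
        rw [hD 0, hD 1]; unfold NN; ring
      rw [this]; unfold NN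
      nlinarith [sq_nonneg (Q 0 + P 0), sq_nonneg (Q 1 + P 1)]
    have e2 : NN d ≤ 2 * NN P + 2 * NN Q := by nlinarith
    have e3 : (NN d : ℝ) ≤ 2 * NN P + 2 * NN Q := by exact_mod_cast e2
    linarith [hP.2.2.2.1, hQ.2.2.2.1]
  refine ⟨h8, ?_⟩
  by_cases hs : 2 * (1 + 10 * K) ≤ (NN d : ℝ)
  swap
  · push Not at hs
    have x1 := abs_le.mp (c4_abs (d 0) (d 1))
    have x2 := abs_le.mp (c4_abs (d 2) (d 3))
    have x3 := abs_le.mp hc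
    have : |c4 (d 0) (d 1) - c4 (d 2) (d 3) - c| ≤ 4 := by
      rw [abs_le]; constructor <;> linarith [x1.1, x1.2, x2.1, x2.2, x3.1, x3.2]
    refine this.trans ?_
    rw [le_div_iff₀ h0']; linarith
  have hBQ : BB Q d = 0 := by
    have : BB Q d = BB P d + m * (NN' d - NN d) := by
      unfold BB NN NN'; rw [q0 0, q0 1, q0 2, q0 3]; ring
    rw [this, hB, hi]; ring
  have i1 : ii Q d = ii P d := by unfold ii; rw [q0 0, q0 1]; ring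
  have i2 : ii' Q d = ii' P d := by unfold ii'; rw [q0 2, q0 3]; ring
  have i3 : ss Q d = ss P d + m * NN d := by unfold ss NN; rw [q0 0, q0 1]; ring
  have i4 : ii P Q = m * ii P d := by unfold ii; rw [q0 0, q0 1]; ring
  have i5 : ii' P Q = m * ii' P d := by unfold ii'; rw [q0 2, q0 3]; ring
  have g1 := G_line hk hY hK hP hi hB
  have g2 := G_line hk hY hK hQ hi hBQ
  rw [i1, i2] at g2
  have hd' : (NN d : ℝ) = (d 2 : ℝ) ^ 2 + 12 * (d 3 : ℝ) ^ 2 := by rw [← hi, NN'_cast]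
  have w1 := XW_bound (d 0 : ℝ) (d 1)
  have w2 := XW_bound (d 2 : ℝ) (d 3)
  rw [← NN_cast] at w1
  rw [← hd'] at w2
  have l1 : (NN P : ℝ) * NN d = (ss P d : ℝ) ^ 2 + 12 * (ii P d : ℝ) ^ 2 := by
    exact_mod_cast (line_facts hi hB).1
  have l2 : (NN Q : ℝ) * NN d = (ss Q d : ℝ) ^ 2 + 12 * (ii P d : ℝ) ^ 2 := by
    rw [← i1]; exact_mod_cast (line_facts hi hBQ).1
  rw [i4] at h1
  rw [i5] at h2
  push_cast at h1 h2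
  have key := adm_real (K4 := 1 + 10 * K) w1.1 w2.1 w1.2 w2.2 hc Y0 (by positivity) (by linarith)
    (by nlinarith [sq_nonneg (ii P d : ℝ)]) (by nlinarith [sq_nonneg (ii' P d : ℝ)])
    (by rw [← l1]; exact mul_le_mul_of_nonneg_right hP.2.2.1 h0'.le)
    (by rw [← l2]; exact mul_le_mul_of_nonneg_right hQ.2.2.1 h0'.le) h8 hs
    (by
      rw [i3]; push_cast
      rw [add_sub_cancel_left, abs_mul, abs_of_pos h0']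
      have : (1 : ℝ) ≤ |(m : ℝ)| := by
        rw [← sq_abs] at m2; nlinarith [abs_nonneg (m : ℝ)]
      nlinarith) g1 g2
  have e : c4 (d 0) (d 1) - c4 (d 2) (d 3) - c
      = (((NN d : ℝ) ^ 2 - 96 * ((d 0 : ℝ) ^ 2 * (d 1 : ℝ) ^ 2))
        - ((NN d : ℝ) ^ 2 - 96 * ((d 2 : ℝ) ^ 2 * (d 3 : ℝ) ^ 2)) - c * (NN d : ℝ) ^ 2)
          / (NN d : ℝ) ^ 2 := by
    unfold c4
    rw [← NN_cast, ← hd']
    field_simp
  rw [e, abs_div, abs_of_pos (a := (NN d : ℝ) ^ 2) (by positivity), div_le_div_iff₀ (by positivity) h0']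
  have := mul_le_mul_of_nonneg_right key h0'.le
  have hh : 0 ≤ K * (NN d : ℝ) ^ 2 := by positivity
  have hh2 : 0 ≤ (NN d : ℝ) ^ 2 := by positivity
  nlinarith

end Pool.Agent.P.MP_858e15_gt
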