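import Mathlib

namespace Pool.Agent.P.MP_858e15_gt

abbrev V := Fin 4 → ℤ

def BB (P Q : V) : ℤ := (P 2 * Q 2 + 12 * (P 3 * Q 3)) - (P 0 * Q 0 + 12 * (P 1 * Q 1))

def NN (P : V) : ℤ := P 0 ^ 2 + 12 * P 1 ^ 2

def NN' (P : V) : ℤ := P 2 ^ 2 + 12 * P 3 ^ 2

def Prim (d : V) : Prop := ∃ c : V, c 0 * d 0 + c 1 * d 1 + c 2 * d 2 + c 3 * d 3 = 1

theorem BB_self (P : V) : BB P P = NN' P - NN P := by unfold BB NN NN'; ring

theorem classes (S : Finset V) (L M : ℕ) (hL : ∀ P ∈ S, ∀ Q ∈ S, |BB P Q| ≤ L)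
    (hM : ∀ S' ⊆ S, (∀ P ∈ S', ∀ Q ∈ S', BB P Q = BB P P) → S'.card ≤ M) :
    S.card ≤ M * (2 * L + 1) ^ 4 := by
  classical
  let cst : V → (Fin 4 → ℚ) := fun P i => (P i : ℚ)
  obtain ⟨f, hf, hspan, -⟩ := Submodule.exists_fun_fin_finrank_span_eq ℚ (cst '' (S : Set V))
  have hn : Module.finrank ℚ (Submodule.span ℚ (cst '' (S : Set V))) ≤ 4 := by
    simpa using Submodule.finrank_le (Submodule.span ℚ (cst '' (S : Set V)))
  choose b hb hbf using hf
  have hcard := Finset.card_le_mul_card_image_of_maps_to (s := S)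
    (f := fun P i => BB P (b i))
    (t := Fintype.piFinset fun _ => Finset.Icc (-(L : ℤ)) L) (by
      intro P hP
      rw [Fintype.mem_piFinset]
      intro i
      exact Finset.mem_Icc.mpr (abs_le.mp (hL P hP _ (hb i)))) M (by
      intro y _
      apply hM _ (Finset.filter_subset _ _)
      intro P hP Q hQ
      obtain ⟨hP1, hP2⟩ := Finset.mem_filter.mp hP
      obtain ⟨hQ1, hQ2⟩ := Finset.mem_filter.mp hQ
      have hmem : cst P ∈ Submodule.span ℚ (Set.range f) := by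
        rw [hspan]; exact Submodule.subset_span ⟨P, hP1, rfl⟩
      have key : ∀ x ∈ Submodule.span ℚ (Set.range f),
          ((P 2 - Q 2 : ℚ) * x 2 + 12 * ((P 3 - Q 3 : ℚ) * x 3))
            - ((P 0 - Q 0 : ℚ) * x 0 + 12 * ((P 1 - Q 1 : ℚ) * x 1)) = 0 := by
        intro x hx
        induction hx using Submodule.span_induction with
        | mem x hx =>
          obtain ⟨i, rfl⟩ := hx
          have e : BB P (b i) = BB Q (b i) := congrFun (hP2.trans hQ2.symm) i
          have e' : ((BB P (b i) : ℤ) : ℚ) = BB Q (b i) := by rw [e]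
          rw [← hbf i]
          unfold BB at e'
          push_cast at e'
          simp only [cst]
          linarith
        | zero => simp
        | add x y _ _ hx hy => simp only [Pi.add_apply]; linarith
        | smul a x _ hx =>
          simp only [Pi.smul_apply, smul_eq_mul]
          linear_combination a * hx
      have := key _ hmem
      simp only [cst] at this
      have e : ((BB P Q : ℤ) : ℚ) = BB P P := by
        unfold BB; push_cast; linarith
      exact_mod_cast e)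
  refine hcard.trans (Nat.mul_le_mul_left _ ?_)
  rw [Fintype.card_piFinset]
  simp only [Int.card_Icc, Finset.prod_const, Finset.card_univ, Fintype.card_fin]
  have : ((L : ℤ) + 1 - -(L : ℤ)).toNat = 2 * L + 1 := by omega
  rw [this]
  exact Nat.pow_le_pow_right (by omega) hn

theorem exists_prim {D : V} (h : D ≠ 0) : ∃ (m : ℤ) (d : V), m ≠ 0 ∧ Prim d ∧ ∀ i, D i = m * d i := by
  obtain ⟨d, hd, h1⟩ := Finset.extract_gcd (s := Finset.univ) D Finset.univ_nonempty
  obtain ⟨c, hc⟩ := Finset.gcd_eq_sum_mul Finset.univ d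
  refine ⟨Finset.univ.gcd D, d, ?_, ⟨c, ?_⟩, fun i => hd i (Finset.mem_univ _)⟩
  · intro h0
    apply h
    funext i
    rw [hd i (Finset.mem_univ _), h0]; simp
  · rw [h1, Fin.sum_univ_four] at hc
    linarith

theorem prim_pos {d : V} (hd : Prim d) (hi : NN' d = NN d) : 0 < NN d := by
  obtain ⟨c, hc⟩ := hd
  by_contra h0
  unfold NN NN' at *
  have a0 : d 0 = 0 := by nlinarith [sq_nonneg (d 0), sq_nonneg (d 1)]
  have a1 : d 1 = 0 := by nlinarith [sq_nonneg (d 0), sq_nonneg (d 1)]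
  have a2 : d 2 = 0 := by nlinarith [sq_nonneg (d 2), sq_nonneg (d 3)]
  have a3 : d 3 = 0 := by nlinarith [sq_nonneg (d 2), sq_nonneg (d 3)]
  rw [a0, a1, a2, a3] at hc
  simp at hc

def ss (P d : V) : ℤ := P 0 * d 0 + 12 * (P 1 * d 1)

def ii (P d : V) : ℤ := P 0 * d 1 - P 1 * d 0

def ii' (P d : V) : ℤ := P 2 * d 3 - P 3 * d 2

theorem line_facts {P d : V} (hi : NN' d = NN d) (hP : BB P d = 0) :
    NN P * NN d = ss P d ^ 2 + 12 * ii P d ^ 2 ∧ NN' P * NN d = ss P d ^ 2 + 12 * ii' P d ^ 2 ∧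
    NN d * P 0 = ss P d * d 0 + 12 * ii P d * d 1 ∧ NN d * P 1 = ss P d * d 1 - ii P d * d 0 ∧
    NN d * P 2 = ss P d * d 2 + 12 * ii' P d * d 3 ∧ NN d * P 3 = ss P d * d 3 - ii' P d * d 2 := by
  have e : ss P d = P 2 * d 2 + 12 * (P 3 * d 3) := by unfold ss; unfold BB at hP; linarith
  refine ⟨by unfold NN ss ii; ring, ?_, by unfold NN ss ii; ring, by unfold NN ss ii; ring, ?_, ?_⟩
  · rw [e, ← hi]; unfold NN' ii'; ring
  · rw [e, ← hi]; unfold NN' ii'; ring
  · rw [e, ← hi]; unfold NN' ii'; ring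

theorem pair_facts {P Q d : V} (hi : NN' d = NN d) (hP : BB P d = 0) (hQ : BB Q d = 0) :
    BB P Q * NN d = 12 * (ii' P d * ii' Q d - ii P d * ii Q d) := by
  have e1 : ss P d = P 2 * d 2 + 12 * (P 3 * d 3) := by unfold ss; unfold BB at hP; linarith
  have e2 : ss Q d = Q 2 * d 2 + 12 * (Q 3 * d 3) := by unfold ss; unfold BB at hQ; linarith
  have a1 : (P 0 * Q 0 + 12 * (P 1 * Q 1)) * NN d = ss P d * ss Q d + 12 * (ii P d * ii Q d) := by
    unfold NN ss ii; ring
  have a2 : (P 2 * Q 2 + 12 * (P 3 * Q 3)) * NN d = ss P d * ss Q d + 12 * (ii' P d * ii' Q d) := by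
    rw [e1, e2, ← hi]; unfold NN' ii'; ring
  unfold BB
  linear_combination a2 - a1

theorem split_bound {β n k : ℤ} (hk : k ≠ 0) (hk2 : |k| ≤ 13) (h : β ^ 2 - k ^ 2 = n ^ 2) :
    |β| ≤ 169 ∧ |n| ≤ 169 := by
  have k1 : 0 < |k| := abs_pos.mpr hk
  have e : |β| ^ 2 - |k| ^ 2 = |n| ^ 2 := by simp only [sq_abs]; exact h
  have b0 := abs_nonneg β
  have n0 := abs_nonneg n
  have h1 : |n| < |β| := by
    by_contra hc
    push Not at hc
    nlinarith
  have h2 : |n| + 1 ≤ |β| := h1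
  constructor <;> nlinarith

theorem line_count {d : V} (hd : Prim d) (hi : NN' d = NN d) {k : ℤ} (hk : k ≠ 0)
    (hk2 : |k| ≤ 13) (S : Finset V) (M L : ℕ) (hL : (L : ℤ) = 169)
    (hS : ∀ P ∈ S, BB P d = 0 ∧ BB P P = k ∧ NN P ≤ (M : ℤ) ^ 2 * NN d) :
    S.card ≤ (2 * L + 1) * ((2 * L + 1) * (2 * M + 1)) := by
  classical
  rcases S.eq_empty_or_nonempty with rfl | ⟨Q, hQ⟩
  · simp
  have h0 := prim_pos hd hi
  obtain ⟨q1, q2, -⟩ := hS Q hQ
  have hkQ := pair_facts hi q1 q1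
  rw [q2] at hkQ
  have hn : ∀ P ∈ S, ∃ n : ℤ, 12 * (ii' P d * ii Q d - ii P d * ii' Q d) = n * NN d ∧
      |BB P Q| ≤ L ∧ |n| ≤ L := by
    intro P hP
    rw [hL]
    obtain ⟨p1, p2, -⟩ := hS P hP
    have a1 := pair_facts hi p1 q1
    have a2 := pair_facts hi p1 p1
    rw [p2] at a2
    have e : (12 * (ii' P d * ii Q d - ii P d * ii' Q d)) ^ 2
        = NN d ^ 2 * (BB P Q ^ 2 - k ^ 2) := by
      have x1 : NN d ^ 2 * BB P Q ^ 2 = (12 * (ii' P d * ii' Q d - ii P d * ii Q d)) ^ 2 := by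
        rw [← a1]; ring
      have x2 : NN d ^ 2 * k ^ 2 = (12 * (ii' P d * ii' P d - ii P d * ii P d))
          * (12 * (ii' Q d * ii' Q d - ii Q d * ii Q d)) := by
        rw [← a2, ← hkQ]; ring
      linear_combination x2 - x1
    have hdvd : NN d ∣ 12 * (ii' P d * ii Q d - ii P d * ii' Q d) :=
      (Int.pow_dvd_pow_iff two_ne_zero).mp ⟨_, e⟩
    obtain ⟨n, hn⟩ := hdvd
    refine ⟨n, by rw [hn]; ring, split_bound hk hk2 ?_⟩
    rw [hn, mul_pow] at e
    exact (mul_left_cancel₀ (pow_ne_zero 2 h0.ne') e).symm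
  have hc : S.card ≤ (Finset.Icc (-(L : ℤ)) L ×ˢ Finset.Icc (-(L : ℤ)) L
      ×ˢ Finset.Icc (-(M : ℤ)) M).card := by
    apply Finset.card_le_card_of_injOn (fun P => (BB P Q,
      12 * (ii' P d * ii Q d - ii P d * ii' Q d) / NN d, ss P d / NN d))
    · intro P hP
      obtain ⟨n, n1, n2, n3⟩ := hn P hP
      obtain ⟨p1, -, p3⟩ := hS P hP
      have f1 := (line_facts hi p1).1
      have s1 : ss P d ^ 2 ≤ ((M : ℤ) * NN d) ^ 2 := by nlinarith [sq_nonneg (ii P d)]
      have s2 := abs_le_of_sq_le_sq' s1 (by positivity)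
      simp only [Finset.coe_product, Set.mem_prod, Finset.coe_Icc, Set.mem_Icc]
      rw [n1, Int.mul_ediv_cancel _ h0.ne']
      refine ⟨abs_le.mp n2, abs_le.mp n3, ?_, ?_⟩
      · rw [Int.le_ediv_iff_mul_le h0]; linarith [s2.1]
      · exact Int.ediv_le_of_le_mul h0 s2.2
    · intro P hP R hR hPR
      obtain ⟨n, n1, -, -⟩ := hn P hP
      obtain ⟨n', n1', -, -⟩ := hn R hR
      obtain ⟨p1, -, -⟩ := hS P hP
      obtain ⟨r1, -, -⟩ := hS R hR
      simp only [Prod.mk.injEq] at hPR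
      obtain ⟨e1, e2, e3⟩ := hPR
      rw [n1, n1', Int.mul_ediv_cancel _ h0.ne', Int.mul_ediv_cancel _ h0.ne'] at e2
      have a1 := pair_facts hi p1 q1
      have a2 := pair_facts hi r1 q1
      have x1 : (ii' P d - ii' R d) * ii' Q d - (ii P d - ii R d) * ii Q d = 0 := by
        rw [e1] at a1; linarith
      have x2 : (ii' P d - ii' R d) * ii Q d - (ii P d - ii R d) * ii' Q d = 0 := by
        rw [e2] at n1; linarith
      have hne : k * NN d ≠ 0 := mul_ne_zero hk h0.ne'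
      have y1 : ii P d = ii R d := by
        have : (ii P d - ii R d) * (k * NN d) = 0 := by
          rw [hkQ]; linear_combination 12 * ii Q d * x1 - 12 * ii' Q d * x2
        exact sub_eq_zero.mp ((mul_eq_zero.mp this).resolve_right hne)
      have y2 : ii' P d = ii' R d := by
        have : (ii' P d - ii' R d) * (k * NN d) = 0 := by
          rw [hkQ]; linear_combination 12 * ii' Q d * x1 - 12 * ii Q d * x2
        exact sub_eq_zero.mp ((mul_eq_zero.mp this).resolve_right hne)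
      obtain ⟨-, -, f0, f1, f2, f3⟩ := line_facts hi p1
      obtain ⟨-, -, g0, g1, g2, g3⟩ := line_facts hi r1
      rw [y1] at f0 f1
      rw [y2] at f2 f3
      obtain ⟨c, hc⟩ := hd
      have z : ss P d - ss R d = NN d * (c 0 * (P 0 - R 0) + c 1 * (P 1 - R 1)
          + c 2 * (P 2 - R 2) + c 3 * (P 3 - R 3)) := by
        linear_combination (-(ss P d - ss R d)) * hc - c 0 * (f0 - g0) - c 1 * (f1 - g1)
          - c 2 * (f2 - g2) - c 3 * (f3 - g3)
      have z2 : ss P d % NN d = ss R d % NN d :=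
        (Int.emod_emod_of_dvd _ (dvd_refl _)).symm.trans <| by
          rw [Int.emod_emod_of_dvd _ (dvd_refl _)]
          exact Int.emod_eq_emod_iff_emod_sub_eq_zero.mpr (by rw [z]; simp)
      have z3 : ss P d = ss R d := by
        rw [← Int.mul_ediv_add_emod (ss P d) (NN d), ← Int.mul_ediv_add_emod (ss R d) (NN d),
          e3, z2]
      rw [z3] at f0 f1 f2 f3
      funext i
      fin_cases i
      · exact mul_left_cancel₀ h0.ne' (f0.trans g0.symm)
      · exact mul_left_cancel₀ h0.ne' (f1.trans g1.symm)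
      · exact mul_left_cancel₀ h0.ne' (f2.trans g2.symm)
      · exact mul_left_cancel₀ h0.ne' (f3.trans g3.symm)
  refine hc.trans (le_of_eq ?_)
  simp only [Finset.card_product, Int.card_Icc]
  have : ((M : ℤ) + 1 - -(M : ℤ)).toNat = 2 * M + 1 := by omega
  have h2 : ((L : ℤ) + 1 - -(L : ℤ)).toNat = 2 * L + 1 := by omega
  rw [this, h2]

end Pool.Agent.P.MP_858e15_gt
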