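import Mathlib

namespace Pool.Agent.P.MP_858e15_gt

open Real

theorem cos_gap {a b : ℝ} (ha : 0 ≤ a) (hab : a ≤ b) (hb : b ≤ π) :
    (b - a) ^ 2 ≤ 5 * (cos a - cos b) := by
  have hp := pi_pos
  have hp2 : π ^ 2 < 10 := by nlinarith [pi_lt_d2]
  have s1 : 2 / π * ((b - a) / 2) ≤ sin ((b - a) / 2) := mul_le_sin (by linarith) (by linarith)
  have s0 : 0 ≤ 2 / π * ((b - a) / 2) := by
    have : 0 ≤ b - a := by linarith
    positivity
  have s2 : sin ((b - a) / 2) ≤ sin ((a + b) / 2) := by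
    rcases le_total ((a + b) / 2) (π / 2) with h | h
    · exact sin_le_sin_of_le_of_le_pi_div_two (by linarith) h (by linarith)
    · rw [← sin_pi_sub ((a + b) / 2)]
      exact sin_le_sin_of_le_of_le_pi_div_two (by linarith) (by linarith) (by linarith)
  have e : cos a - cos b = 2 * (sin ((a + b) / 2) * sin ((b - a) / 2)) := by
    rw [cos_sub_cos, show (a - b) / 2 = -((b - a) / 2) by ring, sin_neg]; ring
  have s3 : (2 / π * ((b - a) / 2)) * (2 / π * ((b - a) / 2))
      ≤ sin ((a + b) / 2) * sin ((b - a) / 2) :=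
    mul_le_mul (s1.trans s2) s1 s0 (s0.trans (s1.trans s2))
  have e2 : (2 / π * ((b - a) / 2)) * (2 / π * ((b - a) / 2)) = (b - a) ^ 2 / π ^ 2 := by
    field_simp
  rw [e2, div_le_iff₀ (by positivity)] at s3
  have s4 : 0 ≤ sin ((a + b) / 2) * sin ((b - a) / 2) :=
    mul_nonneg (s0.trans (s1.trans s2)) (s0.trans s1)
  rw [e]
  nlinarith

theorem box_aux {a a' b b' c δ ε : ℝ} (ha : 0 ≤ a) (hab : a ≤ b) (hb : b ≤ π)
    (ha' : a' ∈ Set.Icc 0 π) (hb' : b' ∈ Set.Icc 0 π) (h1 : |cos a - cos a' - c| ≤ δ)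
    (h2 : |cos b - cos b' - c| ≤ δ) (h3 : |(a + a') - (b + b')| ≤ ε) :
    (a - b) ^ 2 ≤ ε ^ 2 + 10 * δ ∧ (a' - b') ^ 2 ≤ ε ^ 2 + 10 * δ := by
  have d0 : 0 ≤ δ := (abs_nonneg _).trans h1
  obtain ⟨h31, h32⟩ := abs_le.mp h3
  rcases le_total a' b' with h | h
  · constructor <;> nlinarith
  · have g1 := cos_gap ha hab hb
    have g2 := cos_gap hb'.1 h ha'.2
    have := (abs_le.mp h1).2
    have := (abs_le.mp h2).1
    constructor <;> nlinarith [sq_nonneg (b - a), sq_nonneg (a' - b'), sq_nonneg ε]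

theorem box_lemma {a a' b b' c δ ε : ℝ} (ha : a ∈ Set.Icc 0 π) (hb : b ∈ Set.Icc 0 π)
    (ha' : a' ∈ Set.Icc 0 π) (hb' : b' ∈ Set.Icc 0 π) (h1 : |cos a - cos a' - c| ≤ δ)
    (h2 : |cos b - cos b' - c| ≤ δ) (h3 : |(a + a') - (b + b')| ≤ ε) :
    (a - b) ^ 2 ≤ ε ^ 2 + 10 * δ ∧ (a' - b') ^ 2 ≤ ε ^ 2 + 10 * δ := by
  rcases le_total a b with h | h
  · exact box_aux ha.1 h hb.2 ha' hb' h1 h2 h3
  · have := box_aux (ε := ε) hb.1 h ha.2 hb' ha' h2 h1 (by rwa [abs_sub_comm])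
    constructor <;> nlinarith [this.1, this.2]

theorem tangent_lemma {a a' b b' c δ : ℝ} (ha : a ∈ Set.Icc 0 π) (hb : b ∈ Set.Icc 0 π)
    (ha' : a' ∈ Set.Icc 0 π) (hb' : b' ∈ Set.Icc 0 π) (h1 : |cos a - cos a' - c| ≤ δ)
    (h2 : |cos b - cos b' - c| ≤ δ) (hc1 : 0.15 ≤ |c|) (hc2 : |c| ≤ 1.99) (hδ : δ ≤ 1 / 1000)
    (hd : |b - a| ≤ 1 / 1000) (he : |b - a| = |b' - a'|) :
    |b - a| * |π - (a + a')| ≤ 200 * δ + (b - a) ^ 2 := by
  have hp := pi_pos
  have hp3 := pi_gt_three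
  have hp4 : π < 3.15 := pi_lt_d2
  have d0 : 0 ≤ δ := (abs_nonneg _).trans h1
  have hdiff : |(cos a - cos a') - (cos b - cos b')| ≤ 2 * δ := by
    have : (cos a - cos a') - (cos b - cos b') = (cos a - cos a' - c) - (cos b - cos b' - c) := by
      ring
    rw [this]; refine (abs_sub _ _).trans ?_; linarith
  have D0 := abs_nonneg (b - a)
  have sD : |b - a| / π ≤ |sin ((b - a) / 2)| := by
    have := mul_abs_le_abs_sin (x := (b - a) / 2) (by rw [abs_div, abs_two]; linarith)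
    rw [abs_div, abs_two] at this
    refine le_trans (le_of_eq ?_) this
    field_simp
  rcases abs_eq_abs.mp he with h | h
  · have hb2 : b' = a' + (b - a) := by linarith
    have e : (cos a - cos a') - (cos b - cos b')
        = 4 * (sin ((b - a) / 2) * (sin ((π - (a + a' + (b - a))) / 2) * sin ((a - a') / 2))) := by
      have e1 : cos a - cos b = 2 * sin ((a + b) / 2) * sin ((b - a) / 2) := by
        rw [cos_sub_cos, show (a - b) / 2 = -((b - a) / 2) by ring, sin_neg]; ring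
      have e2 : cos a' - cos b' = 2 * sin ((a' + b') / 2) * sin ((b - a) / 2) := by
        rw [cos_sub_cos, show (a' - b') / 2 = -((b - a) / 2) by rw [hb2]; ring, sin_neg]; ring
      have e3 : sin ((a + b) / 2) - sin ((a' + b') / 2)
          = 2 * sin ((a - a') / 2) * sin ((π - (a + a' + (b - a))) / 2) := by
        rw [sin_sub_sin, show (π - (a + a' + (b - a))) / 2 = π / 2 - (a + a' + (b - a)) / 2 by ring,
          sin_pi_div_two_sub]
        congr 2
        · congr 1; rw [hb2]; ring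
        · rw [hb2]; ring
      linear_combination e1 - e2 + 2 * sin ((b - a) / 2) * e3
    have s2 : |π - (a + a' + (b - a))| / π ≤ |sin ((π - (a + a' + (b - a))) / 2)| := by
      have := mul_abs_le_abs_sin (x := (π - (a + a' + (b - a))) / 2) (by
        rw [abs_div, abs_two]
        have : |π - (a + a' + (b - a))| ≤ π := by
          rw [abs_le]; constructor <;> linarith [ha.1, ha.2, hb.1, hb.2, ha'.1, ha'.2]
        linarith)
      rw [abs_div, abs_two] at this
      refine le_trans (le_of_eq ?_) this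
      field_simp
    have s3 : 0.07 ≤ |sin ((a - a') / 2)| := by
      have x1 : |cos a - cos a'| ≤ 2 * |sin ((a - a') / 2)| := by
        rw [cos_sub_cos, abs_mul, abs_mul]
        have := abs_sin_le_one ((a + a') / 2)
        have := abs_nonneg (sin ((a - a') / 2))
        norm_num
        nlinarith
      have x2 : |c| ≤ |cos a - cos a'| + |cos a - cos a' - c| := by
        refine le_trans (le_of_eq ?_) (abs_sub _ _)
        congr 1; ring
      linarith
    rw [e, abs_mul, abs_mul, abs_mul] at hdiff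
    have W0 := abs_nonneg (π - (a + a' + (b - a)))
    have s4 : |b - a| / π * (|π - (a + a' + (b - a))| / π * 0.07)
        ≤ |sin ((b - a) / 2)| * (|sin ((π - (a + a' + (b - a))) / 2)| * |sin ((a - a') / 2)|) := by
      gcongr
    have s5 : |b - a| * |π - (a + a' + (b - a))| ≤ 200 * δ := by
      have e4 : |b - a| / π * (|π - (a + a' + (b - a))| / π * 0.07)
          = |b - a| * |π - (a + a' + (b - a))| * 0.07 / π ^ 2 := by field_simp
      rw [e4, div_le_iff₀ (by positivity)] at s4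
      have q1 : π ^ 2 ≤ 10 := by nlinarith
      have q2 : |(4 : ℝ)| = 4 := by norm_num
      rw [q2] at hdiff
      have q3 : 0 ≤ |sin ((b - a) / 2)| * (|sin ((π - (a + a' + (b - a))) / 2)|
        * |sin ((a - a') / 2)|) := by positivity
      nlinarith
    have s6 : |π - (a + a')| ≤ |π - (a + a' + (b - a))| + |b - a| := by
      refine le_trans (le_of_eq ?_) (abs_add_le _ _)
      congr 1; ring
    rw [← sq_abs (b - a)]
    nlinarith
  · have hb2 : b' = a' + (a - b) := by linarith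
    have e : (cos a - cos a') - (cos b - cos b')
        = 2 * (sin ((b - a) / 2) * (sin ((a + b) / 2) + sin ((a' + b') / 2))) := by
      have e1 : cos a - cos b = 2 * sin ((a + b) / 2) * sin ((b - a) / 2) := by
        rw [cos_sub_cos, show (a - b) / 2 = -((b - a) / 2) by ring, sin_neg]; ring
      have e2 : cos a' - cos b' = -2 * sin ((a' + b') / 2) * sin ((b - a) / 2) := by
        rw [cos_sub_cos, show (a' - b') / 2 = (b - a) / 2 by rw [hb2]; ring]
      linear_combination e1 - e2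
    set m := (a + b) / 2 with hm
    set m' := (a' + b') / 2 with hm'
    have sm : 0 ≤ sin m := sin_nonneg_of_nonneg_of_le_pi (by linarith [ha.1, hb.1])
      (by linarith [ha.2, hb.2])
    have sm' : 0 ≤ sin m' := sin_nonneg_of_nonneg_of_le_pi (by linarith [ha'.1, hb'.1])
      (by linarith [ha'.2, hb'.2])
    have l1 : |cos m - cos a| ≤ 1 / 2000 := by
      refine (abs_cos_sub_cos_le _ _).trans ?_
      rw [show m - a = (b - a) / 2 by rw [hm]; ring, abs_div, abs_two]; linarith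
    have l2 : |cos m' - cos a'| ≤ 1 / 2000 := by
      refine (abs_cos_sub_cos_le _ _).trans ?_
      rw [show m' - a' = (b' - a') / 2 by rw [hm']; ring, abs_div, abs_two]; linarith
    have t1 : 0.1 ≤ sin m + sin m' := by
      have c1 := sin_sq_add_cos_sq m
      have c2 := sin_sq_add_cos_sq m'
      have c3 := cos_le_one m
      have c4 := cos_le_one m'
      have c5 := neg_one_le_cos m
      have c6 := neg_one_le_cos m'
      obtain ⟨l11, l12⟩ := abs_le.mp l1
      obtain ⟨l21, l22⟩ := abs_le.mp l2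
      obtain ⟨h11, h12⟩ := abs_le.mp h1
      have t2 : 0.01 ≤ sin m ^ 2 + sin m' ^ 2 := by
        rcases le_total 0 c with hc | hc
        · rw [abs_of_nonneg hc] at hc1 hc2
          have y1 : 0.14 ≤ cos m - cos m' := by linarith
          have y2 : cos m - cos m' ≤ 1.992 := by linarith
          nlinarith [mul_nonneg (sub_nonneg.mpr c3) (show 0 ≤ 1 + cos m' by linarith),
            mul_nonneg (sub_nonneg.mpr y1) (sub_nonneg.mpr y2)]
        · rw [abs_of_nonpos hc] at hc1 hc2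
          have y1 : 0.14 ≤ cos m' - cos m := by linarith
          have y2 : cos m' - cos m ≤ 1.992 := by linarith
          nlinarith [mul_nonneg (sub_nonneg.mpr c4) (show 0 ≤ 1 + cos m by linarith),
            mul_nonneg (sub_nonneg.mpr y1) (sub_nonneg.mpr y2)]
      nlinarith [mul_nonneg sm sm']
    rw [e, abs_mul, abs_mul, abs_two, abs_of_nonneg (a := sin m + sin m') (by linarith)] at hdiff
    have s4 : |b - a| / π * 0.1 ≤ |sin ((b - a) / 2)| * (sin m + sin m') := by gcongr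
    have s5 : |b - a| ≤ 40 * δ := by
      have e4 : |b - a| / π * 0.1 = |b - a| * 0.1 / π := by ring
      rw [e4, div_le_iff₀ hp] at s4
      have q3 : 0 ≤ |sin ((b - a) / 2)| * (sin m + sin m') := by positivity
      nlinarith
    have s6 : |π - (a + a')| ≤ 4 := by
      rw [abs_le]; constructor <;> linarith [ha.1, ha.2, ha'.1, ha'.2]
    have := abs_nonneg (π - (a + a'))
    nlinarith [sq_nonneg (b - a)]

theorem quartic_lemma {g L e2 e1 e0 s1 s2 T Γ : ℝ} (hT : 0 < T) (h1 : T ≤ |s1|) (h2 : T ≤ |s2|)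
    (g1 : |g * s1 ^ 4 + L * s1 ^ 3 + e2 * s1 ^ 2 + e1 * s1 + e0| ≤ Γ)
    (g2 : |g * s2 ^ 4 + L * s2 ^ 3 + e2 * s2 ^ 2 + e1 * s2 + e0| ≤ Γ) :
    |g| * |s2 - s1| ≤ 2 * Γ / T ^ 3
      + |s2 - s1| * (|e2| / T ^ 2 + 2 * |e1| / T ^ 3 + 3 * |e0| / T ^ 4) := by
  have n1 : s1 ≠ 0 := abs_pos.mp (by linarith)
  have n2 : s2 ≠ 0 := abs_pos.mp (by linarith)
  obtain ⟨x, hx⟩ : ∃ x, x = 1 / s1 := ⟨_, rfl⟩
  obtain ⟨y, hy⟩ : ∃ y, y = 1 / s2 := ⟨_, rfl⟩
  obtain ⟨t, ht⟩ : ∃ t, t = 1 / T := ⟨_, rfl⟩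
  have t0 : 0 < t := by rw [ht]; positivity
  have bx : |x| ≤ t := by
    rw [hx, ht, abs_div, abs_one]; exact one_div_le_one_div_of_le hT h1
  have by' : |y| ≤ t := by
    rw [hy, ht, abs_div, abs_one]; exact one_div_le_one_div_of_le hT h2
  have G0 : 0 ≤ Γ := (abs_nonneg _).trans g1
  have e : g * (s2 - s1) = (g * s2 ^ 4 + L * s2 ^ 3 + e2 * s2 ^ 2 + e1 * s2 + e0) * y ^ 3
      - (g * s1 ^ 4 + L * s1 ^ 3 + e2 * s1 ^ 2 + e1 * s1 + e0) * x ^ 3
      + (s2 - s1) * (e2 * (x * y) + e1 * (x * y * (x + y))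
        + e0 * (x * y * (x ^ 2 + x * y + y ^ 2))) := by
    rw [hx, hy]; field_simp; ring
  have b1 : |x * y| ≤ t ^ 2 := by rw [abs_mul, sq]; gcongr
  have b2 : |x * y * (x + y)| ≤ t ^ 2 * (2 * t) := by
    rw [abs_mul (x * y)]
    gcongr
    refine (abs_add_le _ _).trans ?_; linarith
  have b3 : |x * y * (x ^ 2 + x * y + y ^ 2)| ≤ t ^ 2 * (3 * t ^ 2) := by
    rw [abs_mul (x * y)]
    gcongr
    have x2 : |x ^ 2| ≤ t ^ 2 := by rw [abs_pow]; gcongr
    have y2 : |y ^ 2| ≤ t ^ 2 := by rw [abs_pow]; gcongr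
    refine (abs_add_le _ _).trans ((add_le_add_left (abs_add_le _ _) _).trans ?_)
    linarith
  have b4 : |e2 * (x * y) + e1 * (x * y * (x + y)) + e0 * (x * y * (x ^ 2 + x * y + y ^ 2))|
      ≤ |e2| * t ^ 2 + |e1| * (t ^ 2 * (2 * t)) + |e0| * (t ^ 2 * (3 * t ^ 2)) := by
    refine (abs_add_le _ _).trans ((add_le_add_left (abs_add_le _ _) _).trans ?_)
    rw [abs_mul e2, abs_mul e1, abs_mul e0]
    gcongr
  have b5 : |(g * s2 ^ 4 + L * s2 ^ 3 + e2 * s2 ^ 2 + e1 * s2 + e0) * y ^ 3| ≤ Γ * t ^ 3 := by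
    rw [abs_mul, abs_pow]; gcongr
  have b6 : |(g * s1 ^ 4 + L * s1 ^ 3 + e2 * s1 ^ 2 + e1 * s1 + e0) * x ^ 3| ≤ Γ * t ^ 3 := by
    rw [abs_mul, abs_pow]; gcongr
  have e2' : 2 * Γ / T ^ 3 + |s2 - s1| * (|e2| / T ^ 2 + 2 * |e1| / T ^ 3 + 3 * |e0| / T ^ 4)
      = Γ * t ^ 3 + Γ * t ^ 3 + |s2 - s1| * (|e2| * t ^ 2 + |e1| * (t ^ 2 * (2 * t))
        + |e0| * (t ^ 2 * (3 * t ^ 2))) := by
    rw [ht]; field_simp; ring
  rw [← abs_mul, e, e2']
  refine (abs_add_le _ _).trans (add_le_add ((abs_sub _ _).trans (add_le_add b5 b6)) ?_)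
  rw [abs_mul]
  gcongr

theorem sep_card {α : Type*} (S : Finset α) (x : α → ℝ) {l η : ℝ} (hη : 0 < η) (hl : 0 ≤ l)
    (h1 : ∀ a ∈ S, ∀ b ∈ S, |x b - x a| ≤ l)
    (h2 : ∀ a ∈ S, ∀ b ∈ S, a ≠ b → η ≤ |x b - x a|) : (S.card : ℝ) ≤ 2 * l / η + 1 := by
  rcases S.eq_empty_or_nonempty with rfl | ⟨a0, ha0⟩
  · simp; positivity
  have hc : S.card ≤ (Finset.range (⌊2 * l / η⌋₊ + 1)).card := by
    apply Finset.card_le_card_of_injOn (fun a => ⌊(x a - x a0 + l) / η⌋₊)
    · intro a ha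
      simp only [Finset.coe_range, Set.mem_Iio]
      apply Nat.lt_succ_of_le
      apply Nat.floor_le_floor
      have := (abs_le.mp (h1 a0 ha0 a ha)).2
      gcongr; linarith
    · intro a ha b hb hab
      by_contra hne
      have q1 := h2 a ha b hb hne
      have pa : 0 ≤ (x a - x a0 + l) / η :=
        div_nonneg (by linarith [(abs_le.mp (h1 a0 ha0 a ha)).1]) hη.le
      have pb : 0 ≤ (x b - x a0 + l) / η :=
        div_nonneg (by linarith [(abs_le.mp (h1 a0 ha0 b hb)).1]) hη.le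
      have f1 := Nat.floor_le pa
      have f2 := Nat.lt_floor_add_one ((x a - x a0 + l) / η)
      have f3 := Nat.floor_le pb
      have f4 := Nat.lt_floor_add_one ((x b - x a0 + l) / η)
      simp only at hab
      rw [hab] at f1 f2
      have q2 : |(x b - x a) / η| < 1 := by
        have : (x b - x a) / η = (x b - x a0 + l) / η - (x a - x a0 + l) / η := by ring
        rw [this, abs_lt]; constructor <;> linarith
      rw [abs_div, abs_of_pos hη, div_lt_one hη] at q2
      linarith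
  rw [Finset.card_range] at hc
  have : (S.card : ℝ) ≤ (⌊2 * l / η⌋₊ : ℝ) + 1 := by exact_mod_cast hc
  have f := Nat.floor_le (show 0 ≤ 2 * l / η by positivity)
  linarith

theorem harm_sum (M : ℕ) {x : ℝ} (h0 : 0 ≤ x) (hM : x ≤ M) :
    ∑ j ∈ Finset.range M, 1 / (|(j : ℝ) - x| + 1) ≤ 4 * (1 + log (M + 1)) := by
  obtain ⟨n, hn⟩ : ∃ n : ℕ, n = ⌊x⌋₊ := ⟨_, rfl⟩
  have n1 : (n : ℝ) ≤ x := by rw [hn]; exact Nat.floor_le h0
  have n2 : x < n + 1 := by rw [hn]; exact Nat.lt_floor_add_one x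
  have nM : n ≤ M := by exact_mod_cast n1.trans hM
  have s1 : ∑ j ∈ Finset.range M, 1 / (|(j : ℝ) - x| + 1)
      ≤ ∑ j ∈ Finset.range M, 2 / ((((j : ℤ) - n).natAbs : ℝ) + 1) := by
    apply Finset.sum_le_sum
    intro j _
    have e : ((((j : ℤ) - n).natAbs : ℕ) : ℝ) = |(j : ℝ) - n| := by
      rw [Nat.cast_natAbs]; push_cast; rfl
    rw [e, div_le_div_iff₀ (by positivity) (by positivity)]
    have : |(j : ℝ) - n| ≤ |(j : ℝ) - x| + |x - n| := abs_sub_le _ _ _
    have h2 : |x - n| ≤ 1 := by rw [abs_le]; constructor <;> linarith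
    have := abs_nonneg ((j : ℝ) - x)
    linarith
  have s2 : ∑ j ∈ Finset.range M, 2 / ((((j : ℤ) - n).natAbs : ℝ) + 1)
      ≤ ∑ t ∈ Finset.range (M + 1), 2 * (2 / ((t : ℝ) + 1)) := by
    rw [← Finset.sum_fiberwise_of_maps_to (t := Finset.range (M + 1))
      (g := fun j : ℕ => ((j : ℤ) - n).natAbs) (by
        intro j hj
        simp only [Finset.mem_range] at hj ⊢
        omega)]
    apply Finset.sum_le_sum
    intro t _
    rw [Finset.sum_congr rfl (g := fun _ => 2 / ((t : ℝ) + 1)) (by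
      intro j hj
      rw [(Finset.mem_filter.mp hj).2]), Finset.sum_const, nsmul_eq_mul]
    gcongr
    have : ((Finset.range M).filter fun j : ℕ => ((j : ℤ) - n).natAbs = t) ⊆ {n + t, n - t} := by
      intro j hj
      have := (Finset.mem_filter.mp hj).2
      simp only [Finset.mem_insert, Finset.mem_singleton]
      omega
    exact_mod_cast (Finset.card_le_card this).trans Finset.card_le_two
  have s3 : ∑ t ∈ Finset.range (M + 1), 2 * (2 / ((t : ℝ) + 1)) = 4 * (harmonic (M + 1) : ℝ) := by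
    unfold harmonic
    push_cast
    rw [Finset.mul_sum]
    apply Finset.sum_congr rfl
    intro t _
    ring
  have s4 := harmonic_le_one_add_log (M + 1)
  push_cast at s4
  linarith

theorem geom_sqrt (n : ℕ) : ∑ i ∈ Finset.range (n + 1), √((2 : ℝ) ^ i) ≤ 4 * √((2 : ℝ) ^ n) := by
  induction n with
  | zero => simp
  | succ n ih =>
    rw [Finset.sum_range_succ]
    have e : √((2 : ℝ) ^ (n + 1)) = √((2 : ℝ) ^ n) * √2 := by
      rw [pow_succ, sqrt_mul (by positivity)]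
    have h2 : 4 / 3 ≤ √2 := le_sqrt_of_sq_le (by norm_num)
    have h3 := sqrt_nonneg ((2 : ℝ) ^ n)
    rw [e]
    nlinarith

end Pool.Agent.P.MP_858e15_gt
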