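import Pool.Agent.P.MP_858e15_gt.Compare
import Pool.Agent.P.MP_858e15_gt.Real1
import Pool.Agent.P.MP_858e15_gt.Lattice

namespace Pool.Agent.P.MP_858e15_gt

open Real

noncomputable def ang (p q : ℤ) : ℝ := arccos (p / √((p : ℝ) ^ 2 + 12 * (q : ℝ) ^ 2))

noncomputable def fold (x : ℝ) : ℝ := if x ≤ π / 4 then 4 * x else 2 * π - 4 * x

theorem ang_facts {p q : ℤ} (hp : 0 ≤ p) (hq : 0 ≤ q) {n : ℝ} (hn : n = (p : ℝ) ^ 2 + 12 * (q : ℝ) ^ 2)
    (h : 0 < n) : 0 ≤ ang p q ∧ ang p q ≤ π / 2 ∧ √n * cos (ang p q) = p ∧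
      √n * sin (ang p q) = 2 * s3 * q ∧ cos (fold (ang p q)) = c4 p q ∧
      fold (ang p q) ∈ Set.Icc 0 π := by
  have hp' : (0 : ℝ) ≤ p := by exact_mod_cast hp
  have hq' : (0 : ℝ) ≤ q := by exact_mod_cast hq
  have sn : 0 < √n := sqrt_pos.mpr h
  have sn2 : √n ^ 2 = n := sq_sqrt h.le
  have x0 : 0 ≤ (p : ℝ) / √n := by positivity
  have x1 : (p : ℝ) / √n ≤ 1 := by
    rw [div_le_one sn]
    apply le_sqrt_of_sq_le; nlinarith [sq_nonneg (q : ℝ)]
  have a0 : 0 ≤ ang p q := arccos_nonneg _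
  have a1 : ang p q ≤ π / 2 := by unfold ang; rw [← hn]; exact arccos_le_pi_div_two.mpr x0
  have hc : √n * cos (ang p q) = p := by
    unfold ang; rw [← hn, cos_arccos (by linarith) x1]; field_simp
  have s0 := s3_pos
  have hs : √n * sin (ang p q) = 2 * s3 * q := by
    have h1 : 0 ≤ sin (ang p q) := sin_nonneg_of_nonneg_of_le_pi a0 (by linarith [pi_pos])
    rw [← sq_eq_sq₀ (by positivity) (by positivity)]
    have := sin_sq_add_cos_sq (ang p q)
    have e : (√n * cos (ang p q)) ^ 2 = (p : ℝ) ^ 2 := by rw [hc]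
    linear_combination (√n ^ 2) * this - e + sn2 + hn - 4 * (q : ℝ) ^ 2 * s3_sq
  refine ⟨a0, a1, hc, hs, ?_, ?_⟩
  · have e1 : cos (fold (ang p q)) = cos (4 * ang p q) := by
      unfold fold
      split_ifs
      · rfl
      · rw [cos_two_pi_sub]
    have e2 : cos (4 * ang p q) = 1 - 8 * (sin (ang p q) * cos (ang p q)) ^ 2 := by
      rw [show 4 * ang p q = 2 * (2 * ang p q) by ring, cos_two_mul, cos_sq', sin_two_mul]; ring
    have e3 : n * (sin (ang p q) * cos (ang p q)) = 2 * s3 * q * p := by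
      rw [← hs, ← hc]; linear_combination (-(sin (ang p q) * cos (ang p q))) * sn2
    have e4 : sin (ang p q) * cos (ang p q) = 2 * s3 * q * p / n := by
      rw [← e3]; field_simp
    rw [e1, e2, e4]
    unfold c4
    rw [← hn]
    field_simp
    linear_combination (-32 * (q : ℝ) ^ 2 * (p : ℝ) ^ 2) * s3_sq
  · unfold fold
    split_ifs with h4
    · constructor <;> linarith
    · push Not at h4; constructor <;> linarith

theorem fold_diff {x y : ℝ} (h : decide (x ≤ π / 4) = decide (y ≤ π / 4)) :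
    |fold x - fold y| = 4 * |x - y| := by
  have h' : x ≤ π / 4 ↔ y ≤ π / 4 := by simpa using h
  unfold fold
  by_cases hx : x ≤ π / 4
  · rw [if_pos hx, if_pos (h'.mp hx), ← mul_sub, abs_mul]; norm_num
  · rw [if_neg hx, if_neg (fun hy => hx (h'.mpr hy)),
      show 2 * π - 4 * x - (2 * π - 4 * y) = -4 * (x - y) by ring, abs_mul]
    norm_num

theorem two_vec {p q r s : ℤ} (hp : 0 ≤ p) (hq : 0 ≤ q) (hr : 0 ≤ r) (hs : 0 ≤ s) {n m : ℝ}
    (hn : n = (p : ℝ) ^ 2 + 12 * (q : ℝ) ^ 2) (hm : m = (r : ℝ) ^ 2 + 12 * (s : ℝ) ^ 2)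
    (n0 : 0 < n) (m0 : 0 < m) :
    (p : ℝ) * r + 12 * (q * s) = √n * √m * cos (ang p q - ang r s) ∧
      12 * ((p : ℝ) * s - q * r) ^ 2 = n * m * sin (ang p q - ang r s) ^ 2 := by
  obtain ⟨-, -, a1, a2, -, -⟩ := ang_facts hp hq hn n0
  obtain ⟨-, -, b1, b2, -, -⟩ := ang_facts hr hs hm m0
  constructor
  · have : √n * √m * cos (ang p q - ang r s) = (√n * cos (ang p q)) * (√m * cos (ang r s))
        + (√n * sin (ang p q)) * (√m * sin (ang r s)) := by rw [cos_sub]; ring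
    rw [this, a1, a2, b1, b2]
    linear_combination (-4 * (q : ℝ) * s) * s3_sq
  · have : n * m * sin (ang p q - ang r s) ^ 2 = ((√n * sin (ang p q)) * (√m * cos (ang r s))
        - (√n * cos (ang p q)) * (√m * sin (ang r s))) ^ 2 := by
      rw [sin_sub]
      conv_lhs => rw [← sq_sqrt n0.le, ← sq_sqrt m0.le]
      ring
    rw [this, a1, a2, b1, b2]
    linear_combination (-4 * ((p : ℝ) * s - q * r) ^ 2) * s3_sq

def Near (k : ℤ) (c K Y : ℝ) (P : V) : Prop :=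
  (∀ i, 0 ≤ P i) ∧ NN' P = NN P + k ∧ Y ≤ NN P ∧ (NN P : ℝ) ≤ 2 * Y ∧
    |c4 (P 0) (P 1) - c4 (P 2) (P 3) - c| ≤ K / Y

noncomputable def th (P : V) : ℝ := ang (P 0) (P 1)

noncomputable def th' (P : V) : ℝ := ang (P 2) (P 3)

noncomputable def lab (Y : ℝ) (P : V) : (Bool × Bool) × ℕ :=
  ((decide (th P ≤ π / 4), decide (th' P ≤ π / 4)), ⌊√Y * (fold (th P) + fold (th' P))⌋₊)

theorem NN_cast (P : V) : (NN P : ℝ) = (P 0 : ℝ) ^ 2 + 12 * (P 1 : ℝ) ^ 2 := by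
  unfold NN; push_cast; ring

theorem NN'_cast (P : V) : (NN' P : ℝ) = (P 2 : ℝ) ^ 2 + 12 * (P 3 : ℝ) ^ 2 := by
  unfold NN'; push_cast; ring

theorem near_basic {k : ℤ} {c K Y : ℝ} {P : V} (hk : |k| ≤ 13) (hY : 40 ≤ Y) (h : Near k c K Y P) :
    (NN' P : ℝ) = NN P + k ∧ Y / 2 ≤ NN' P ∧ (NN' P : ℝ) ≤ 3 * Y ∧
    fold (th P) ∈ Set.Icc 0 π ∧ fold (th' P) ∈ Set.Icc 0 π ∧
    |cos (fold (th P)) - cos (fold (th' P)) - c| ≤ K / Y ∧
    th P ∈ Set.Icc 0 (π / 2) ∧ th' P ∈ Set.Icc 0 (π / 2) := by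
  obtain ⟨h0, h1, h2, h3, h4⟩ := h
  have e : (NN' P : ℝ) = NN P + k := by exact_mod_cast h1
  have k1 : (-13 : ℝ) ≤ k := by exact_mod_cast (abs_le.mp hk).1
  have k2 : (k : ℝ) ≤ 13 := by exact_mod_cast (abs_le.mp hk).2
  obtain ⟨a1, a2, -, -, a5, a6⟩ := ang_facts (h0 0) (h0 1) (NN_cast P) (by linarith)
  obtain ⟨b1, b2, -, -, b5, b6⟩ := ang_facts (h0 2) (h0 3) (NN'_cast P) (by linarith)
  refine ⟨e, by linarith, by linarith, a6, b6, ?_, ⟨a1, a2⟩, ⟨b1, b2⟩⟩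
  unfold th th'
  rw [a5, b5]; exact h4

theorem lab_mem {k : ℤ} {c K Y : ℝ} {P : V} (hk : |k| ≤ 13) (hY : 40 ≤ Y) (h : Near k c K Y P) :
    lab Y P ∈ (Finset.univ : Finset (Bool × Bool)) ×ˢ Finset.range (⌊7 * √Y⌋₊ + 1) := by
  obtain ⟨-, -, -, a, b, -⟩ := near_basic hk hY h
  simp only [Finset.mem_product, Finset.mem_univ, true_and, Finset.mem_range, lab]
  apply Nat.lt_succ_of_le
  apply Nat.floor_le_floor
  have := sqrt_nonneg Y
  nlinarith [a.2, b.2, pi_lt_d2]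

theorem same_lab {k : ℤ} {c K Y : ℝ} {P Q : V} (hk : |k| ≤ 13) (hY : 40 ≤ Y)
    (hP : Near k c K Y P) (hQ : Near k c K Y Q) (h : lab Y P = lab Y Q) :
    (fold (th P) - fold (th Q)) ^ 2 ≤ (1 + 10 * K) / Y ∧
    (fold (th' P) - fold (th' Q)) ^ 2 ≤ (1 + 10 * K) / Y ∧
    |fold (th P) - fold (th Q)| = 4 * |th P - th Q| ∧
    |fold (th' P) - fold (th' Q)| = 4 * |th' P - th' Q| := by
  obtain ⟨-, -, -, a1, a2, a3, -⟩ := near_basic hk hY hP
  obtain ⟨-, -, -, b1, b2, b3, -⟩ := near_basic hk hY hQ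
  simp only [lab, Prod.mk.injEq] at h
  obtain ⟨⟨e1, e2⟩, e3⟩ := h
  have Y0 : 0 < Y := by linarith
  have sY : 0 < √Y := sqrt_pos.mpr Y0
  have f1 := Nat.floor_le (show 0 ≤ √Y * (fold (th P) + fold (th' P)) by
    have := a1.1; have := a2.1; positivity)
  have f2 := Nat.lt_floor_add_one (√Y * (fold (th P) + fold (th' P)))
  have f3 := Nat.floor_le (show 0 ≤ √Y * (fold (th Q) + fold (th' Q)) by
    have := b1.1; have := b2.1; positivity)
  have f4 := Nat.lt_floor_add_one (√Y * (fold (th Q) + fold (th' Q)))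
  rw [e3] at f1 f2
  have h3 : |(fold (th P) + fold (th' P)) - (fold (th Q) + fold (th' Q))| ≤ 1 / √Y := by
    rw [le_div_iff₀ sY, ← abs_of_pos sY, ← abs_mul, abs_le]
    constructor <;> nlinarith
  have := box_lemma a1 b1 a2 b2 a3 b3 h3
  have e : (1 / √Y) ^ 2 + 10 * (K / Y) = (1 + 10 * K) / Y := by
    rw [div_pow, sq_sqrt Y0.le]; ring
  rw [e] at this
  exact ⟨this.1, this.2, fold_diff e1, fold_diff e2⟩

theorem gram {k : ℤ} {c K Y : ℝ} {P Q : V} (hk : |k| ≤ 13) (hY : 40 ≤ Y) (hK : 0 ≤ K)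
    (hP : Near k c K Y P) (hQ : Near k c K Y Q) (h : lab Y P = lab Y Q) :
    |(BB P Q : ℝ)| ≤ 2 * K + 60 ∧ 12 * (ii P Q : ℝ) ^ 2 ≤ (1 + 10 * K) * Y ∧
      12 * (ii' P Q : ℝ) ^ 2 ≤ (1 + 10 * K) * Y := by
  obtain ⟨s1, s2, s3', s4⟩ := same_lab hk hY hP hQ h
  obtain ⟨a1, a2, a3, -⟩ := near_basic hk hY hP
  obtain ⟨b1, b2, b3, -⟩ := near_basic hk hY hQ
  obtain ⟨p0, -, p2, p3, -⟩ := hP
  obtain ⟨q0, -, q2, q3, -⟩ := hQ
  have Y0 : 0 < Y := by linarith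
  have k1 : (-13 : ℝ) ≤ k := by exact_mod_cast (abs_le.mp hk).1
  have k2 : (k : ℝ) ≤ 13 := by exact_mod_cast (abs_le.mp hk).2
  obtain ⟨t1, t2⟩ := two_vec (p0 0) (p0 1) (q0 0) (q0 1) (NN_cast P) (NN_cast Q) (by linarith)
    (by linarith)
  obtain ⟨t3, t4⟩ := two_vec (p0 2) (p0 3) (q0 2) (q0 3) (NN'_cast P) (NN'_cast Q) (by linarith)
    (by linarith)
  change _ = _ * cos (th P - th Q) at t1
  change _ = _ * sin (th P - th Q) ^ 2 at t2
  change _ = _ * cos (th' P - th' Q) at t3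
  change _ = _ * sin (th' P - th' Q) ^ 2 at t4
  obtain ⟨W, hW⟩ : ∃ W, W = (1 + 10 * K) / Y := ⟨_, rfl⟩
  have hWY : W * Y = 1 + 10 * K := by rw [hW]; field_simp
  rw [← hW] at s1 s2
  have d1 : 16 * (th P - th Q) ^ 2 ≤ W := by
    rw [← sq_abs, s3', mul_pow, sq_abs] at s1; linarith
  have d2 : 16 * (th' P - th' Q) ^ 2 ≤ W := by
    rw [← sq_abs, s4, mul_pow, sq_abs] at s2; linarith
  generalize th P - th Q = x at *
  generalize th' P - th' Q = y at *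
  generalize (NN P : ℝ) = n at *
  generalize (NN Q : ℝ) = m at *
  generalize (NN' P : ℝ) = n' at *
  generalize (NN' Q : ℝ) = m' at *
  have W0 : 0 ≤ W := by nlinarith [sq_nonneg x]
  refine ⟨?_, ?_, ?_⟩
  · have e : (BB P Q : ℝ) = √n' * √m' * cos y - √n * √m * cos x := by
      unfold BB; push_cast; rw [t1, t3]
    rw [e, ← sqrt_mul (by linarith), ← sqrt_mul (by linarith)]
    obtain ⟨A, hA⟩ : ∃ A, A = √(n' * m') := ⟨_, rfl⟩
    obtain ⟨B, hB⟩ : ∃ B, B = √(n * m) := ⟨_, rfl⟩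
    rw [← hA, ← hB]
    have A2 : A ^ 2 = n' * m' := by rw [hA]; exact sq_sqrt (by apply mul_nonneg <;> linarith)
    have B2 : B ^ 2 = n * m := by rw [hB]; exact sq_sqrt (by apply mul_nonneg <;> linarith)
    have A0 : 0 ≤ A := by rw [hA]; exact sqrt_nonneg _
    have A3 : A ≤ 3 * Y := by
      rw [hA]; apply sqrt_le_iff.mpr ⟨by linarith, _⟩; nlinarith
    have B1 : Y ≤ B := by rw [hB]; apply le_sqrt_of_sq_le; nlinarith
    have B3 : B ≤ 2 * Y := by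
      rw [hB]; apply sqrt_le_iff.mpr ⟨by linarith, _⟩; nlinarith
    have AB : |A - B| ≤ 57 := by
      have e1 : (A - B) * (A + B) = k * (n + m + k) := by
        rw [a1, b1] at A2; linear_combination A2 - B2
      have e2 : |A - B| * (A + B) ≤ 13 * (4 * Y + 13) := by
        rw [← abs_of_pos (a := A + B) (by linarith), ← abs_mul, e1, abs_mul]
        exact mul_le_mul (abs_le.mpr ⟨k1, k2⟩) (abs_le.mpr ⟨by linarith, by linarith⟩)
          (abs_nonneg _) (by norm_num)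
      by_contra hc
      push Not at hc
      nlinarith
    have c1 := one_sub_sq_div_two_le_cos (x := x)
    have c2 := one_sub_sq_div_two_le_cos (x := y)
    have c3 := cos_le_one x
    have c4' := cos_le_one y
    have u1 : A * (1 - cos y) ≤ 3 * Y * (W / 32) :=
      mul_le_mul A3 (by linarith) (by linarith) (by linarith)
    have u2 : B * (1 - cos x) ≤ 2 * Y * (W / 32) :=
      mul_le_mul B3 (by linarith) (by linarith) (by linarith)
    have u3 : 0 ≤ A * (1 - cos y) := mul_nonneg A0 (by linarith)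
    have u4 : 0 ≤ B * (1 - cos x) := mul_nonneg (by linarith) (by linarith)
    obtain ⟨AB1, AB2⟩ := abs_le.mp AB
    rw [abs_le]
    constructor <;> nlinarith
  · have e : (ii P Q : ℝ) = (P 0 : ℝ) * Q 1 - P 1 * Q 0 := by unfold ii; push_cast; ring
    rw [e, t2, ← hWY]
    have := sin_sq_le_sq (x := x)
    calc n * m * sin x ^ 2 ≤ (2 * Y) * (2 * Y) * (W / 16) := by gcongr <;> linarith
      _ ≤ W * Y * Y := by nlinarith [mul_nonneg W0 (sq_nonneg Y)]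
  · have e : (ii' P Q : ℝ) = (P 2 : ℝ) * Q 3 - P 3 * Q 2 := by unfold ii'; push_cast; ring
    rw [e, t4, ← hWY]
    have := sin_sq_le_sq (x := y)
    calc n' * m' * sin y ^ 2 ≤ (3 * Y) * (3 * Y) * (W / 16) := by gcongr <;> linarith
      _ ≤ W * Y * Y := by nlinarith [mul_nonneg W0 (sq_nonneg Y)]

end Pool.Agent.P.MP_858e15_gt
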