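import Pool.Agent.P.MP_858e15_gt.Expand

namespace Pool.Agent.P.MP_858e15_gt

theorem pi_sq_bounds : 9.8 < Real.pi ^ 2 ∧ Real.pi ^ 2 < 9.9 := by
  have h1 := Real.pi_gt_d2
  have h2 := Real.pi_lt_d4
  constructor <;> nlinarith

theorem MM_split (n k : ℝ) (hk : |k| ≤ 1) : ∃ a b : ℝ, a = 2 * Real.pi ^ 2 / 3 * (2 * k ^ 2 - 1) ∧
    |a| ≤ 6.6 ∧ |b| ≤ 2000 ∧ MM n k = -1 / n + a / n ^ 2 - b / n ^ 3 := by
  obtain ⟨p1, p2⟩ := pi_sq_bounds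
  obtain ⟨k1, k2⟩ := abs_le.mp hk
  have k3 : k ^ 2 ≤ 1 := by nlinarith
  have k4 : 0 ≤ k ^ 2 := sq_nonneg k
  refine ⟨_, 32 * Real.pi ^ 4 * (-7 / 1080 * (4 * k ^ 3 - 3 * k) + (8 * k ^ 4 - 8 * k ^ 2 + 1) / 36),
    rfl, ?_, ?_, rfl⟩
  · rw [abs_le]; constructor <;> nlinarith
  · have q1 : Real.pi ^ 4 ≤ 100 := by nlinarith
    have q0 : 0 ≤ Real.pi ^ 4 := by positivity
    have c1 : -1 ≤ k ^ 3 ∧ k ^ 3 ≤ 1 := by
      have := abs_le.mp (show |k ^ 3| ≤ 1 by rw [abs_pow]; exact pow_le_one₀ (abs_nonneg _) hk)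
      exact this
    have c2 : 0 ≤ k ^ 4 ∧ k ^ 4 ≤ 1 := ⟨by positivity, by nlinarith⟩
    have : |-7 / 1080 * (4 * k ^ 3 - 3 * k) + (8 * k ^ 4 - 8 * k ^ 2 + 1) / 36| ≤ 1 / 2 := by
      rw [abs_le]; constructor <;> linarith [c1.1, c1.2, c2.1, c2.2]
    rw [abs_mul, abs_of_nonneg (by positivity)]
    nlinarith [abs_nonneg (-7 / 1080 * (4 * k ^ 3 - 3 * k) + (8 * k ^ 4 - 8 * k ^ 2 + 1) / 36)]

theorem gap_lt {n m a a' D : ℝ} (hD : 0 < D) (hn : 40 * (D + 10) ≤ n) (ha : |a| ≤ 6.6)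
    (ha' : |a'| ≤ 6.6) (h : |1 / m - 1 / n + a / n ^ 2 - a' / m ^ 2| ≤ D / n ^ 3 + D / m ^ 3) :
    m < n + 14 := by
  by_contra hc
  push Not at hc
  have n0 : 0 < n := by linarith
  have m0 : 0 < m := by linarith
  have nm : n ≤ m := by linarith
  have h1 : 1 / m ≤ 1 / (n + 14) := one_div_le_one_div_of_le (by linarith) hc
  have h2 : a / n ^ 2 ≤ 6.6 / n ^ 2 := by gcongr; exact (abs_le.mp ha).2
  have h3 : -a' / m ^ 2 ≤ 6.6 / n ^ 2 := by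
    calc _ ≤ 6.6 / m ^ 2 := by gcongr; linarith [(abs_le.mp ha').1]
      _ ≤ _ := by gcongr
  have h4 : D / m ^ 3 ≤ D / n ^ 3 := by gcongr
  have h5 := (abs_le.mp h).1
  have h6 : 1 / n - 1 / (n + 14) ≤ 2 * (6.6 / n ^ 2) + 2 * (D / n ^ 3) := by
    rw [neg_div] at h3; linarith
  have e1 : 1 / n - 1 / (n + 14) = 14 * n ^ 2 / (n ^ 3 * (n + 14)) := by field_simp; ring
  have e2 : 2 * (6.6 / n ^ 2) + 2 * (D / n ^ 3) = (13.2 * n + 2 * D) * (n + 14) / (n ^ 3 * (n + 14)) := by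
    field_simp; ring
  rw [e1, e2, div_le_div_iff_of_pos_right (by positivity)] at h6
  nlinarith

theorem near_of {n m a a' D : ℝ} (hD : 0 < D) (hn : 40 ≤ n) (hm : |m - n| ≤ 14)
    (ha' : |a'| ≤ 6.6) (h : |1 / m - 1 / n + a / n ^ 2 - a' / m ^ 2| ≤ D / n ^ 3 + D / m ^ 3) :
    |a - a' - (m - n)| ≤ (9 * D + 1000) / n := by
  obtain ⟨m1, m2⟩ := abs_le.mp hm
  have n0 : 0 < n := by linarith
  have m0 : 0 < m := by linarith
  have e : a - a' - (m - n) = n ^ 2 * (1 / m - 1 / n + a / n ^ 2 - a' / m ^ 2)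
      - (m - n) * ((m - n) / m) - a' * ((m - n) / m) * (n / m + 1) := by
    field_simp; ring
  have b0 : 1 / m ≤ 2 / n := by rw [div_le_div_iff₀ m0 n0]; linarith
  have b1 : |(m - n) / m| ≤ 28 / n := by
    rw [abs_div, abs_of_pos m0, div_eq_mul_one_div]
    calc _ ≤ 14 * (2 / n) := by gcongr
      _ = _ := by ring
  have b2 : |n / m + 1| ≤ 3 := by
    rw [abs_of_pos (by positivity)]
    have : n / m ≤ 2 := by rw [div_le_iff₀ m0]; linarith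
    linarith
  have b3 : D / m ^ 3 ≤ 8 * D / n ^ 3 := by
    calc D / m ^ 3 = D * (1 / m) ^ 3 := by field_simp
      _ ≤ D * (2 / n) ^ 3 := by gcongr
      _ = _ := by field_simp; norm_num
  have t1 : |n ^ 2 * (1 / m - 1 / n + a / n ^ 2 - a' / m ^ 2)| ≤ 9 * D / n := by
    rw [abs_mul, abs_of_pos (by positivity)]
    calc _ ≤ n ^ 2 * (D / n ^ 3 + 8 * D / n ^ 3) := by gcongr; linarith
      _ = _ := by field_simp; norm_num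
  have t2 : |(m - n) * ((m - n) / m)| ≤ 14 * (28 / n) := by rw [abs_mul]; gcongr
  have t3 : |a' * ((m - n) / m) * (n / m + 1)| ≤ 6.6 * (28 / n) * 3 := by
    rw [abs_mul, abs_mul]; gcongr
  rw [e]
  refine (abs_sub _ _).trans ?_
  refine (add_le_add_left (abs_sub _ _) _).trans ?_
  have e3 : (9 * D + 1000) / n = 9 * D / n + 1000 * (1 / n) := by ring
  have e4 : (28 : ℝ) / n = 28 * (1 / n) := by ring
  have : 0 < 1 / n := by positivity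
  rw [e3]; rw [e4] at t2 t3
  linarith

theorem sq_le_diff {x y : ℤ} (h : x ^ 2 ≠ y ^ 2) : x ^ 2 ≤ (x ^ 2 - y ^ 2) ^ 2 := by
  have h1 : x - y ≠ 0 := fun h0 => h (by rw [sub_eq_zero.mp h0])
  have h2 : x + y ≠ 0 := fun h0 => h (by rw [eq_neg_of_add_eq_zero_left h0]; ring)
  have a1 : 1 ≤ (x - y) ^ 2 := by
    have := sq_pos_of_ne_zero h1; omega
  have a2 : 1 ≤ (x + y) ^ 2 := by
    have := sq_pos_of_ne_zero h2; omega
  have e : (x ^ 2 - y ^ 2) ^ 2 = (x - y) ^ 2 * (x + y) ^ 2 := by ring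
  rw [e]
  nlinarith [sq_nonneg y]

theorem not_twelve {x y : ℤ} (h : x ^ 2 = 12 * y ^ 2) : y = 0 := by
  by_contra hy
  have h3 : Irrational (√3) := by simpa using (Nat.prime_three).irrational_sqrt
  apply h3
  refine ⟨|(x : ℚ) / (2 * y)|, ?_⟩
  have hy' : (y : ℝ) ≠ 0 := by exact_mod_cast hy
  have h' : (x : ℝ) ^ 2 = 12 * (y : ℝ) ^ 2 := by exact_mod_cast h
  push_cast
  rw [← Real.sqrt_sq_eq_abs]
  congr 1
  field_simp
  linarith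

theorem pell_b {a b : ℤ} (h : a ^ 2 - 12 * b ^ 2 = 1) (hb : b ≠ 0) : 2 ≤ |b| := by
  by_contra hc
  have h1 : 0 < |b| := abs_pos.mpr hb
  have h2 : |b| = 1 := by omega
  have h3 : b ^ 2 = 1 := by rw [← sq_abs, h2]; norm_num
  have h4 : |a| ^ 2 = 13 := by rw [sq_abs]; omega
  have h5 := abs_nonneg a
  rcases le_or_gt |a| 3 with h6 | h6 <;> nlinarith

theorem pell_case {p q p' q' : ℤ} (h1 : p ^ 2 - 12 * q' ^ 2 = 1) (h2 : p' ^ 2 - 12 * q ^ 2 = 1)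
    (hd : q ^ 2 ≠ q' ^ 2) : 192 * (p ^ 2 * q ^ 2) ≤ (p ^ 2 + 12 * q ^ 2) ^ 2 := by
  have e : (p * q - p' * q') * (p * q + p' * q') = q ^ 2 - q' ^ 2 := by
    linear_combination q ^ 2 * h1 - q' ^ 2 * h2
  have ne : (p * q - p' * q') * (p * q + p' * q') ≠ 0 := by rw [e]; exact sub_ne_zero.mpr hd
  have b1 : 2 ≤ |p * q - p' * q'| := pell_b (a := p * p' - 12 * q * q')
    (by linear_combination (p' ^ 2 - 12 * q ^ 2) * h1 + h2) (left_ne_zero_of_mul ne)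
  have b2 : 2 ≤ |p * q + p' * q'| := pell_b (a := p * p' + 12 * q * q')
    (by linear_combination (p' ^ 2 - 12 * q ^ 2) * h1 + h2) (right_ne_zero_of_mul ne)
  have b3 : |2 * (p * q)| ≤ |p * q - p' * q'| + |p * q + p' * q'| := by
    refine le_trans (le_of_eq ?_) (abs_add_le _ _)
    congr 1; ring
  have b4 : |2 * (p * q)| ≤ |q ^ 2 - q' ^ 2| := by
    rw [← e, abs_mul (p * q - p' * q')]
    nlinarith
  have b5 : (2 * (p * q)) ^ 2 ≤ (q ^ 2 - q' ^ 2) ^ 2 := sq_le_sq.mpr b4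
  have e2 : p ^ 2 + 12 * q ^ 2 = 12 * (q ^ 2 + q' ^ 2) + 1 := by linarith
  rw [e2]
  nlinarith [sq_nonneg q, sq_nonneg q', mul_nonneg (sq_nonneg q) (sq_nonneg q'),
    mul_nonneg (sq_nonneg p) (sq_nonneg q)]

theorem same_real {n k k' E d C : ℝ} (hC : 0 < C) (hn : 10000 ≤ n) (hk : |k| ≤ 1) (hk' : |k'| ≤ 1)
    (hs : k + k' = 2 * E / n) (hd : k - k' = 24 * d / n) (hdC : C ≤ |d|)
    (h : |MM n k - MM n k'| ≤ 2 * (C / n ^ 4)) :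
    |E - 7 * Real.pi ^ 2 / 90 * (3 - 4 * k ^ 2)| ≤ 1 / 10 := by
  obtain ⟨p1, p2⟩ := pi_sq_bounds
  have n0 : 0 < n := by linarith
  have d0 : 0 < |d| := by linarith
  set w := 12 * Real.pi ^ 2 * (-7 / 1080 * (4 * k') + 2 / 9 * (k ^ 2 + k' ^ 2 - 1)) with hw
  have e : MM n k - MM n k' = d * (64 * Real.pi ^ 2 / n ^ 4)
      * (E - 7 * Real.pi ^ 2 / 90 * (3 - 4 * k ^ 2) - 2 * E / n * w) := by
    have e1 : MM n k - MM n k' = (k - k') * (4 * Real.pi ^ 2 / 3 * (k + k') / n ^ 2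
        - 32 * Real.pi ^ 4 * (-7 / 1080 * (4 * k ^ 2 - 3)
          + (k + k') * (-7 / 1080 * (4 * k') + 2 / 9 * (k ^ 2 + k' ^ 2 - 1))) / n ^ 3) := by
      unfold MM; ring
    rw [e1, hs, hd, hw]
    field_simp
    ring
  rw [e, abs_mul, abs_mul, abs_of_pos (a := 64 * Real.pi ^ 2 / n ^ 4) (by positivity)] at h
  set X := |E - 7 * Real.pi ^ 2 / 90 * (3 - 4 * k ^ 2) - 2 * E / n * w| with hX
  have X0 : 0 ≤ X := abs_nonneg _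
  have hX1 : X ≤ 1 / 100 := by
    have h1 : |d| * (64 * Real.pi ^ 2) * X ≤ 2 * C := by
      have := mul_le_mul_of_nonneg_right h (show 0 ≤ n ^ 4 by positivity)
      have e1 : |d| * (64 * Real.pi ^ 2 / n ^ 4) * X * n ^ 4 = |d| * (64 * Real.pi ^ 2) * X := by
        field_simp
      have e2 : 2 * (C / n ^ 4) * n ^ 4 = 2 * C := by field_simp
      rwa [e1, e2] at this
    have h2 : C * 200 * X ≤ |d| * (64 * Real.pi ^ 2) * X := by gcongr; linarith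
    nlinarith
  obtain ⟨k1, k2⟩ := abs_le.mp hk
  obtain ⟨k1', k2'⟩ := abs_le.mp hk'
  have k3 : k ^ 2 ≤ 1 := by nlinarith
  have k3' : k' ^ 2 ≤ 1 := by nlinarith
  have k4 := sq_nonneg k
  have k4' := sq_nonneg k'
  have hw1 : |w| ≤ 36 := by
    rw [hw, abs_mul, abs_of_pos (by positivity)]
    have : |-7 / 1080 * (4 * k') + 2 / 9 * (k ^ 2 + k' ^ 2 - 1)| ≤ 3 / 10 := by
      rw [abs_le]; constructor <;> linarith
    nlinarith [abs_nonneg (-7 / 1080 * (4 * k') + 2 / 9 * (k ^ 2 + k' ^ 2 - 1))]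
  have hY : |7 * Real.pi ^ 2 / 90 * (3 - 4 * k ^ 2)| ≤ 3 := by
    rw [abs_le]; constructor <;> nlinarith
  have hZ : |2 * E / n * w| ≤ |E| / 100 := by
    rw [abs_mul, abs_div, abs_mul, abs_two, abs_of_pos n0]
    have := abs_nonneg E
    calc _ ≤ 2 * |E| / 10000 * 36 := by gcongr
      _ ≤ _ := by linarith
  have t1 : |E - 7 * Real.pi ^ 2 / 90 * (3 - 4 * k ^ 2)| ≤ X + |2 * E / n * w| := by
    refine le_trans (le_of_eq ?_) (abs_add_le _ _)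
    congr 1; ring
  have t2 : |E| ≤ |E - 7 * Real.pi ^ 2 / 90 * (3 - 4 * k ^ 2)|
      + |7 * Real.pi ^ 2 / 90 * (3 - 4 * k ^ 2)| := by
    refine le_trans (le_of_eq ?_) (abs_add_le _ _)
    congr 1; ring
  linarith

theorem kap_le {p q : ℝ} (h : 0 < p ^ 2 + 12 * q ^ 2) :
    |(p ^ 2 - 12 * q ^ 2) / (p ^ 2 + 12 * q ^ 2)| ≤ 1 := by
  rw [abs_div, abs_of_pos h, div_le_one h, abs_le]
  constructor <;> nlinarith [sq_nonneg p, sq_nonneg q]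

theorem same_norm {C : ℝ} (hC : 0 < C) {p q p' q' : ℤ}
    (hN : p' ^ 2 + 12 * q' ^ 2 = p ^ 2 + 12 * q ^ 2)
    (h1 : 10000 ≤ (p : ℝ) ^ 2 + 12 * (q : ℝ) ^ 2)
    (h2 : 156 * C ^ 2 ≤ (p : ℝ) ^ 2 + 12 * (q : ℝ) ^ 2)
    (h : |MM ((p : ℝ) ^ 2 + 12 * (q : ℝ) ^ 2)
          (((p : ℝ) ^ 2 - 12 * (q : ℝ) ^ 2) / ((p : ℝ) ^ 2 + 12 * (q : ℝ) ^ 2))
        - MM ((p : ℝ) ^ 2 + 12 * (q : ℝ) ^ 2)
          (((p' : ℝ) ^ 2 - 12 * (q' : ℝ) ^ 2) / ((p : ℝ) ^ 2 + 12 * (q : ℝ) ^ 2))|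
        ≤ 2 * (C / ((p : ℝ) ^ 2 + 12 * (q : ℝ) ^ 2) ^ 4)) : q ^ 2 = q' ^ 2 := by
  by_contra hq
  obtain ⟨p1, p2⟩ := pi_sq_bounds
  have hNr : (p' : ℝ) ^ 2 + 12 * (q' : ℝ) ^ 2 = (p : ℝ) ^ 2 + 12 * (q : ℝ) ^ 2 := by
    exact_mod_cast hN
  have n0 : 0 < (p : ℝ) ^ 2 + 12 * (q : ℝ) ^ 2 := by linarith
  have hp : p ^ 2 ≠ p' ^ 2 := fun h0 => hq (by omega)
  have s1 := sq_le_diff hq
  have s2 := sq_le_diff hp
  have s3' : p ^ 2 + 12 * q ^ 2 ≤ 156 * (q' ^ 2 - q ^ 2) ^ 2 := by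
    have : p ^ 2 - p' ^ 2 = 12 * (q' ^ 2 - q ^ 2) := by linarith
    rw [this] at s2
    nlinarith
  have s4 : (p : ℝ) ^ 2 + 12 * (q : ℝ) ^ 2 ≤ 156 * ((q' : ℝ) ^ 2 - (q : ℝ) ^ 2) ^ 2 := by
    exact_mod_cast s3'
  have hdC : C ≤ |(q' : ℝ) ^ 2 - (q : ℝ) ^ 2| := by
    apply le_of_sq_le_sq _ (abs_nonneg _) |> fun h => h
    rw [sq_abs]; linarith
  have k1 := kap_le n0
  have k2 := kap_le (p := p') (q := q') (by rw [hNr]; exact n0)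
  rw [hNr] at k2
  have key := same_real (E := (p : ℝ) ^ 2 - 12 * (q' : ℝ) ^ 2) hC h1 k1 k2
    (by rw [← add_div]; congr 1; linarith) (by rw [← sub_div]; congr 1; linarith) hdC h
  set k := ((p : ℝ) ^ 2 - 12 * (q : ℝ) ^ 2) / ((p : ℝ) ^ 2 + 12 * (q : ℝ) ^ 2) with hk
  obtain ⟨k3, k4⟩ := abs_le.mp k1
  have k5 : k ^ 2 ≤ 1 := by nlinarith
  have k6 := sq_nonneg k
  obtain ⟨y1, y2⟩ := abs_le.mp key
  have E1 : (-1 : ℝ) < (p : ℝ) ^ 2 - 12 * (q' : ℝ) ^ 2 := by nlinarith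
  have E2 : (p : ℝ) ^ 2 - 12 * (q' : ℝ) ^ 2 < 3 := by nlinarith
  have E1' : -1 < p ^ 2 - 12 * q' ^ 2 := by exact_mod_cast E1
  have E2' : p ^ 2 - 12 * q' ^ 2 < 3 := by exact_mod_cast E2
  have hE : p ^ 2 - 12 * q' ^ 2 = 0 ∨ p ^ 2 - 12 * q' ^ 2 = 1 ∨ p ^ 2 - 12 * q' ^ 2 = 2 := by omega
  rcases hE with hE | hE | hE
  · have a1 : q' = 0 := not_twelve (x := p) (by linarith)
    have a2 : q = 0 := not_twelve (x := p') (by linarith)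
    exact hq (by rw [a1, a2])
  · have a1 := pell_case hE (p' := p') (by linarith) hq
    have a2 : 192 * ((p : ℝ) ^ 2 * (q : ℝ) ^ 2) ≤ ((p : ℝ) ^ 2 + 12 * (q : ℝ) ^ 2) ^ 2 := by
      exact_mod_cast a1
    have a3 : 3 / 4 ≤ k ^ 2 := by
      rw [hk, div_pow, le_div_iff₀ (by positivity)]
      nlinarith
    have a4 : (p : ℝ) ^ 2 - 12 * (q' : ℝ) ^ 2 = 1 := by exact_mod_cast hE
    nlinarith
  · have : p % 2 = 0 ∨ p % 2 = 1 := by omega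
    rcases this with h0 | h0
    · obtain ⟨m, hm⟩ : ∃ m, p = 2 * m := ⟨p / 2, by omega⟩
      have : 4 * (m ^ 2 - 3 * q' ^ 2) = 2 := by rw [hm] at hE; linarith
      omega
    · obtain ⟨m, hm⟩ : ∃ m, p = 2 * m + 1 := ⟨p / 2, by omega⟩
      have : 4 * (m ^ 2 + m - 3 * q' ^ 2) = 1 := by rw [hm] at hE; linarith
      omega

theorem finite_gap (s : Finset (ℤ × ℤ)) :
    ∃ η : ℝ, 0 < η ∧ ∀ x ∈ s, ∀ v, FillVol x.1 x.2 v → v ≤ V0 - η := by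
  induction s using Finset.induction_on with
  | empty => exact ⟨1, one_pos, by simp⟩
  | insert x s _ ih =>
    obtain ⟨η, hη, h⟩ := ih
    by_cases hx : ∃ v, FillVol x.1 x.2 v
    · obtain ⟨v0, hv0⟩ := hx
      have := fillVol_lt hv0
      refine ⟨min η (V0 - v0), lt_min hη (by linarith), ?_⟩
      intro y hy v hv
      rcases Finset.mem_insert.mp hy with rfl | hy
      · rw [fillVol_unique hv0 hv]; linarith [min_le_right η (V0 - v0)]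
      · linarith [h y hy v hv, min_le_left η (V0 - v0)]
    · refine ⟨η, hη, ?_⟩
      intro y hy v hv
      rcases Finset.mem_insert.mp hy with rfl | hy
      · exact absurd ⟨v, hv⟩ hx
      · exact h y hy v hv

theorem small_gap (M : ℝ) : ∃ η : ℝ, 0 < η ∧ ∀ p q : ℤ, (p : ℝ) ^ 2 + 12 * (q : ℝ) ^ 2 < M →
    ∀ v, FillVol p q v → v ≤ V0 - η := by
  obtain ⟨η, hη, h⟩ := finite_gap (Finset.Icc (-⌈M⌉) ⌈M⌉ ×ˢ Finset.Icc (-⌈M⌉) ⌈M⌉)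
  refine ⟨η, hη, fun p q hM v hv => h (p, q) ?_ v hv⟩
  have h1 : ((p ^ 2 + 12 * q ^ 2 : ℤ) : ℝ) ≤ (⌈M⌉ : ℝ) := by
    push_cast; linarith [Int.le_ceil M]
  have h2 : p ^ 2 + 12 * q ^ 2 ≤ ⌈M⌉ := by exact_mod_cast h1
  simp only [Finset.mem_product, Finset.mem_Icc]
  refine ⟨⟨?_, ?_⟩, ?_, ?_⟩ <;> nlinarith [sq_nonneg (p - 1), sq_nonneg (p + 1), sq_nonneg (q - 1),
    sq_nonneg (q + 1), sq_nonneg p, sq_nonneg q]

noncomputable def c4 (p q : ℤ) : ℝ :=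
  1 - 96 * ((p : ℝ) ^ 2 * (q : ℝ) ^ 2) / ((p : ℝ) ^ 2 + 12 * (q : ℝ) ^ 2) ^ 2

theorem c4_eq {p q : ℤ} (h : 0 < (p : ℝ) ^ 2 + 12 * (q : ℝ) ^ 2) :
    c4 p q = 2 * (((p : ℝ) ^ 2 - 12 * (q : ℝ) ^ 2) / ((p : ℝ) ^ 2 + 12 * (q : ℝ) ^ 2)) ^ 2 - 1 := by
  unfold c4
  obtain ⟨n, hn⟩ : ∃ n : ℝ, n = (p : ℝ) ^ 2 + 12 * (q : ℝ) ^ 2 := ⟨_, rfl⟩
  rw [← hn] at h ⊢
  field_simp
  rw [hn]; ring

theorem compare : ∃ K N1 : ℝ, 0 < K ∧ 40 ≤ N1 ∧ ∀ p q : ℤ, N1 ≤ (p : ℝ) ^ 2 + 12 * (q : ℝ) ^ 2 →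
    (∃ v, FillVol p q v) ∧ ∀ (p' q' : ℤ) (v : ℝ), FillVol p q v → FillVol p' q' v →
      (|p'| = |p| ∧ |q'| = |q|) ∨ ∃ k : ℤ, k ≠ 0 ∧ |k| ≤ 13 ∧
        p' ^ 2 + 12 * q' ^ 2 = p ^ 2 + 12 * q ^ 2 + k ∧
        |c4 p q - c4 p' q' - 3 * k / (2 * Real.pi ^ 2)| ≤ K / ((p : ℝ) ^ 2 + 12 * (q : ℝ) ^ 2) := by
  obtain ⟨C, N0, hC, hN0, hE⟩ := expansion
  obtain ⟨p1, p2⟩ := pi_sq_bounds
  obtain ⟨D, hD⟩ : ∃ D, D = C + 2000 := ⟨_, rfl⟩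
  have D0 : 0 < D := by linarith
  obtain ⟨M, hM⟩ : ∃ M, M = N0 + 40 * (D + 10) + 156 * C ^ 2 + 10000 := ⟨_, rfl⟩
  have C2 : 0 ≤ C ^ 2 := sq_nonneg C
  obtain ⟨η, hη, hs⟩ := small_gap M
  have hq : 0 < 40 * (D + 8) / η := by positivity
  refine ⟨9 * D + 1000, M + 40 * (D + 8) / η + 1, by positivity, by linarith, ?_⟩
  intro p q hN
  obtain ⟨v0, hv0, e0⟩ := hE p q (by linarith)
  refine ⟨⟨v0, hv0⟩, ?_⟩
  intro p' q' v hv hv'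
  rw [← fillVol_unique hv0 hv] at e0
  have split : ∀ n k : ℝ, 1 ≤ n → |k| ≤ 1 →
      |(v - V0) / (2 * s3 * Real.pi ^ 2) - MM n k| ≤ C / n ^ 4 →
      ∃ a : ℝ, a = 2 * Real.pi ^ 2 / 3 * (2 * k ^ 2 - 1) ∧ |a| ≤ 6.6 ∧
        |(v - V0) / (2 * s3 * Real.pi ^ 2) - (-1 / n + a / n ^ 2)| ≤ D / n ^ 3 := by
    intro n k hn hk h
    obtain ⟨a, b, ha, ha1, hb, e⟩ := MM_split n k hk
    refine ⟨a, ha, ha1, ?_⟩
    have n0 : 0 < n := by linarith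
    have t1 : C / n ^ 4 ≤ C / n ^ 3 := by
      gcongr; norm_num
    have t2 : |b / n ^ 3| ≤ 2000 / n ^ 3 := by
      rw [abs_div, abs_of_pos (a := n ^ 3) (by positivity)]; gcongr
    have t3 : (v - V0) / (2 * s3 * Real.pi ^ 2) - (-1 / n + a / n ^ 2)
        = ((v - V0) / (2 * s3 * Real.pi ^ 2) - MM n k) - b / n ^ 3 := by rw [e]; ring
    rw [t3, hD, add_div]
    refine (abs_sub _ _).trans ?_
    linarith
  obtain ⟨n, hn⟩ : ∃ n : ℝ, n = (p : ℝ) ^ 2 + 12 * (q : ℝ) ^ 2 := ⟨_, rfl⟩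
  obtain ⟨m, hm⟩ : ∃ m : ℝ, m = (p' : ℝ) ^ 2 + 12 * (q' : ℝ) ^ 2 := ⟨_, rfl⟩
  have n0 : 0 < (p : ℝ) ^ 2 + 12 * (q : ℝ) ^ 2 := by linarith
  obtain ⟨a, ha, ha1, ha2⟩ := split _ _ (by linarith) (kap_le n0) e0
  have hbig : M ≤ (p' : ℝ) ^ 2 + 12 * (q' : ℝ) ^ 2 := by
    by_contra hc
    push Not at hc
    have h1 := hs p' q' hc v hv'
    rw [← hn] at ha2 hN n0
    have n1 : 1 ≤ n := by linarith
    have t1 : D / n ^ 3 ≤ D / n := by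
      gcongr; exact le_self_pow₀ n1 (by norm_num)
    have t2 : -a / n ^ 2 ≤ 7 / n := by
      calc _ ≤ 7 / n ^ 2 := by gcongr; linarith [(abs_le.mp ha1).1]
        _ ≤ _ := by gcongr; exact le_self_pow₀ n1 (by norm_num)
    have t3 := (abs_le.mp ha2).1
    have t4 : (V0 - v) / (2 * s3 * Real.pi ^ 2) ≤ (D + 8) / n := by
      have e1 : (V0 - v) / (2 * s3 * Real.pi ^ 2) = -((v - V0) / (2 * s3 * Real.pi ^ 2)) := by ring
      have e2 : (D + 8) / n = D / n + 7 / n - -1 / n := by ring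
      rw [neg_div] at t2
      rw [e1, e2]; linarith
    have s0 := s3_pos
    have t5 : 2 * s3 * Real.pi ^ 2 ≤ 40 := by nlinarith [s3_lt]
    have t6 : η / 40 ≤ (V0 - v) / (2 * s3 * Real.pi ^ 2) := by
      gcongr <;> linarith
    have t7 : η / 40 ≤ (D + 8) / n := t6.trans t4
    rw [div_le_div_iff₀ (by norm_num) n0] at t7
    have t8 : 40 * (D + 8) / η < n := by linarith
    rw [div_lt_iff₀ hη] at t8
    linarith
  obtain ⟨v1, hv1, e1⟩ := hE p' q' (by linarith)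
  rw [← fillVol_unique hv1 hv'] at e1
  have m0 : 0 < (p' : ℝ) ^ 2 + 12 * (q' : ℝ) ^ 2 := by linarith
  obtain ⟨a', ha', ha1', ha2'⟩ := split _ _ (by linarith) (kap_le m0) e1
  rw [← hn] at ha2
  rw [← hm] at ha2'
  have w1 : |1 / m - 1 / n + a / n ^ 2 - a' / m ^ 2| ≤ D / n ^ 3 + D / m ^ 3 := by
    have : 1 / m - 1 / n + a / n ^ 2 - a' / m ^ 2
        = ((v - V0) / (2 * s3 * Real.pi ^ 2) - (-1 / m + a' / m ^ 2))
          - ((v - V0) / (2 * s3 * Real.pi ^ 2) - (-1 / n + a / n ^ 2)) := by ring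
    rw [this]
    refine (abs_sub _ _).trans ?_
    linarith
  have w2 : |1 / n - 1 / m + a' / m ^ 2 - a / n ^ 2| ≤ D / m ^ 3 + D / n ^ 3 := by
    rw [← abs_neg]
    refine le_trans (le_of_eq ?_) (w1.trans (le_of_eq (add_comm _ _)))
    congr 1; ring
  have g1 := gap_lt D0 (by linarith) ha1 ha1' w1
  have g2 := gap_lt D0 (by linarith) ha1' ha1 w2
  obtain ⟨k, hk⟩ : ∃ k : ℤ, k = (p' ^ 2 + 12 * q' ^ 2) - (p ^ 2 + 12 * q ^ 2) := ⟨_, rfl⟩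
  have hkr : (k : ℝ) = m - n := by rw [hk, hm, hn]; push_cast; ring
  by_cases k0 : k = 0
  · left
    have hNN : p' ^ 2 + 12 * q' ^ 2 = p ^ 2 + 12 * q ^ 2 := by omega
    have hNr : (p' : ℝ) ^ 2 + 12 * (q' : ℝ) ^ 2 = (p : ℝ) ^ 2 + 12 * (q : ℝ) ^ 2 := by
      exact_mod_cast hNN
    rw [hNr] at e1
    have hqq : q ^ 2 = q' ^ 2 := by
      apply same_norm hC hNN (by linarith) (by linarith)
      rw [two_mul]
      refine le_trans (le_of_eq ?_) ((abs_sub _ _).trans (add_le_add e1 e0))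
      congr 1; ring
    have hpp : p' ^ 2 = p ^ 2 := by omega
    exact ⟨sq_eq_sq_iff_abs_eq_abs _ _ |>.mp hpp, sq_eq_sq_iff_abs_eq_abs _ _ |>.mp hqq.symm⟩
  · right
    have k1 : (k : ℝ) < 14 := by linarith
    have k2 : (-14 : ℝ) < k := by linarith
    have k1' : k < 14 := by exact_mod_cast k1
    have k2' : -14 < k := by exact_mod_cast k2
    refine ⟨k, k0, abs_le.mpr ⟨by omega, by omega⟩, by omega, ?_⟩
    have w3 := near_of D0 (by linarith) (abs_le.mpr ⟨by linarith, by linarith⟩) ha1' w1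
    rw [c4_eq n0, c4_eq m0, ← hn]
    rw [← hn] at ha n0
    have e : 2 * (((p : ℝ) ^ 2 - 12 * (q : ℝ) ^ 2) / n) ^ 2 - 1
        - (2 * (((p' : ℝ) ^ 2 - 12 * (q' : ℝ) ^ 2) / ((p' : ℝ) ^ 2 + 12 * (q' : ℝ) ^ 2)) ^ 2 - 1)
        - 3 * k / (2 * Real.pi ^ 2) = (a - a' - (m - n)) / (2 * Real.pi ^ 2 / 3) := by
      rw [ha, ha', hkr]
      have := Real.pi_pos
      field_simp
    rw [e, abs_div, abs_of_pos (a := 2 * Real.pi ^ 2 / 3) (by linarith)]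
    exact (div_le_self (abs_nonneg _) (by linarith)).trans w3

end Pool.Agent.P.MP_858e15_gt
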