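import Pool.Agent.P.MP_858e15_gt.Defs

namespace Pool.Agent.P.MP_858e15_gt

open Complex Set

theorem lob_hasDerivAt {x : ℝ} (h0 : 0 < x) (h1 : x < Real.pi) :
    HasDerivAt lob (-Real.log (2 * Real.sin x)) x := by
  have hs : 0 < Real.sin x := Real.sin_pos_of_pos_of_lt_pi h0 h1
  have hint : IntervalIntegrable (fun t => Real.log |2 * Real.sin t|) MeasureTheory.volume 0 x := by
    have h2 : IntervalIntegrable (fun t => Real.log 2 + (Real.log ∘ Real.sin) t)
        MeasureTheory.volume 0 x :=
      (intervalIntegrable_const).add intervalIntegrable_log_sin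
    refine h2.congr ?_
    intro t ht
    rw [uIoc_of_le h0.le] at ht
    have : 0 < Real.sin t := Real.sin_pos_of_pos_of_lt_pi ht.1 (lt_of_le_of_lt ht.2 h1)
    simp only [Function.comp]
    rw [Real.log_abs, Real.log_mul (by norm_num) this.ne']
  have hc : ContinuousAt (fun t => Real.log |2 * Real.sin t|) x := by
    apply ContinuousAt.log
    · fun_prop
    · have : 0 < 2 * Real.sin x := by positivity
      exact (abs_pos.mpr this.ne').ne'
  have hm : StronglyMeasurableAtFilter (fun t => Real.log |2 * Real.sin t|) (nhds x)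
      MeasureTheory.volume := by
    apply MeasureTheory.StronglyMeasurable.stronglyMeasurableAtFilter
    apply Measurable.stronglyMeasurable
    fun_prop
  have := (intervalIntegral.integral_hasDerivAt_right hint hm hc).neg
  simp only [Real.log_abs] at this
  unfold lob
  simp only [Real.log_abs]
  exact this

noncomputable def F (a b : ℝ) : ℝ := lob a + lob b + lob (Real.pi - a - b)

noncomputable def G (a b da db : ℝ) : ℝ :=
  -da * (Real.log (Real.sin a) - Real.log (Real.sin (Real.pi - a - b)))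
    - db * (Real.log (Real.sin b) - Real.log (Real.sin (Real.pi - a - b)))

theorem F_hasDerivAt {a b : ℝ → ℝ} {da db t : ℝ} (ha : HasDerivAt a da t) (hb : HasDerivAt b db t)
    (h1 : 0 < a t) (h2 : 0 < b t) (h3 : a t + b t < Real.pi) :
    HasDerivAt (fun s => F (a s) (b s)) (G (a t) (b t) da db) t := by
  have e1 := (lob_hasDerivAt h1 (by linarith)).comp t ha
  have e2 := (lob_hasDerivAt h2 (by linarith)).comp t hb
  have hc : HasDerivAt (fun s => Real.pi - a s - b s) (0 - da - db) t :=
    ((hasDerivAt_const t Real.pi).sub ha).sub hb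
  have e3 := (lob_hasDerivAt (x := Real.pi - a t - b t) (by linarith) (by linarith)).comp t hc
  have s1 : 0 < Real.sin (a t) := Real.sin_pos_of_pos_of_lt_pi h1 (by linarith)
  have s2 : 0 < Real.sin (b t) := Real.sin_pos_of_pos_of_lt_pi h2 (by linarith)
  have s3 : 0 < Real.sin (Real.pi - a t - b t) :=
    Real.sin_pos_of_pos_of_lt_pi (by linarith) (by linarith)
  have e := (e1.add e2).add e3
  refine HasDerivAt.congr_deriv e ?_
  unfold G
  rw [Real.log_mul (by norm_num) s1.ne', Real.log_mul (by norm_num) s2.ne',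
    Real.log_mul (by norm_num) s3.ne']
  ring

theorem quad_pos {a b da db : ℝ} (h1 : 0 < a) (h2 : 0 < b) (h3 : a + b < Real.pi)
    (hd : da ≠ 0 ∨ db ≠ 0) :
    0 < da ^ 2 * (Real.cos a / Real.sin a) + db ^ 2 * (Real.cos b / Real.sin b)
      + (da + db) ^ 2 * (Real.cos (Real.pi - a - b) / Real.sin (Real.pi - a - b)) := by
  have s1 : 0 < Real.sin a := Real.sin_pos_of_pos_of_lt_pi h1 (by linarith)
  have s2 : 0 < Real.sin b := Real.sin_pos_of_pos_of_lt_pi h2 (by linarith)
  have s3 : 0 < Real.sin (Real.pi - a - b) :=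
    Real.sin_pos_of_pos_of_lt_pi (by linarith) (by linarith)
  have hs : Real.sin (Real.pi - a - b) = Real.sin a * Real.cos b + Real.cos a * Real.sin b := by
    rw [sub_sub, Real.sin_pi_sub, Real.sin_add]
  have hc : Real.cos (Real.pi - a - b) = Real.sin a * Real.sin b - Real.cos a * Real.cos b := by
    rw [sub_sub, Real.cos_pi_sub, Real.cos_add]; ring
  set X := Real.cos a / Real.sin a with hX
  set Y := Real.cos b / Real.sin b with hY
  set Z := Real.cos (Real.pi - a - b) / Real.sin (Real.pi - a - b) with hZ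
  have e1 : X * Y + Y * Z + Z * X = 1 := by
    rw [hX, hY, hZ]
    field_simp
    rw [hs, hc]; ring
  have e2 : X + Z = Real.sin b / (Real.sin a * Real.sin (Real.pi - a - b)) := by
    rw [hX, hZ]
    field_simp
    rw [hs, hc]
    have := Real.sin_sq_add_cos_sq a
    linear_combination (Real.sin b) * this
  have e3 : 0 < X + Z := by rw [e2]; positivity
  have e4 : (X + Z) * (da ^ 2 * X + db ^ 2 * Y + (da + db) ^ 2 * Z)
      = ((X + Z) * da + Z * db) ^ 2 + db ^ 2 := by
    linear_combination (db ^ 2) * e1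
  have e5 : 0 < ((X + Z) * da + Z * db) ^ 2 + db ^ 2 := by
    by_cases hb : db = 0
    · have ha : da ≠ 0 := by
        rcases hd with h | h
        · exact h
        · exact absurd hb h
      subst hb
      have : (X + Z) * da ≠ 0 := mul_ne_zero e3.ne' ha
      simp only [mul_zero, add_zero]
      positivity
    · positivity
  rw [← e4] at e5
  exact (mul_pos_iff_of_pos_left e3).mp e5

theorem F_concave {a b a' b' : ℝ} (h1 : 0 < a) (h2 : 0 < b) (h3 : a + b < Real.pi)
    (h1' : 0 < a') (h2' : 0 < b') (h3' : a' + b' < Real.pi) (hd : a' ≠ a ∨ b' ≠ b) :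
    F a' b' - F a b < G a b (a' - a) (b' - b) := by
  set da := a' - a with hda
  set db := b' - b with hdb
  have hd' : da ≠ 0 ∨ db ≠ 0 := by
    rcases hd with h | h
    · exact Or.inl (sub_ne_zero.mpr h)
    · exact Or.inr (sub_ne_zero.mpr h)
  have hA : ∀ t : ℝ, HasDerivAt (fun s => a + s * da) da t := fun t => by
    simpa using ((hasDerivAt_id t).mul_const da).const_add a
  have hB : ∀ t : ℝ, HasDerivAt (fun s => b + s * db) db t := fun t => by
    simpa using ((hasDerivAt_id t).mul_const db).const_add b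
  have hin : ∀ t ∈ Icc (0 : ℝ) 1, 0 < a + t * da ∧ 0 < b + t * db ∧
      (a + t * da) + (b + t * db) < Real.pi := by
    intro t ht
    obtain ⟨t0, t1⟩ := ht
    rw [hda, hdb]
    rcases eq_or_lt_of_le t0 with h | h
    · subst h; refine ⟨by linarith, by linarith, by linarith⟩
    · refine ⟨by nlinarith, by nlinarith, by nlinarith⟩
  have hF : ∀ t ∈ Icc (0 : ℝ) 1, HasDerivAt (fun s => F (a + s * da) (b + s * db))
      (G (a + t * da) (b + t * db) da db) t := fun t ht =>
    F_hasDerivAt (hA t) (hB t) (hin t ht).1 (hin t ht).2.1 (hin t ht).2.2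
  have hG : ∀ t ∈ Icc (0 : ℝ) 1, HasDerivAt (fun s => G (a + s * da) (b + s * db) da db)
      (-(da ^ 2 * (Real.cos (a + t * da) / Real.sin (a + t * da))
        + db ^ 2 * (Real.cos (b + t * db) / Real.sin (b + t * db))
        + (da + db) ^ 2 * (Real.cos (Real.pi - (a + t * da) - (b + t * db))
          / Real.sin (Real.pi - (a + t * da) - (b + t * db))))) t := by
    intro t ht
    obtain ⟨i1, i2, i3⟩ := hin t ht
    have s1 : 0 < Real.sin (a + t * da) := Real.sin_pos_of_pos_of_lt_pi i1 (by linarith)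
    have s2 : 0 < Real.sin (b + t * db) := Real.sin_pos_of_pos_of_lt_pi i2 (by linarith)
    have s3 : 0 < Real.sin (Real.pi - (a + t * da) - (b + t * db)) :=
      Real.sin_pos_of_pos_of_lt_pi (by linarith) (by linarith)
    have hc : HasDerivAt (fun s => Real.pi - (a + s * da) - (b + s * db)) (0 - da - db) t :=
      ((hasDerivAt_const t Real.pi).sub (hA t)).sub (hB t)
    have l1 := ((hA t).sin).log s1.ne'
    have l2 := ((hB t).sin).log s2.ne'
    have l3 := (hc.sin).log s3.ne'
    have e := ((l1.sub l3).const_mul (-da)).sub ((l2.sub l3).const_mul db)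
    refine HasDerivAt.congr_deriv e ?_
    ring
  obtain ⟨x, hx, hx2⟩ := exists_hasDerivAt_eq_slope (fun s => F (a + s * da) (b + s * db))
    (fun t => G (a + t * da) (b + t * db) da db) (zero_lt_one' ℝ)
    (fun t ht => (hF t ht).continuousAt.continuousWithinAt)
    (fun t ht => hF t (Ioo_subset_Icc_self ht))
  have hsub : Icc (0 : ℝ) x ⊆ Icc 0 1 := Icc_subset_Icc le_rfl hx.2.le
  obtain ⟨y, hy, hy2⟩ := exists_hasDerivAt_eq_slope (fun s => G (a + s * da) (b + s * db) da db)
    _ hx.1 (fun t ht => (hG t (hsub ht)).continuousAt.continuousWithinAt)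
    (fun t ht => hG t (hsub (Ioo_subset_Icc_self ht)))
  obtain ⟨i1, i2, i3⟩ := hin y (hsub (Ioo_subset_Icc_self hy))
  have hq := quad_pos i1 i2 i3 hd'
  have hneg : (G (a + x * da) (b + x * db) da db - G (a + 0 * da) (b + 0 * db) da db) / (x - 0)
      < 0 := by rw [← hy2]; linarith
  have hx0 : 0 < x - 0 := by linarith [hx.1]
  have hlt := (div_neg_iff.mp hneg)
  have e1 : a + 1 * da = a' := by rw [hda]; ring
  have e2 : b + 1 * db = b' := by rw [hdb]; ring
  simp only [e1, e2, zero_mul, add_zero, sub_zero, div_one] at hx2 hlt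
  rcases hlt with h | h
  · linarith [h.2, hx.1]
  · linarith [h.1]

theorem F_concave_le {a b a' b' : ℝ} (h1 : 0 < a) (h2 : 0 < b) (h3 : a + b < Real.pi)
    (h1' : 0 < a') (h2' : 0 < b') (h3' : a' + b' < Real.pi) :
    F a' b' - F a b ≤ G a b (a' - a) (b' - b) := by
  by_cases hd : a' ≠ a ∨ b' ≠ b
  · exact (F_concave h1 h2 h3 h1' h2' h3' hd).le
  · push Not at hd
    rw [hd.1, hd.2]; simp [G]

theorem arg_pos_of_im {z : ℂ} (h : 0 < z.im) : 0 < arg z ∧ arg z < Real.pi := by
  refine ⟨lt_of_le_of_ne (arg_nonneg_iff.mpr h.le) ?_, arg_lt_pi_iff.mpr (Or.inr h.ne')⟩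
  intro h0
  exact h.ne' (arg_eq_zero_iff.mp h0.symm).2

theorem tet_facts {z : ℂ} (h : 0 < z.im) :
    0 < (log z).im ∧ 0 < -(log (1 - z)).im ∧ (log z).im + -(log (1 - z)).im < Real.pi ∧
    tetVol z = F (log z).im (-(log (1 - z)).im) ∧
    ∀ da db : ℝ, G (log z).im (-(log (1 - z)).im) da db
      = -da * (log (1 - z)).re - db * (log z).re := by
  have hz : z ≠ 0 := fun h0 => by rw [h0] at h; simp at h
  have hz1 : 1 - z ≠ 0 := fun h0 => by
    have := congrArg Complex.im h0
    simp at this; linarith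
  have nz : 0 < ‖z‖ := norm_pos_iff.mpr hz
  have nz1 : 0 < ‖1 - z‖ := norm_pos_iff.mpr hz1
  have a1 := arg_pos_of_im h
  have hne : arg (1 - z) ≠ Real.pi := by
    intro h0
    have := (arg_eq_pi_iff.mp h0).2
    simp at this; linarith
  have b0 : arg (1 / (1 - z)) = -arg (1 - z) := by
    rw [one_div, arg_inv, if_neg hne]
  have bim : 0 < (1 / (1 - z)).im := by
    rw [one_div, inv_im]
    have : 0 < normSq (1 - z) := normSq_pos.mpr hz1
    simp only [sub_im, one_im, zero_sub, neg_neg]
    positivity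
  have b1 := arg_pos_of_im bim
  have cim : 0 < (1 - 1 / z).im := by
    rw [one_div, sub_im, inv_im]
    have : 0 < normSq z := normSq_pos.mpr hz
    simp only [one_im, zero_sub, neg_div, neg_neg]
    positivity
  have c1 := arg_pos_of_im cim
  have c0 : arg (1 - 1 / z) = Real.pi - arg z - -arg (1 - z) := by
    have e1 := norm_mul_exp_arg_mul_I z
    have e2 := norm_mul_exp_arg_mul_I (1 - z)
    have e3 : (1 - 1 / z) = ((‖1 - z‖ / ‖z‖ : ℝ) : ℂ) *
        (cos ((Real.pi - arg z - -arg (1 - z) : ℝ) : ℂ)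
          + sin ((Real.pi - arg z - -arg (1 - z) : ℝ) : ℂ) * I) := by
      rw [← exp_mul_I]
      have : (((Real.pi - arg z - -arg (1 - z) : ℝ) : ℂ)) * I
          = Real.pi * I + (arg (1 - z) * I) - arg z * I := by push_cast; ring
      rw [this, exp_sub, exp_add, exp_pi_mul_I]
      have hn : ((‖z‖ : ℝ) : ℂ) ≠ 0 := by exact_mod_cast nz.ne'
      have he : cexp (arg z * I) ≠ 0 := exp_ne_zero _
      push_cast
      field_simp
      rw [mul_comm I]
      linear_combination (z - 1) * e1 + z * e2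
    rw [e3]
    apply arg_mul_cos_add_sin_mul_I (by positivity)
    rw [b0] at b1
    constructor <;> linarith [a1.1, a1.2, b1.1, b1.2]
  rw [log_im, log_im]
  rw [b0] at b1
  rw [c0] at c1
  refine ⟨a1.1, b1.1, by linarith [c1.1], ?_, ?_⟩
  · unfold tetVol F
    rw [b0, c0]
  · intro da db
    unfold G
    rw [← c0, ← b0, sin_arg, sin_arg, sin_arg, log_re, log_re]
    have n1 : ‖1 / (1 - z)‖ = 1 / ‖1 - z‖ := by simp
    have n2 : ‖1 - 1 / z‖ = ‖1 - z‖ / ‖z‖ := by
      have : 1 - 1 / z = -((1 - z) / z) := by field_simp; ring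
      rw [this, norm_neg, norm_div]
    have i1 : (1 / (1 - z)).im = z.im / ‖1 - z‖ ^ 2 := by
      rw [one_div, inv_im, normSq_eq_norm_sq]; simp
    have i2 : (1 - 1 / z).im = z.im / ‖z‖ ^ 2 := by
      rw [one_div, sub_im, inv_im, normSq_eq_norm_sq]; simp [neg_div]
    have s1 : (1 / (1 - z)).im / ‖1 / (1 - z)‖ = z.im / ‖1 - z‖ := by
      rw [i1, n1]; field_simp
    have s2 : (1 - 1 / z).im / ‖1 - 1 / z‖ = z.im / (‖z‖ * ‖1 - z‖) := by
      rw [i2, n2]; field_simp
    rw [s1, s2, Real.log_div h.ne' nz.ne', Real.log_div h.ne' nz1.ne',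
      Real.log_div h.ne' (by positivity), Real.log_mul nz.ne' nz1.ne']
    ring

theorem tet_le {z z' : ℂ} (h : 0 < z.im) (h' : 0 < z'.im) :
    tetVol z' - tetVol z ≤ -((log z').im - (log z).im) * (log (1 - z)).re
      + ((log (1 - z')).im - (log (1 - z)).im) * (log z).re := by
  obtain ⟨a1, a2, a3, a4, a5⟩ := tet_facts h
  obtain ⟨b1, b2, b3, b4, -⟩ := tet_facts h'
  have := F_concave_le a1 a2 a3 b1 b2 b3
  rw [a5, ← a4, ← b4] at this
  linarith

theorem edge_log {z w : ℂ} (hz : 0 < z.im) (hw : 0 < w.im) (h : z * (z - 1) * w * (w - 1) = 1) :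
    log z + log (1 - z) + log w + log (1 - w) = 0 := by
  obtain ⟨a1, a2, a3, -, -⟩ := tet_facts hz
  obtain ⟨b1, b2, b3, -, -⟩ := tet_facts hw
  have ne0 : ∀ x : ℂ, 0 < x.im → x ≠ 0 ∧ 1 - x ≠ 0 := fun x hx =>
    ⟨fun h0 => by rw [h0] at hx; simp at hx, fun h0 => by
      have := congrArg Complex.im h0
      simp at this; linarith⟩
  have e : cexp (log z + log (1 - z) + log w + log (1 - w)) = 1 := by
    rw [exp_add, exp_add, exp_add, exp_log (ne0 z hz).1, exp_log (ne0 z hz).2,
      exp_log (ne0 w hw).1, exp_log (ne0 w hw).2]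
    linear_combination h
  obtain ⟨n, hn⟩ := exp_eq_one_iff.mp e
  have him := congrArg Complex.im hn
  simp only [add_im] at him
  have h2 : ((n : ℂ) * (2 * Real.pi * I)).im = n * (2 * Real.pi) := by simp
  rw [h2] at him
  have hp := Real.pi_pos
  have n1 : (n : ℝ) < 1 := by
    by_contra hc; push Not at hc; nlinarith
  have n2 : (-1 : ℝ) < n := by
    by_contra hc; push Not at hc; nlinarith
  have n1' : n < 1 := by exact_mod_cast n1
  have n2' : -1 < n := by exact_mod_cast n2
  have : n = 0 := by omega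
  rw [hn, this]; simp

theorem fillVol_le {p q : ℤ} {v v' : ℝ} (h : FillVol p q v) (h' : FillVol p q v') : v' ≤ v := by
  obtain ⟨z, w, ⟨hz, hw, he, hf⟩, rfl⟩ := h
  obtain ⟨z', w', ⟨hz', hw', he', hf'⟩, rfl⟩ := h'
  have t1 := tet_le hz hz'
  have t2 := tet_le hw hw'
  have e1 := edge_log hz hw he
  have e2 := edge_log hz' hw' he'
  have r1 := congrArg Complex.re e1
  have i1 := congrArg Complex.im e1
  have i2 := congrArg Complex.im e2
  have fr := congrArg Complex.re hf
  have fi := congrArg Complex.im hf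
  have fi' := congrArg Complex.im hf'
  simp at r1 i1 i2 fr fi fi'
  set x1 := (log z).re
  set y1 := (log (1 - z)).re
  set x2 := (log w).re
  set y2 := (log (1 - w)).re
  set a1 := (log z).im
  set b1 := (log (1 - z)).im
  set a2 := (log w).im
  set b2 := (log (1 - w)).im
  set a1' := (log z').im
  set b1' := (log (1 - z')).im
  set a2' := (log w').im
  set b2' := (log (1 - w')).im
  have key : (x1 + y1) * ((a2' + b1') - (a2 + b1)) - (x2 + y1) * ((a1' + b1') - (a1 + b1)) = 0 := by
    have hp := Real.pi_pos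
    by_cases hp0 : (p : ℝ) = 0
    · have hq0 : (q : ℝ) ≠ 0 := by
        intro h0; rw [hp0, h0] at fi; linarith
      apply mul_left_cancel₀ hq0
      rw [hp0] at fr fi fi'
      linear_combination (1 / 2) * ((a2' + b1') - (a2 + b1)) * fr - (1 / 2) * (x2 + y1) * (fi' - fi)
    · apply mul_left_cancel₀ hp0
      linear_combination (x1 + y1) * (fi' - fi) - ((a1' + b1') - (a1 + b1)) * fr
  have hy2 : y2 = -(x1 + y1 + x2) := by linarith
  have hb2 : b2 = -(a1 + b1 + a2) := by linarith
  have hb2' : b2' = -(a1' + b1' + a2') := by linarith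
  rw [hy2, hb2, hb2'] at t2
  nlinarith

theorem fillVol_unique {p q : ℤ} {v v' : ℝ} (h : FillVol p q v) (h' : FillVol p q v') : v' = v :=
  le_antisymm (fillVol_le h h') (fillVol_le h' h)

noncomputable def V0 : ℝ := 2 * F (Real.pi / 3) (Real.pi / 3)

theorem G_reg (da db : ℝ) : G (Real.pi / 3) (Real.pi / 3) da db = 0 := by
  unfold G
  have : Real.pi - Real.pi / 3 - Real.pi / 3 = Real.pi / 3 := by ring
  rw [this]; ring

theorem fillVol_lt {p q : ℤ} {v : ℝ} (h : FillVol p q v) : v < V0 := by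
  obtain ⟨z, w, ⟨hz, hw, he, hf⟩, rfl⟩ := h
  obtain ⟨a1, a2, a3, a4, -⟩ := tet_facts hz
  obtain ⟨b1, b2, b3, b4, -⟩ := tet_facts hw
  have hp := Real.pi_pos
  have r1 : 0 < Real.pi / 3 := by linarith
  have r3 : Real.pi / 3 + Real.pi / 3 < Real.pi := by linarith
  have l1 := F_concave_le r1 r1 r3 a1 a2 a3
  have l2 := F_concave_le r1 r1 r3 b1 b2 b3
  rw [G_reg] at l1 l2
  have fi := congrArg Complex.im hf
  simp at fi
  unfold V0
  rw [a4, b4]
  by_cases c1 : (log z).im ≠ Real.pi / 3 ∨ -(log (1 - z)).im ≠ Real.pi / 3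
  · have := F_concave r1 r1 r3 a1 a2 a3 c1
    rw [G_reg] at this
    linarith
  · by_cases c2 : (log w).im ≠ Real.pi / 3 ∨ -(log (1 - w)).im ≠ Real.pi / 3
    · have := F_concave r1 r1 r3 b1 b2 b3 c2
      rw [G_reg] at this
      linarith
    · exfalso
      push Not at c1 c2
      have e : (log (1 - z)).im = -(Real.pi / 3) := by linarith [c1.2]
      rw [c1.1, c2.1, e] at fi
      linarith

end Pool.Agent.P.MP_858e15_gt
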