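import Mathlib

namespace Pool.Agent.P.MP_858e15_gt

open Complex

noncomputable def lob (x : ℝ) : ℝ := -∫ t in (0 : ℝ)..x, Real.log |2 * Real.sin t|

noncomputable def tetVol (z : ℂ) : ℝ :=
  lob (arg z) + lob (arg (1 / (1 - z))) + lob (arg (1 - 1 / z))

def Filling (p q : ℤ) (z w : ℂ) : Prop :=
  0 < z.im ∧ 0 < w.im ∧ z * (z - 1) * w * (w - 1) = 1 ∧
    (p : ℂ) * (log w + log (1 - z)) + (q : ℂ) * (2 * (log z + log (1 - z))) = 2 * Real.pi * I

def FillVol (p q : ℤ) (v : ℝ) : Prop := ∃ z w : ℂ, Filling p q z w ∧ v = tetVol z + tetVol w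

end Pool.Agent.P.MP_858e15_gt
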