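import Pool.Agent.P.MP_858e15_gt.Local

namespace Pool.Agent.P.MP_858e15_gt

open Complex Set

noncomputable def MM (n k : ℝ) : ℝ :=
  -1 / n + 2 * Real.pi ^ 2 / 3 * (2 * k ^ 2 - 1) / n ^ 2
    - 32 * Real.pi ^ 4 * (-7 / 1080 * (4 * k ^ 3 - 3 * k) + (8 * k ^ 4 - 8 * k ^ 2 + 1) / 36) / n ^ 3

theorem rem_bound {u0 e η lam : ℂ} {C ρ : ℝ} (hC : 1 ≤ C) (h0 : ‖u0‖ ≤ ρ)
    (h1 : ‖u0 - e‖ ≤ ρ) (he : ‖e‖ ≤ C * ρ ^ 3) (hη : ‖η‖ ≤ 9 * C * ρ ^ 4) (hl : ‖lam‖ ≤ 1) :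
    ‖tau * (e ^ 2 * (6 * u0 ^ 2 - 4 * u0 * e + e ^ 2)) / 12
      + tau * (23 / 1080 * ((u0 - e) ^ 6 - u0 ^ 6)) + lam * η ^ 2 / 2‖ ≤ 48 * C ^ 2 * ρ ^ 8 := by
  have hρ : 0 ≤ ρ := (norm_nonneg _).trans h0
  have he2 : ‖e‖ ≤ 2 * ρ := by
    have : e = u0 - (u0 - e) := by ring
    rw [this]; refine (norm_sub_le _ _).trans ?_; linarith
  have ht := norm_tau
  have b1 : ‖6 * u0 ^ 2 - 4 * u0 * e + e ^ 2‖ ≤ 18 * ρ ^ 2 := by
    refine (norm_add_le _ _).trans ?_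
    refine (add_le_add_left (norm_sub_le _ _) _).trans ?_
    simp only [norm_mul, norm_pow, Complex.norm_ofNat]
    have x1 : ‖u0‖ ^ 2 ≤ ρ ^ 2 := by gcongr
    have x2 : ‖u0‖ * ‖e‖ ≤ ρ * (2 * ρ) := by gcongr
    have x3 : ‖e‖ ^ 2 ≤ (2 * ρ) ^ 2 := by gcongr
    nlinarith
  have t1 : ‖tau * (e ^ 2 * (6 * u0 ^ 2 - 4 * u0 * e + e ^ 2)) / 12‖ ≤ 6 * C ^ 2 * ρ ^ 8 := by
    rw [norm_div, norm_mul, norm_mul, norm_pow, Complex.norm_ofNat]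
    calc _ ≤ 4 * ((C * ρ ^ 3) ^ 2 * (18 * ρ ^ 2)) / 12 := by gcongr
      _ = 6 * C ^ 2 * ρ ^ 8 := by ring
  have b2 : ‖(u0 - e) ^ 6 - u0 ^ 6‖ ≤ C * ρ ^ 3 * (6 * ρ ^ 5) := by
    set u := u0 - e with hu
    have : u ^ 6 - u0 ^ 6 = -e * (u ^ 5 + u ^ 4 * u0 + u ^ 3 * u0 ^ 2 + u ^ 2 * u0 ^ 3
        + u * u0 ^ 4 + u0 ^ 5) := by rw [hu]; ring
    rw [this, norm_mul, norm_neg]
    refine mul_le_mul he ?_ (norm_nonneg _) (by positivity)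
    calc _ ≤ ‖u ^ 5‖ + ‖u ^ 4 * u0‖ + ‖u ^ 3 * u0 ^ 2‖ + ‖u ^ 2 * u0 ^ 3‖ + ‖u * u0 ^ 4‖
          + ‖u0 ^ 5‖ := by
          refine (norm_add_le _ _).trans (add_le_add_left ?_ _)
          refine (norm_add_le _ _).trans (add_le_add_left ?_ _)
          refine (norm_add_le _ _).trans (add_le_add_left ?_ _)
          refine (norm_add_le _ _).trans (add_le_add_left ?_ _)
          exact norm_add_le _ _
      _ ≤ ρ ^ 5 + ρ ^ 4 * ρ + ρ ^ 3 * ρ ^ 2 + ρ ^ 2 * ρ ^ 3 + ρ * ρ ^ 4 + ρ ^ 5 := by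
          simp only [norm_mul, norm_pow]
          gcongr
      _ = 6 * ρ ^ 5 := by ring
  have t2 : ‖tau * (23 / 1080 * ((u0 - e) ^ 6 - u0 ^ 6))‖ ≤ C ^ 2 * ρ ^ 8 := by
    rw [norm_mul, norm_mul]
    have : ‖(23 / 1080 : ℂ)‖ = 23 / 1080 := by simp
    rw [this]
    have x : C * ρ ^ 8 ≤ C ^ 2 * ρ ^ 8 := by gcongr; nlinarith
    have y : 0 ≤ C * ρ ^ 8 := by positivity
    calc _ ≤ 4 * (23 / 1080 * (C * ρ ^ 3 * (6 * ρ ^ 5))) := by gcongr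
      _ = 552 / 1080 * (C * ρ ^ 8) := by ring
      _ ≤ _ := by linarith
  have t3 : ‖lam * η ^ 2 / 2‖ ≤ 81 / 2 * C ^ 2 * ρ ^ 8 := by
    rw [norm_div, norm_mul, norm_pow, Complex.norm_ofNat]
    calc _ ≤ 1 * (9 * C * ρ ^ 4) ^ 2 / 2 := by gcongr
      _ = _ := by ring
  have y : 0 ≤ C ^ 2 * ρ ^ 8 := by positivity
  refine (norm_add_le _ _).trans ?_
  refine (add_le_add_left (norm_add_le _ _) _).trans ?_
  linarith

theorem main_im {a b t : ℝ} (hn : a ^ 2 + b ^ 2 ≠ 0) {u0 B : ℂ} (hB : B = a - b * I)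
    (hu : u0 = ((t / (a ^ 2 + b ^ 2) : ℝ) : ℂ) * I * B) :
    (I * u0 ^ 4 / 12 + I * (23 / 1080 * u0 ^ 6)
      + ((b / (a ^ 2 + b ^ 2) : ℝ) : ℂ) * B * u0 ^ 6 / 18).im
    = t ^ 4 * (2 * ((a ^ 2 - b ^ 2) / (a ^ 2 + b ^ 2)) ^ 2 - 1) / (12 * (a ^ 2 + b ^ 2) ^ 2)
      - t ^ 6 * (-7 / 1080 * (4 * ((a ^ 2 - b ^ 2) / (a ^ 2 + b ^ 2)) ^ 3
          - 3 * ((a ^ 2 - b ^ 2) / (a ^ 2 + b ^ 2)))
        + (8 * ((a ^ 2 - b ^ 2) / (a ^ 2 + b ^ 2)) ^ 4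
          - 8 * ((a ^ 2 - b ^ 2) / (a ^ 2 + b ^ 2)) ^ 2 + 1) / 36) / (a ^ 2 + b ^ 2) ^ 3 := by
  have r4 : (B ^ 4).re = a ^ 4 - 6 * a ^ 2 * b ^ 2 + b ^ 4 := by
    rw [hB]; simp [pow_succ]; ring
  have r6 : (B ^ 6).re = a ^ 6 - 15 * a ^ 4 * b ^ 2 + 15 * a ^ 2 * b ^ 4 - b ^ 6 := by
    rw [hB]; simp [pow_succ]; ring
  have i7 : (B ^ 7).im = -(7 * a ^ 6 * b - 35 * a ^ 4 * b ^ 3 + 21 * a ^ 2 * b ^ 5 - b ^ 7) := by
    rw [hB]; simp [pow_succ]; ring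
  set n := a ^ 2 + b ^ 2 with hn'
  have e : I * u0 ^ 4 / 12 + I * (23 / 1080 * u0 ^ 6) + ((b / n : ℝ) : ℂ) * B * u0 ^ 6 / 18
      = (((t / n) ^ 4 / 12 : ℝ) : ℂ) * (I * B ^ 4) - ((23 / 1080 * (t / n) ^ 6 : ℝ) : ℂ) * (I * B ^ 6)
        - ((b / n * (t / n) ^ 6 / 18 : ℝ) : ℂ) * B ^ 7 := by
    have i4 : I ^ 4 = 1 := I_pow_four
    have i6 : I ^ 6 = -1 := by
      rw [show (6 : ℕ) = 4 + 2 from rfl, pow_add, i4, I_sq]; ring
    rw [hu]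
    simp only [mul_pow, i4, i6]
    push_cast
    ring
  rw [e, sub_im, sub_im, im_ofReal_mul, im_ofReal_mul, im_ofReal_mul, I_mul_im, I_mul_im, r4, r6,
    i7]
  field_simp
  rw [hn']
  ring

theorem id_aux {t u0 e η lam h u : ℂ} (hu : u = u0 - e) (he : e = lam * h)
    (hη : η = h - t * u0 ^ 3 / 3) :
    t * (u ^ 2 / 2 + u ^ 4 / 12 + 23 / 1080 * u ^ 6) = t * u ^ 2 / 2 - e * h / 2
      + ((t * u0 ^ 4 / 12 + t * (23 / 1080 * u0 ^ 6) - lam * t ^ 2 * u0 ^ 6 / 18)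
        + (t * (e ^ 2 * (6 * u0 ^ 2 - 4 * u0 * e + e ^ 2)) / 12
          + t * (23 / 1080 * ((u0 - e) ^ 6 - u0 ^ 6)) + lam * η ^ 2 / 2)) := by
  subst hu hη
  linear_combination (-(t * u0 ^ 3 / 3) + h / 2) * he

theorem lin_aux {p q n : ℝ} {u v u0 e : ℂ} (hn : n = p ^ 2 + 12 * q ^ 2) (n0 : n ≠ 0)
    (hre : p * u.re + q * v.re = 0) (him : p * u.im + q * v.im = 2 * Real.pi)
    (hX : u0.re * n = 2 * Real.pi * (2 * s3 * q)) (hY : u0.im * n = 2 * Real.pi * p)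
    (hu : u = u0 - e) :
    (tau * u ^ 2 / 2 - e * (v - tau * u) / 2).im - u.re * v.im = -(4 * s3 * Real.pi ^ 2 / n) := by
  have e1 : e = u0 - u := by rw [hu]; ring
  have tr : tau.re = 0 := by simp [tau]
  have ti : tau.im = 2 * s3 := by simp [tau]
  rw [e1]
  simp only [sq, sub_im, div_ofNat_im, mul_im, mul_re, sub_re, tr, ti]
  apply mul_left_cancel₀ (mul_ne_zero two_ne_zero n0)
  have e2 : 2 * n * -(4 * s3 * (Real.pi * Real.pi) / n) = -(8 * s3 * Real.pi ^ 2) := by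
    field_simp; ring
  rw [e2]
  linear_combination (12 * q * u.im - p * v.im) * hre
    + (p * v.re - 12 * q * u.re - 4 * Real.pi * s3) * him + 8 * Real.pi * q * u.re * s3_sq
    - (v.im - 2 * s3 * u.re) * hX - (v.re + 2 * s3 * u.im) * hY
    + (u.im * v.re - u.re * v.im) * hn

set_option maxHeartbeats 1000000 in
theorem expansion : ∃ C N0 : ℝ, 0 < C ∧ 1 ≤ N0 ∧ ∀ p q : ℤ, N0 ≤ (p : ℝ) ^ 2 + 12 * (q : ℝ) ^ 2 →
    ∃ v : ℝ, FillVol p q v ∧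
      |(v - V0) / (2 * s3 * Real.pi ^ 2)
        - MM ((p : ℝ) ^ 2 + 12 * (q : ℝ) ^ 2)
          (((p : ℝ) ^ 2 - 12 * (q : ℝ) ^ 2) / ((p : ℝ) ^ 2 + 12 * (q : ℝ) ^ 2))|
        ≤ C / ((p : ℝ) ^ 2 + 12 * (q : ℝ) ^ 2) ^ 4 := by
  obtain ⟨r, C0, hr, hr1, hC0, hA, hL⟩ := local_data
  obtain ⟨C, hCdef⟩ : ∃ C, C = C0 + 1 := ⟨_, rfl⟩
  have hC : 1 ≤ C := by linarith
  have hp := Real.pi_pos
  have hp3 := Real.pi_gt_three
  have hp4 := Real.pi_lt_four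
  refine ⟨49 * C ^ 2 * 16 ^ 8, max (256 * C) (256 / r ^ 2 + 1), by positivity,
    le_max_of_le_left (by linarith), ?_⟩
  intro p q hN
  obtain ⟨n, hn⟩ : ∃ n : ℝ, n = (p : ℝ) ^ 2 + 12 * (q : ℝ) ^ 2 := ⟨_, rfl⟩
  rw [← hn] at hN ⊢
  have hN1 : 256 * C ≤ n := (le_max_left _ _).trans hN
  have hN2 : 256 / r ^ 2 + 1 ≤ n := (le_max_right _ _).trans hN
  have n0 : 0 < n := by linarith
  obtain ⟨a, ha⟩ : ∃ a : ℝ, a = (p : ℝ) := ⟨_, rfl⟩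
  obtain ⟨b, hb⟩ : ∃ b : ℝ, b = 2 * s3 * q := ⟨_, rfl⟩
  have hb2 : b ^ 2 = 12 * (q : ℝ) ^ 2 := by rw [hb]; linear_combination 4 * (q : ℝ) ^ 2 * s3_sq
  have hab : a ^ 2 + b ^ 2 = n := by rw [hb2, ha, hn]
  obtain ⟨B, hB⟩ : ∃ B : ℂ, B = a - b * I := ⟨_, rfl⟩
  obtain ⟨A, hAdef⟩ : ∃ A : ℂ, A = p + tau * q := ⟨_, rfl⟩
  have hAB : A * B = n := by
    rw [hAdef, hB, ← hab, ha, hb]; unfold tau; push_cast
    linear_combination (-(2 * (s3 : ℂ) * q) ^ 2) * I_sq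
  have nC : (n : ℂ) ≠ 0 := by exact_mod_cast n0.ne'
  have hBn : ‖B‖ ^ 2 = n := by
    rw [← normSq_eq_norm_sq, normSq_apply, ← hab, hB]; simp; ring
  obtain ⟨ρ, hρ⟩ : ∃ ρ : ℝ, ρ = 16 / √n := ⟨_, rfl⟩
  have sn : 0 < √n := Real.sqrt_pos.mpr n0
  have sn2 : √n ^ 2 = n := Real.sq_sqrt n0.le
  have hBn' : ‖B‖ = √n := by rw [← hBn, Real.sqrt_sq (norm_nonneg _)]
  have ρ0 : 0 < ρ := by rw [hρ]; positivity
  have ρ2 : ρ ^ 2 = 256 / n := by rw [hρ, div_pow, sn2]; norm_num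
  have ρr : ρ < r := by
    apply lt_of_pow_lt_pow_left₀ 2 hr.le
    rw [ρ2, div_lt_iff₀ n0]
    have : 256 / r ^ 2 < n := by linarith
    rw [div_lt_iff₀ (by positivity)] at this
    linarith
  have ρ1 : ρ ≤ 1 := by linarith
  have Cρ : C * ρ ^ 2 ≤ 1 := by
    rw [ρ2, ← mul_div_assoc, div_le_one n0]; linarith
  have C0ρ : C0 * ρ ^ 2 ≤ 1 := by nlinarith [sq_nonneg ρ]
  obtain ⟨u0, hu0⟩ : ∃ u0 : ℂ, u0 = ((2 * Real.pi / n : ℝ) : ℂ) * I * B := ⟨_, rfl⟩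
  obtain ⟨lam, hlam⟩ : ∃ lam : ℂ, lam = ((q / n : ℝ) : ℂ) * B := ⟨_, rfl⟩
  have nu0 : ‖u0‖ ≤ ρ / 2 := by
    rw [hu0, norm_mul, norm_mul, norm_I, norm_real, Real.norm_eq_abs, abs_of_pos (by positivity),
      hBn', hρ]
    have : 2 * Real.pi / n * 1 * √n = 2 * Real.pi / √n := by
      field_simp; rw [sn2]
    rw [this, div_div, div_le_div_iff₀ sn (by positivity)]
    nlinarith
  have nlam : ‖lam‖ ≤ 1 / 2 := by
    apply le_of_sq_le_sq _ (by norm_num) |> fun h => h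
    rw [hlam, norm_mul, norm_real, mul_pow, hBn, Real.norm_eq_abs, sq_abs]
    have : (q / n) ^ 2 * n = (q : ℝ) ^ 2 / n := by field_simp
    rw [this, div_le_iff₀ n0]
    nlinarith [sq_nonneg (p : ℝ), sq_nonneg (q : ℝ)]
  set T : ℂ → ℂ := fun u => u0 - lam * (vf u - tau * u) with hT
  have hh : ∀ u : ℂ, ‖u‖ ≤ ρ → ‖vf u - tau * u‖ ≤ C0 * ρ ^ 2 * ρ := by
    intro u hu
    have := hL ρ 0 u ρr (by simpa using ρ0.le) hu
    simp only [vf_zero, mul_zero, sub_zero] at this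
    refine this.trans ?_
    gcongr
  have hmaps : MapsTo T (Metric.closedBall 0 ρ) (Metric.closedBall 0 ρ) := by
    intro u hu
    have hu' : ‖u‖ ≤ ρ := by simpa using hu
    rw [mem_closedBall_zero_iff]
    refine (norm_sub_le _ _).trans ?_
    rw [norm_mul lam]
    have x1 : ‖vf u - tau * u‖ ≤ 1 * ρ := (hh u hu').trans (by gcongr)
    have x2 : ‖lam‖ * ‖vf u - tau * u‖ ≤ 1 / 2 * (1 * ρ) := by gcongr
    linarith
  have hcontr : ContractingWith (1 / 2) (hmaps.restrict T _ _) := by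
    refine ⟨by norm_num, LipschitzWith.of_dist_le_mul ?_⟩
    rintro ⟨x, hx⟩ ⟨y, hy⟩
    have hx' : ‖x‖ ≤ ρ := by simpa using hx
    have hy' : ‖y‖ ≤ ρ := by simpa using hy
    have := hL ρ y x ρr hy' hx'
    simp only [Subtype.dist_eq, MapsTo.val_restrict_apply, dist_eq_norm, hT]
    have e : u0 - lam * (vf x - tau * x) - (u0 - lam * (vf y - tau * y))
        = -(lam * ((vf x - tau * x) - (vf y - tau * y))) := by ring
    rw [e, norm_neg, norm_mul]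
    have x1 : ‖(vf x - tau * x) - (vf y - tau * y)‖ ≤ 1 * ‖x - y‖ := this.trans (by gcongr)
    calc _ ≤ 1 / 2 * (1 * ‖x - y‖) := by gcongr
      _ = _ := by push_cast; ring
  obtain ⟨u, hu, hfix, -⟩ := hcontr.exists_fixedPoint' Metric.isClosed_closedBall.isComplete hmaps
    (x := 0) (by simpa using ρ0.le) (edist_ne_top _ _)
  have hu' : ‖u‖ ≤ ρ := by simpa using hu
  have hfix' : u0 - lam * (vf u - tau * u) = u := hfix
  obtain ⟨hg, h7, h8⟩ := hA u (by linarith)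
  have hAu0 : A * u0 = 2 * Real.pi * I := by
    rw [hu0]; push_cast; field_simp; linear_combination hAB
  have hAl : A * lam = q := by
    rw [hlam]; push_cast; field_simp; linear_combination (q : ℂ) * hAB
  have hfill : (p : ℂ) * u + q * vf u = 2 * Real.pi * I := by
    have : A * u = 2 * Real.pi * I - q * (vf u - tau * u) := by
      rw [← hAu0, ← hAl]; linear_combination (-A) * hfix'
    rw [hAdef] at this
    linear_combination this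
  refine ⟨Vf u, ⟨zf u, wf u, ⟨hg.2.1, hg.2.2.1, good_edge hg, ?_⟩, rfl⟩, ?_⟩
  · rw [good_u hg]; exact hfill
  set h : ℂ := vf u - tau * u with hhdef
  set e : ℂ := lam * h with he
  set η : ℂ := h - tau * u0 ^ 3 / 3 with hη
  have hue : u = u0 - e := hfix'.symm
  have ne : ‖e‖ ≤ C * ρ ^ 3 := by
    rw [he, norm_mul]
    have x1 := hh u hu'
    have x2 : ‖lam‖ * ‖h‖ ≤ 1 * (C0 * ρ ^ 2 * ρ) :=
      mul_le_mul (by linarith) x1 (norm_nonneg _) (by norm_num)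
    have x3 : C0 * ρ ^ 3 ≤ C * ρ ^ 3 := by gcongr; linarith
    linarith
  have nu0' : ‖u0‖ ≤ ρ := by linarith
  have nη : ‖η‖ ≤ 9 * C * ρ ^ 4 := by
    have e1 : η = (vf u - P1 u) + tau * (-e * (u ^ 2 + u * u0 + u0 ^ 2) / 3 + 23 / 180 * u ^ 5) := by
      have : e = u0 - u := by rw [hue]; ring
      rw [hη, hhdef, this]; unfold P1; ring
    have x1 : ‖vf u - P1 u‖ ≤ C * ρ ^ 4 := by
      refine h7.trans ?_
      have : ‖u‖ ^ 7 ≤ ρ ^ 4 :=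
        (pow_le_pow_left₀ (norm_nonneg _) hu' 7).trans (pow_le_pow_of_le_one ρ0.le ρ1 (by norm_num))
      gcongr; linarith
    have x2 : ‖u ^ 2 + u * u0 + u0 ^ 2‖ ≤ 3 * ρ ^ 2 := by
      calc _ ≤ ‖u ^ 2‖ + ‖u * u0‖ + ‖u0 ^ 2‖ :=
            (norm_add_le _ _).trans (add_le_add_left (norm_add_le _ _) _)
        _ ≤ ρ ^ 2 + ρ * ρ + ρ ^ 2 := by simp only [norm_mul, norm_pow]; gcongr
        _ = _ := by ring
    have r5 : ρ ^ 5 ≤ ρ ^ 4 := pow_le_pow_of_le_one ρ0.le ρ1 (by norm_num)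
    have x3 : ‖-e * (u ^ 2 + u * u0 + u0 ^ 2) / 3‖ ≤ C * ρ ^ 4 := by
      rw [norm_div, norm_mul, norm_neg, Complex.norm_ofNat]
      calc _ ≤ C * ρ ^ 3 * (3 * ρ ^ 2) / 3 := by gcongr
        _ = C * ρ ^ 5 := by ring
        _ ≤ _ := by gcongr
    have x4 : ‖23 / 180 * u ^ 5‖ ≤ C * ρ ^ 4 := by
      rw [norm_mul, norm_pow]
      have : ‖(23 / 180 : ℂ)‖ = 23 / 180 := by simp
      rw [this]
      have y : ‖u‖ ^ 5 ≤ ρ ^ 4 := (pow_le_pow_left₀ (norm_nonneg _) hu' 5).trans r5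
      exact mul_le_mul (by linarith) y (by positivity) (by linarith)
    have x5 : ‖tau * (-e * (u ^ 2 + u * u0 + u0 ^ 2) / 3 + 23 / 180 * u ^ 5)‖
        ≤ 4 * (C * ρ ^ 4 + C * ρ ^ 4) := by
      rw [norm_mul]
      exact mul_le_mul norm_tau ((norm_add_le _ _).trans (add_le_add x3 x4)) (norm_nonneg _)
        (by norm_num)
    rw [e1]
    refine (norm_add_le _ _).trans ?_
    linarith
  have hrem := rem_bound hC nu0' (by rw [← hue]; exact hu') ne nη (lam := lam) (by linarith)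
  set Rm := tau * (e ^ 2 * (6 * u0 ^ 2 - 4 * u0 * e + e ^ 2)) / 12
      + tau * (23 / 1080 * ((u0 - e) ^ 6 - u0 ^ 6)) + lam * η ^ 2 / 2 with hRm
  have hmain := main_im (a := a) (b := b) (t := 2 * Real.pi) (by rw [hab]; exact n0.ne') hB
    (u0 := u0) (by rw [hab, hu0])
  rw [hab] at hmain
  set Mn := I * u0 ^ 4 / 12 + I * (23 / 1080 * u0 ^ 6) + ((b / n : ℝ) : ℂ) * B * u0 ^ 6 / 18
    with hMn
  have hlt : lam * tau ^ 2 = -(2 * s3) * (((b / n : ℝ) : ℂ) * B) := by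
    rw [hlam, hb]; unfold tau; push_cast
    linear_combination (q / n * B * (2 * (s3 : ℂ)) ^ 2) * I_sq
  have hid : P0 u = tau * u ^ 2 / 2 - e * h / 2 + (((2 * s3 : ℝ) : ℂ) * Mn + Rm) := by
    have e1 : ((2 * s3 : ℝ) : ℂ) * Mn
        = tau * u0 ^ 4 / 12 + tau * (23 / 1080 * u0 ^ 6) - lam * tau ^ 2 * u0 ^ 6 / 18 := by
      rw [hlt, hMn]; unfold tau; push_cast; ring
    rw [e1]
    exact id_aux hue he hη
  have hre := congrArg Complex.re hfill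
  have him := congrArg Complex.im hfill
  simp at hre him
  have hlin : (tau * u ^ 2 / 2 - e * h / 2).im - u.re * (vf u).im = -(4 * s3 * Real.pi ^ 2 / n) := by
    refine lin_aux hn n0.ne' hre him ?_ ?_ hue
    · rw [hu0, hB, ← hb]
      simp only [mul_re, mul_im, ofReal_re, ofReal_im, I_re, I_im, sub_re, sub_im]
      field_simp; ring
    · rw [hu0, hB, ← ha]
      simp only [mul_re, mul_im, ofReal_re, ofReal_im, I_re, I_im, sub_re, sub_im]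
      field_simp; ring
  have hkap : a ^ 2 - b ^ 2 = (p : ℝ) ^ 2 - 12 * (q : ℝ) ^ 2 := by rw [hb2, ha]
  rw [hkap] at hmain
  generalize ((p : ℝ) ^ 2 - 12 * (q : ℝ) ^ 2) / n = k at hmain ⊢
  have s0 := s3_pos
  have hval : ((P0 u).im - u.re * (vf u).im) / 2 = 2 * s3 * Real.pi ^ 2 * MM n k + Rm.im / 2 := by
    rw [hid, add_im, add_im, im_ofReal_mul, hmain]
    unfold MM
    linear_combination (1 / 2) * hlin
  have hden : 1 ≤ 2 * s3 * Real.pi ^ 2 := by nlinarith [s3_gt]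
  have e5 : (Vf u - V0) / (2 * s3 * Real.pi ^ 2) - MM n k
      = ((Vf u - V0 - ((P0 u).im - u.re * (vf u).im) / 2) + Rm.im / 2) / (2 * s3 * Real.pi ^ 2) := by
    rw [hval]; field_simp; ring
  rw [e5, abs_div, abs_of_pos (a := 2 * s3 * Real.pi ^ 2) (by positivity)]
  refine (div_le_self (abs_nonneg _) hden).trans ?_
  refine (abs_add_le _ _).trans ?_
  have y1 : |Rm.im / 2| ≤ 48 * C ^ 2 * ρ ^ 8 := by
    rw [abs_div, abs_two]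
    have := abs_im_le_norm Rm
    have := abs_nonneg Rm.im
    linarith
  have y2 : C0 * ‖u‖ ^ 8 ≤ C ^ 2 * ρ ^ 8 := by gcongr; nlinarith
  have y3 : ρ ^ 8 = 16 ^ 8 / n ^ 4 := by
    rw [show ρ ^ 8 = (ρ ^ 2) ^ 4 by ring, ρ2, div_pow]; norm_num
  have y4 : 49 * C ^ 2 * 16 ^ 8 / n ^ 4 = 49 * C ^ 2 * ρ ^ 8 := by rw [y3]; ring
  rw [y4]
  linarith

end Pool.Agent.P.MP_858e15_gt
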