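import Pool.Agent.P.MP_858e15_gt.Adm

namespace Pool.Agent.P.MP_858e15_gt

open Real

theorem iso_angle {c K Z : ℝ} {P Q : V} (hZ : 40 ≤ Z) (hP : Near 0 c K Z P) (hQ : Near 0 c K Z Q)
    (hB : BB P Q = 0) : |th P - th Q| = |th' P - th' Q| := by
  obtain ⟨a1, -, -, -, -, -, a2, a3⟩ := near_basic (by norm_num) hZ hP
  obtain ⟨b1, -, -, -, -, -, b2, b3⟩ := near_basic (by norm_num) hZ hQ
  obtain ⟨p0, -, p2, -, -⟩ := hP
  obtain ⟨q0, -, q2, -, -⟩ := hQ
  simp only [Int.cast_zero, add_zero] at a1 b1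
  obtain ⟨t1, -⟩ := two_vec (p0 0) (p0 1) (q0 0) (q0 1) (NN_cast P) (NN_cast Q) (by linarith)
    (by linarith)
  obtain ⟨t3, -⟩ := two_vec (p0 2) (p0 3) (q0 2) (q0 3) (NN'_cast P) (NN'_cast Q) (by linarith)
    (by linarith)
  change _ = _ * cos (th P - th Q) at t1
  change _ = _ * cos (th' P - th' Q) at t3
  have e : (BB P Q : ℝ) = 0 := by exact_mod_cast hB
  unfold BB at e
  push_cast at e
  rw [t1, t3, a1, b1, ← mul_sub] at e
  have s1 : 0 < √(NN P : ℝ) := sqrt_pos.mpr (by linarith)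
  have s2 : 0 < √(NN Q : ℝ) := sqrt_pos.mpr (by linarith)
  have e2 := sub_eq_zero.mp ((mul_eq_zero.mp e).resolve_left (mul_pos s1 s2).ne')
  have hp := pi_pos
  apply injOn_cos ⟨abs_nonneg _, _⟩ ⟨abs_nonneg _, _⟩
  · rw [cos_abs, cos_abs, e2]
  · rw [abs_le]; constructor <;> linarith [a2.1, a2.2, b2.1, b2.2]
  · rw [abs_le]; constructor <;> linarith [a3.1, a3.2, b3.1, b3.2]

theorem iso_sep {c K Z : ℝ} {P Q : V} (hZ : 40 ≤ Z) (hP : Near 0 c K Z P) (hQ : Near 0 c K Z Q)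
    (hB : BB P Q = 0) (pP : Prim P) (pQ : Prim Q) (hne : P ≠ Q) : 1 / Z ≤ |th P - th Q| := by
  have hang := iso_angle hZ hP hQ hB
  obtain ⟨a1, -, -, -, -, -, a2, a3⟩ := near_basic (by norm_num) hZ hP
  obtain ⟨b1, -, -, -, -, -, b2, b3⟩ := near_basic (by norm_num) hZ hQ
  obtain ⟨p0, -, p2, p3, -⟩ := hP
  obtain ⟨q0, -, q2, q3, -⟩ := hQ
  simp only [Int.cast_zero, add_zero] at a1 b1
  have Z0 : 0 < Z := by linarith
  obtain ⟨-, t2⟩ := two_vec (p0 0) (p0 1) (q0 0) (q0 1) (NN_cast P) (NN_cast Q) (by linarith)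
    (by linarith)
  change _ = _ * sin (th P - th Q) ^ 2 at t2
  have hp := pi_pos
  by_cases hi : ii P Q = 0
  · exfalso
    have e : (ii P Q : ℝ) = (P 0 : ℝ) * Q 1 - P 1 * Q 0 := by unfold ii; push_cast; ring
    rw [← e, hi] at t2
    have s0 : sin (th P - th Q) = 0 := by
      have h1 : (0 : ℝ) < NN P * NN Q := mul_pos (by linarith) (by linarith)
      have h2 : (NN P : ℝ) * NN Q * sin (th P - th Q) ^ 2 = 0 := by rw [← t2]; simp
      exact pow_eq_zero_iff two_ne_zero |>.mp ((mul_eq_zero.mp h2).resolve_left h1.ne')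
    have e1 : th P - th Q = 0 := (sin_eq_zero_iff_of_lt_of_lt
      (by linarith [a2.1, b2.2]) (by linarith [a2.2, b2.1])).mp s0
    have e2 : th' P - th' Q = 0 := by rw [e1, abs_zero] at hang; exact abs_eq_zero.mp hang.symm
    obtain ⟨-, -, c1, c2, -⟩ := ang_facts (p0 0) (p0 1) (NN_cast P) (by linarith)
    obtain ⟨-, -, c3, c4', -⟩ := ang_facts (p0 2) (p0 3) (NN'_cast P) (by linarith)
    obtain ⟨-, -, d1, d2, -⟩ := ang_facts (q0 0) (q0 1) (NN_cast Q) (by linarith)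
    obtain ⟨-, -, d3, d4, -⟩ := ang_facts (q0 2) (q0 3) (NN'_cast Q) (by linarith)
    have f1 : ang (P 0) (P 1) = ang (Q 0) (Q 1) := sub_eq_zero.mp e1
    have f2 : ang (P 2) (P 3) = ang (Q 2) (Q 3) := sub_eq_zero.mp e2
    rw [f1] at c1 c2
    rw [f2, a1] at c3 c4'
    rw [b1] at d3 d4
    have s1 : 0 < √(NN P : ℝ) := sqrt_pos.mpr (by linarith)
    have s2 : 0 < √(NN Q : ℝ) := sqrt_pos.mpr (by linarith)
    generalize √(NN P : ℝ) = x at *
    generalize √(NN Q : ℝ) = y at *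
    have s3' : 2 * s3 ≠ 0 := by have := s3_pos; positivity
    have g0 : (P 0 : ℝ) * y = Q 0 * x := by rw [← c1, ← d1]; ring
    have g1 : (P 1 : ℝ) * y = Q 1 * x := by
      apply mul_left_cancel₀ s3'; rw [← mul_assoc, ← mul_assoc, ← c2, ← d2]; ring
    have g2 : (P 2 : ℝ) * y = Q 2 * x := by rw [← c3, ← d3]; ring
    have g3 : (P 3 : ℝ) * y = Q 3 * x := by
      apply mul_left_cancel₀ s3'; rw [← mul_assoc, ← mul_assoc, ← c4', ← d4]; ring
    obtain ⟨u, hu⟩ := pP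
    obtain ⟨w, hw⟩ := pQ
    have hu' : (u 0 : ℝ) * P 0 + u 1 * P 1 + u 2 * P 2 + u 3 * P 3 = 1 := by exact_mod_cast hu
    have hw' : (w 0 : ℝ) * Q 0 + w 1 * Q 1 + w 2 * Q 2 + w 3 * Q 3 = 1 := by exact_mod_cast hw
    obtain ⟨a, ha⟩ : ∃ a : ℤ, a = u 0 * Q 0 + u 1 * Q 1 + u 2 * Q 2 + u 3 * Q 3 := ⟨_, rfl⟩
    obtain ⟨b, hb⟩ : ∃ b : ℤ, b = w 0 * P 0 + w 1 * P 1 + w 2 * P 2 + w 3 * P 3 := ⟨_, rfl⟩
    have ha' : y = a * x := by
      rw [ha]; push_cast
      linear_combination (-y) * hu' + u 0 * g0 + u 1 * g1 + u 2 * g2 + u 3 * g3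
    have hb' : x = b * y := by
      rw [hb]; push_cast
      linear_combination (-x) * hw' - w 0 * g0 - w 1 * g1 - w 2 * g2 - w 3 * g3
    have a0 : (0 : ℝ) < a := by
      by_contra hc; push Not at hc; nlinarith
    have b0 : (0 : ℝ) < b := by
      by_contra hc; push Not at hc; nlinarith
    have a1' : (1 : ℝ) ≤ a := by exact_mod_cast (show (1 : ℤ) ≤ a by exact_mod_cast a0)
    have b1' : (1 : ℝ) ≤ b := by exact_mod_cast (show (1 : ℤ) ≤ b by exact_mod_cast b0)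
    have xy : x = y := by nlinarith
    apply hne
    rw [xy] at g0 g1 g2 g3
    funext i
    fin_cases i
    · exact_mod_cast mul_right_cancel₀ s2.ne' g0
    · exact_mod_cast mul_right_cancel₀ s2.ne' g1
    · exact_mod_cast mul_right_cancel₀ s2.ne' g2
    · exact_mod_cast mul_right_cancel₀ s2.ne' g3
  · have e : (ii P Q : ℝ) = (P 0 : ℝ) * Q 1 - P 1 * Q 0 := by unfold ii; push_cast; ring
    rw [← e] at t2
    have i1 : 1 ≤ ii P Q ^ 2 := by have := sq_pos_of_ne_zero hi; omega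
    have i2 : (1 : ℝ) ≤ (ii P Q : ℝ) ^ 2 := by exact_mod_cast i1
    have s1 := sin_sq_le_sq (x := th P - th Q)
    have s2 : (NN P : ℝ) * NN Q * sin (th P - th Q) ^ 2 ≤ (2 * Z) * (2 * Z) * (th P - th Q) ^ 2 := by
      gcongr; linarith
    rw [div_le_iff₀ Z0]
    apply le_of_sq_le_sq _ (by positivity)
    rw [mul_pow, sq_abs]
    linarith

theorem iso_class {c K Z : ℝ} (hc1 : 0.15 ≤ |c|) (hc2 : |c| ≤ 1.99) (hK : 0 ≤ K)
    (hZ : 1000000 * (1 + 10 * K) ≤ Z) (S : Finset V) (t : (Bool × Bool) × ℕ)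
    (hS : ∀ P ∈ S, Near 0 c K Z P ∧ Prim P ∧ lab Z P = t)
    (hB : ∀ P ∈ S, ∀ Q ∈ S, BB P Q = BB P P) :
    (S.card : ℝ) ≤ (3 + 230 * K) * √Z * (1 / (|(t.2 : ℝ) - π * √Z| + 1)) + 1 := by
  have Z1 : 40 ≤ Z := by linarith
  have Z0 : 0 < Z := by linarith
  obtain ⟨H, hH⟩ : ∃ H, H = √Z := ⟨_, rfl⟩
  have H0 : 0 < H := by rw [hH]; exact sqrt_pos.mpr Z0
  have H2 : H ^ 2 = Z := by rw [hH]; exact sq_sqrt Z0.le
  have hB0 : ∀ P ∈ S, ∀ Q ∈ S, BB P Q = 0 := by
    intro P hP Q hQ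
    rw [hB P hP Q hQ, BB_self, (hS P hP).1.2.1]; ring
  obtain ⟨u, hu⟩ : ∃ u, u = |(t.2 : ℝ) - π * H| + 1 := ⟨_, rfl⟩
  have u0 : 0 < u := by rw [hu]; positivity
  have key := sep_card S (fun P => fold (th P)) (l := (3 + 230 * K) / (H * u)) (η := 4 / Z)
    (by positivity) (by positivity) (by
      intro P hP Q hQ
      obtain ⟨p1, -, p3⟩ := hS P hP
      obtain ⟨q1, -, q3⟩ := hS Q hQ
      obtain ⟨s1, -, s3', s4⟩ := same_lab (by norm_num) Z1 p1 q1 (p3.trans q3.symm)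
      obtain ⟨-, -, -, a1, a2, a3, -⟩ := near_basic (by norm_num) Z1 p1
      obtain ⟨-, -, -, b1, b2, b3, -⟩ := near_basic (by norm_num) Z1 q1
      have ia := iso_angle Z1 p1 q1 (hB0 P hP Q hQ)
      have hj : ⌊√Z * (fold (th P) + fold (th' P))⌋₊ = t.2 := congrArg Prod.snd p3
      have f1 := Nat.floor_le (show 0 ≤ √Z * (fold (th P) + fold (th' P)) by
        have := a1.1; have := a2.1; positivity)
      have f2 := Nat.lt_floor_add_one (√Z * (fold (th P) + fold (th' P)))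
      rw [hj, ← hH] at f1 f2
      have he : |fold (th Q) - fold (th P)| = |fold (th' Q) - fold (th' P)| := by
        rw [abs_sub_comm, s3', abs_sub_comm (fold (th' Q)), s4, ia]
      generalize fold (th P) = a at *
      generalize fold (th Q) = b at *
      generalize fold (th' P) = a' at *
      generalize fold (th' Q) = b' at *
      have s5 : (b - a) ^ 2 ≤ (1 + 10 * K) / Z := by
        rw [show (b - a) ^ 2 = (a - b) ^ 2 by ring]; exact s1
      have w1 : (1 + 10 * K) / Z ≤ 1 / 1000000 := by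
        rw [div_le_div_iff₀ Z0 (by norm_num)]; linarith
      have w2 : K / Z ≤ 1 / 1000 := by
        rw [div_le_div_iff₀ Z0 (by norm_num)]; linarith
      have hd : |b - a| ≤ 1 / 1000 := abs_le_of_sq_le_sq (by linarith) (by norm_num)
      have tl := tangent_lemma a1 b1 a2 b2 a3 b3 hc1 hc2 w2 hd he
      have w3 : |b - a| * H ≤ 1 + 10 * K := by
        apply le_of_sq_le_sq _ (by positivity)
        rw [mul_pow, sq_abs, H2]
        rw [le_div_iff₀ Z0] at s5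
        nlinarith
      have w4 : u ≤ H * |π - (a + a')| + 2 := by
        rw [hu]
        have x1 : |(t.2 : ℝ) - π * H| ≤ |(t.2 : ℝ) - H * (a + a')| + |H * (a + a') - π * H| :=
          abs_sub_le _ _ _
        have x2 : |(t.2 : ℝ) - H * (a + a')| ≤ 1 := by rw [abs_le]; constructor <;> linarith
        have x3 : |H * (a + a') - π * H| = H * |π - (a + a')| := by
          rw [show H * (a + a') - π * H = -(H * (π - (a + a'))) by ring, abs_neg, abs_mul,
            abs_of_pos H0]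
        linarith
      have w5 : |b - a| * |π - (a + a')| * Z ≤ 1 + 210 * K := by
        have : 200 * (K / Z) + (1 + 10 * K) / Z = (1 + 210 * K) / Z := by ring
        rw [← le_div_iff₀ Z0]; linarith
      rw [le_div_iff₀ (by positivity)]
      have D0 := abs_nonneg (b - a)
      calc |b - a| * (H * u) ≤ |b - a| * (H * (H * |π - (a + a')| + 2)) := by gcongr
        _ = |b - a| * |π - (a + a')| * Z + 2 * (|b - a| * H) := by rw [← H2]; ring
        _ ≤ _ := by linarith) (by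
      intro P hP Q hQ hne
      obtain ⟨p1, p2, p3⟩ := hS P hP
      obtain ⟨q1, q2, q3⟩ := hS Q hQ
      obtain ⟨-, -, s3', -⟩ := same_lab (by norm_num) Z1 p1 q1 (p3.trans q3.symm)
      have := iso_sep Z1 p1 q1 (hB0 P hP Q hQ) p2 q2 hne
      rw [abs_sub_comm, s3', div_eq_mul_one_div]
      linarith)
  rw [← hH, ← hu]
  refine key.trans ?_
  have e : 2 * ((3 + 230 * K) / (H * u)) / (4 / Z) = (3 + 230 * K) * H * (1 / u) / 2 := by
    rw [← H2]; field_simp; norm_num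
  have : 0 ≤ (3 + 230 * K) * H * (1 / u) := by positivity
  rw [e]; linarith

theorem iso_shell_big {K : ℝ} (hK : 0 ≤ K) : ∃ C : ℝ, 0 < C ∧ ∀ (c Z : ℝ) (S : Finset V),
    0.15 ≤ |c| → |c| ≤ 1.99 → 1000000 * (1 + 10 * K) ≤ Z →
    (∀ P ∈ S, Near 0 c K Z P ∧ Prim P) → (S.card : ℝ) ≤ C * √Z * (1 + log Z) := by
  classical
  obtain ⟨L, hL⟩ : ∃ L : ℕ, L = ⌈2 * K + 60⌉₊ := ⟨_, rfl⟩
  obtain ⟨E, hE⟩ : ∃ E : ℝ, E = ((2 * L + 1) ^ 4 : ℕ) := ⟨_, rfl⟩
  have E0 : 0 < E := by rw [hE]; positivity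
  refine ⟨4 * E * (16 * (3 + 230 * K) + 8), by positivity, ?_⟩
  intro c Z S hc1 hc2 hZ hS
  have Z1 : 40 ≤ Z := by linarith
  have Z0 : 0 < Z := by linarith
  have H1 : 1 ≤ √Z := le_sqrt_of_sq_le (by linarith)
  have HZ : √Z ≤ Z := by rw [sqrt_le_iff]; constructor <;> nlinarith
  obtain ⟨M, hM⟩ : ∃ M : ℕ, M = ⌊7 * √Z⌋₊ + 1 := ⟨_, rfl⟩
  have M1 : (M : ℝ) ≤ 7 * √Z + 1 := by
    rw [hM]; push_cast; linarith [Nat.floor_le (show 0 ≤ 7 * √Z by positivity)]
  have M2 : 7 * √Z ≤ M := by rw [hM]; push_cast; exact (Nat.lt_floor_add_one _).le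
  have fib : ∀ t : (Bool × Bool) × ℕ, ((S.filter fun P => lab Z P = t).card : ℝ)
      ≤ E * ((3 + 230 * K) * √Z * (1 / (|(t.2 : ℝ) - π * √Z| + 1)) + 1) := by
    intro t
    have h1 := classes (S.filter fun P => lab Z P = t) L
      ⌊(3 + 230 * K) * √Z * (1 / (|(t.2 : ℝ) - π * √Z| + 1)) + 1⌋₊ (by
        intro P hP Q hQ
        obtain ⟨p1, p2⟩ := Finset.mem_filter.mp hP
        obtain ⟨q1, q2⟩ := Finset.mem_filter.mp hQ
        have := (gram (by norm_num) Z1 hK (hS P p1).1 (hS Q q1).1 (p2.trans q2.symm)).1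
        have h2 : |(BB P Q : ℝ)| ≤ (L : ℝ) := by rw [hL]; exact this.trans (Nat.le_ceil _)
        exact_mod_cast h2) (by
        intro S' hS' hB
        apply Nat.le_floor
        apply iso_class hc1 hc2 hK hZ S' t _ hB
        intro P hP
        obtain ⟨p1, p2⟩ := Finset.mem_filter.mp (hS' hP)
        exact ⟨(hS P p1).1, (hS P p1).2, p2⟩)
    have h2 : ((S.filter fun P => lab Z P = t).card : ℝ)
        ≤ (⌊(3 + 230 * K) * √Z * (1 / (|(t.2 : ℝ) - π * √Z| + 1)) + 1⌋₊ : ℝ) * E := by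
      rw [hE]; exact_mod_cast h1
    rw [mul_comm E]
    exact h2.trans (mul_le_mul_of_nonneg_right (Nat.floor_le (by positivity)) E0.le)
  have tot := Finset.card_eq_sum_card_fiberwise (s := S) (f := lab Z)
    (t := (Finset.univ : Finset (Bool × Bool)) ×ˢ Finset.range M)
    (fun P hP => by rw [hM]; exact lab_mem (by norm_num) Z1 (hS P hP).1)
  have hs := harm_sum M (x := π * √Z) (by positivity) (by nlinarith [pi_lt_four])
  have lg : log ((M : ℝ) + 1) ≤ 3 + log Z := by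
    have h1 : log ((M : ℝ) + 1) ≤ log (9 * Z) := log_le_log (by positivity) (by linarith)
    rw [log_mul (by norm_num) Z0.ne'] at h1
    have h2 : log 9 ≤ 3 := by
      rw [show (9 : ℝ) = 3 ^ 2 by norm_num, log_pow]
      have : log 3 ≤ 3 / 2 := by
        rw [log_le_iff_le_exp (by norm_num)]
        have := add_one_le_exp (3 / 4 : ℝ)
        rw [show (3 / 2 : ℝ) = 3 / 4 + 3 / 4 by norm_num, exp_add]
        nlinarith
      push_cast; linarith
    linarith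
  have lg0 : 0 ≤ log Z := log_nonneg (by linarith)
  rw [tot]
  push_cast
  refine (Finset.sum_le_sum fun t _ => fib t).trans ?_
  rw [Finset.sum_product]
  simp only [Finset.sum_const, Finset.card_univ, Fintype.card_prod, Fintype.card_bool, nsmul_eq_mul]
  rw [← Finset.mul_sum, Finset.sum_add_distrib, ← Finset.mul_sum, Finset.sum_const,
    Finset.card_range, nsmul_eq_mul, mul_one]
  have y1 : (3 + 230 * K) * √Z * ∑ j ∈ Finset.range M, 1 / (|(j : ℝ) - π * √Z| + 1)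
      ≤ (3 + 230 * K) * √Z * (16 * (1 + log Z)) := by gcongr; linarith
  have y2 : (M : ℝ) ≤ 8 * √Z * (1 + log Z) := by nlinarith
  push_cast
  calc _ ≤ 4 * (E * ((3 + 230 * K) * √Z * (16 * (1 + log Z)) + 8 * √Z * (1 + log Z))) := by
        gcongr
    _ = _ := by ring

theorem iso_shell {K : ℝ} (hK : 0 ≤ K) : ∃ C : ℝ, 0 < C ∧ ∀ (c Z : ℝ) (S : Finset V),
    0.15 ≤ |c| → |c| ≤ 1.99 → 1 ≤ Z →
    (∀ P ∈ S, Near 0 c K Z P ∧ Prim P) → (S.card : ℝ) ≤ C * √Z * (1 + log Z) := by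
  obtain ⟨C, hC, h⟩ := iso_shell_big hK
  obtain ⟨M, hM⟩ : ∃ M : ℕ, M = ⌈2 * (1000000 * (1 + 10 * K))⌉₊ := ⟨_, rfl⟩
  obtain ⟨E, hE⟩ : ∃ E : ℝ, E = ((M + 1) ^ 4 : ℕ) := ⟨_, rfl⟩
  have E0 : 0 < E := by rw [hE]; positivity
  refine ⟨C + E, by positivity, ?_⟩
  intro c Z S hc1 hc2 hZ hS
  have H1 : 1 ≤ √Z := le_sqrt_of_sq_le (by linarith)
  have lg0 : 0 ≤ log Z := log_nonneg hZ
  have w : 1 ≤ √Z * (1 + log Z) := by nlinarith
  rcases le_or_gt (1000000 * (1 + 10 * K)) Z with hb | hb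
  · have := h c Z S hc1 hc2 hb hS
    nlinarith
  · have h1 : S ⊆ Fintype.piFinset fun _ : Fin 4 => Finset.Icc (0 : ℤ) M := by
      intro P hP
      obtain ⟨p0, p1, -, p3, -⟩ := (hS P hP).1
      have n1 : (NN P : ℝ) ≤ M := by rw [hM]; exact le_trans (by linarith) (Nat.le_ceil _)
      have n2 : NN P ≤ M := by exact_mod_cast n1
      have n3 : NN' P ≤ M := by omega
      unfold NN at n2
      unfold NN' at n3
      rw [Fintype.mem_piFinset]
      intro i
      refine Finset.mem_Icc.mpr ⟨p0 i, ?_⟩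
      fin_cases i <;> simp only [Fin.zero_eta, Fin.mk_one, Fin.reduceFinMk]
      · nlinarith [sq_nonneg (P 0 - 1), sq_nonneg (P 1), sq_nonneg (P 0)]
      · nlinarith [sq_nonneg (P 1 - 1), sq_nonneg (P 1), sq_nonneg (P 0)]
      · nlinarith [sq_nonneg (P 2 - 1), sq_nonneg (P 3), sq_nonneg (P 2)]
      · nlinarith [sq_nonneg (P 3 - 1), sq_nonneg (P 3), sq_nonneg (P 2)]
    have h2 := Finset.card_le_card h1
    rw [Fintype.card_piFinset] at h2
    simp only [Int.card_Icc, Finset.prod_const, Finset.card_univ, Fintype.card_fin] at h2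
    rw [show ((M : ℤ) + 1 - 0).toNat = M + 1 by omega] at h2
    have h3 : (S.card : ℝ) ≤ E := by rw [hE]; exact_mod_cast h2
    nlinarith

end Pool.Agent.P.MP_858e15_gt
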