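import Mathlib

namespace Pool.Agent.P.MP_858e15_gt

open Polynomial Complex Filter
open scoped Nat

theorem lind {ι : Type*} (s : Finset ι) (r : ι → ℂ) (w : ι → ℤ) (f : ℤ[X]) (hf : f.eval 0 ≠ 0)
    (hr : ∀ j ∈ s, aeval (r j) f = 0) (k A : ℤ) (hk : k ≠ 0) (hA : A ≠ 0)
    (hint : ∀ m : ℕ, ∃ z : ℤ, (A : ℂ) ^ m * ∑ j ∈ s, w j * r j ^ m = z) :
    (k : ℂ) + ∑ j ∈ s, w j * cexp (r j) ≠ 0 := by
  intro h0
  obtain ⟨c, hc⟩ := LindemannWeierstrass.exp_polynomial_approx f hf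
  have f0 : f ≠ 0 := by rintro rfl; simp at hf
  obtain ⟨W, hW⟩ : ∃ W : ℝ, W = ∑ j ∈ s, |(w j : ℝ)| := ⟨_, rfl⟩
  have W0 : 0 ≤ W := by rw [hW]; positivity
  obtain ⟨x, hx⟩ : ∃ x : ℝ, x = |(A : ℝ)| ^ f.natDegree * |c| := ⟨_, rfl⟩
  have lim := ((FloorSemiring.tendsto_pow_div_factorial_atTop x).const_mul (W * x))
  rw [mul_zero] at lim
  obtain ⟨N, hN⟩ := eventually_atTop.mp (lim.eventually_lt_const one_pos)
  obtain ⟨p, p1, pp⟩ := Nat.exists_infinite_primes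
    (N + 1 + (f.eval 0).natAbs + k.natAbs + A.natAbs)
  obtain ⟨n, n1, g, g1, g2⟩ := hc p (by omega) pp
  obtain ⟨D, hD⟩ : ∃ D, D = p * f.natDegree := ⟨_, rfl⟩
  choose z hz using hint
  have e1 : (A : ℂ) ^ D * ∑ j ∈ s, w j * aeval (r j) g
      = ((∑ m ∈ Finset.range (D + 1), g.coeff m * A ^ (D - m) * z m : ℤ) : ℂ) := by
    have e : ∀ j, aeval (r j) g = ∑ m ∈ Finset.range (D + 1), (g.coeff m : ℂ) * r j ^ m := by
      intro j
      rw [aeval_eq_sum_range' (n := D + 1) (by omega)]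
      simp [zsmul_eq_mul]
    simp only [e, Finset.mul_sum]
    rw [Finset.sum_comm]
    push_cast
    apply Finset.sum_congr rfl
    intro m hm
    rw [← hz, Finset.mul_sum, Finset.mul_sum]
    apply Finset.sum_congr rfl
    intro j _
    have : (A : ℂ) ^ D = A ^ (D - m) * A ^ m := by
      rw [← pow_add]; congr 1; have := Finset.mem_range.mp hm; omega
    rw [this]; ring
  obtain ⟨Z, hZ⟩ : ∃ Z : ℤ, (A : ℂ) ^ D * ∑ j ∈ s, w j * aeval (r j) g = Z := ⟨_, e1⟩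
  have e2 : ((A ^ D * (k * n) + p * Z : ℤ) : ℂ)
      = -(A : ℂ) ^ D * ∑ j ∈ s, w j * (n • cexp (r j) - p • aeval (r j) g) := by
    have e3 : ∑ j ∈ s, (w j : ℂ) * (n • cexp (r j) - p • aeval (r j) g)
        = n * ∑ j ∈ s, w j * cexp (r j) - p * ∑ j ∈ s, w j * aeval (r j) g := by
      rw [Finset.mul_sum, Finset.mul_sum, ← Finset.sum_sub_distrib]
      apply Finset.sum_congr rfl
      intro j _
      rw [zsmul_eq_mul, nsmul_eq_mul]; ring
    rw [e3]
    push_cast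
    rw [← hZ]
    linear_combination (A : ℂ) ^ D * n * h0
  have b1 : ‖((A ^ D * (k * n) + p * Z : ℤ) : ℂ)‖ < 1 := by
    rw [e2, norm_mul, norm_neg, norm_pow, Complex.norm_intCast]
    have b2 : ‖∑ j ∈ s, (w j : ℂ) * (n • cexp (r j) - p • aeval (r j) g)‖
        ≤ W * (|c| ^ p / (p - 1)!) := by
      rw [hW, Finset.sum_mul]
      refine (norm_sum_le _ _).trans (Finset.sum_le_sum fun j hj => ?_)
      rw [norm_mul, Complex.norm_intCast]
      have b3 := g2 (r := r j) (mem_aroots.mpr ⟨f0, hr j hj⟩)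
      have b4 : c ^ p / (p - 1)! ≤ |c| ^ p / ((p - 1)! : ℝ) := by
        apply div_le_div_of_nonneg_right _ (by positivity)
        rw [← abs_pow]; exact le_abs_self _
      exact mul_le_mul_of_nonneg_left (b3.trans b4) (abs_nonneg _)
    have b5 := hN (p - 1) (by omega)
    have b6 : |(A : ℝ)| ^ D * (W * (|c| ^ p / (p - 1)!)) = W * x * (x ^ (p - 1) / (p - 1)!) := by
      have : x * x ^ (p - 1) = |(A : ℝ)| ^ D * |c| ^ p := by
        rw [← pow_succ', Nat.sub_add_cancel pp.one_le, hx, mul_pow, ← pow_mul, hD, mul_comm p]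
      linear_combination (-(W / ((p - 1)! : ℝ))) * this
    calc _ ≤ |(A : ℝ)| ^ D * (W * (|c| ^ p / (p - 1)!)) := by gcongr
      _ < 1 := by rw [b6]; exact b5
  rw [Complex.norm_intCast] at b1
  have b7 : A ^ D * (k * n) + p * Z = 0 := by
    have : |A ^ D * (k * n) + p * Z| < 1 := by exact_mod_cast b1
    exact Int.abs_lt_one_iff.mp this
  have pz : Prime (p : ℤ) := Nat.prime_iff_prime_int.mp pp
  have d1 : (p : ℤ) ∣ A ^ D * (k * n) := ⟨-Z, by linarith⟩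
  have small : ∀ y : ℤ, y ≠ 0 → y.natAbs < p → ¬ (p : ℤ) ∣ y := fun y h1 h2 h3 => by
    have := Nat.le_of_dvd (Int.natAbs_pos.mpr h1) (Int.natCast_dvd.mp h3)
    omega
  rcases pz.dvd_or_dvd d1 with h | h
  · exact small A hA (by omega) (pz.dvd_of_dvd_pow h)
  · rcases pz.dvd_or_dvd h with h | h
    · exact small k hk (by omega) h
    · exact n1 h

theorem newton {x y : ℂ} {a b : ℤ} (h1 : x + y = a) (h2 : x * y = b) (m : ℕ) :
    ∃ z : ℤ, x ^ m + y ^ m = z := by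
  have key : ∀ m : ℕ, (∃ z : ℤ, x ^ m + y ^ m = z) ∧ ∃ z : ℤ, x ^ (m + 1) + y ^ (m + 1) = z := by
    intro m
    induction m with
    | zero => exact ⟨⟨2, by norm_num⟩, ⟨a, by simpa using h1⟩⟩
    | succ m ih =>
      obtain ⟨⟨u, hu⟩, v, hv⟩ := ih
      refine ⟨⟨v, hv⟩, a * v - b * u, ?_⟩
      push_cast
      rw [← hu, ← hv, ← h1, ← h2]; ring
  exact (key m).1

theorem pm_sum {x y : ℂ} {A a b : ℤ} (h1 : A * x ^ 2 + A * y ^ 2 = a)
    (h2 : (A * x ^ 2) * (A * y ^ 2) = b) (m : ℕ) :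
    ∃ z : ℤ, (A : ℂ) ^ m * (x ^ m + (-x) ^ m + y ^ m + (-y) ^ m) = z := by
  rcases Nat.even_or_odd' m with ⟨l, rfl | rfl⟩
  · obtain ⟨z, hz⟩ := newton h1 h2 l
    refine ⟨2 * A ^ l * z, ?_⟩
    push_cast
    rw [← hz, Even.neg_pow (even_two_mul l), Even.neg_pow (even_two_mul l)]
    ring
  · refine ⟨0, ?_⟩
    rw [Odd.neg_pow ⟨l, rfl⟩, Odd.neg_pow ⟨l, rfl⟩]
    simp

theorem pi_sq_irr {B C : ℤ} (h : B * Real.pi ^ 2 + C = 0) : B = 0 := by
  by_contra hB
  have hp := Real.pi_pos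
  have hC : C ≠ 0 := by
    rintro rfl
    have : (B : ℝ) = 0 := by simpa [hp.ne'] using h
    exact hB (by exact_mod_cast this)
  have hc : (B : ℂ) * (Real.pi : ℂ) ^ 2 + C = 0 := by exact_mod_cast h
  have sq : ((Real.pi : ℂ) * I) ^ 2 = -(Real.pi : ℂ) ^ 2 := by rw [mul_pow, I_sq]; ring
  refine lind Finset.univ ![Real.pi * I, -(Real.pi * I), Real.pi * I, -(Real.pi * I)]
    (fun _ => 1) (Polynomial.C B * X ^ 2 - Polynomial.C C) (by simpa using hC) ?_ 4 B
    (by norm_num) hB ?_ ?_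
  · intro j _
    fin_cases j <;> simp [sq] <;> linear_combination -hc
  · intro m
    obtain ⟨z, hz⟩ := pm_sum (x := Real.pi * I) (y := Real.pi * I) (A := B) (a := 2 * C)
      (b := C ^ 2) (by rw [sq]; push_cast; linear_combination -2 * hc)
      (by rw [sq]; push_cast; linear_combination (B * (Real.pi : ℂ) ^ 2 - C) * hc) m
    exact ⟨z, by rw [← hz]; simp [Fin.sum_univ_four]⟩
  · simp [Fin.sum_univ_four, Complex.exp_neg, exp_pi_mul_I]
    norm_num

theorem pi_no_quad {A B C : ℤ} (h : A * Real.pi ^ 4 + B * Real.pi ^ 2 + C = 0) : A = 0 ∧ B = 0 := by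
  suffices hA : A = 0 by
    subst hA
    exact ⟨rfl, pi_sq_irr (C := C) (by simpa using h)⟩
  by_contra hA
  have hp := Real.pi_pos
  have hC : C ≠ 0 := by
    rintro rfl
    apply hA
    apply pi_sq_irr (C := B)
    have : Real.pi ^ 2 * (A * Real.pi ^ 2 + B) = 0 := by push_cast at h; linarith
    exact (mul_eq_zero.mp this).resolve_left (by positivity)
  have hD : B ^ 2 - 4 * A * C ≠ 0 := by
    intro hD
    have h1 : (B : ℝ) ^ 2 - 4 * A * C = 0 := by exact_mod_cast hD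
    have h2 : (2 * A * Real.pi ^ 2 + B) ^ 2 = 0 := by linear_combination 4 * A * h + h1
    have h3 := pi_sq_irr (B := 2 * A) (C := B) (by push_cast; exact pow_eq_zero_iff two_ne_zero |>.mp h2)
    omega
  have hc : (A : ℂ) * (Real.pi : ℂ) ^ 4 + B * (Real.pi : ℂ) ^ 2 + C = 0 := by exact_mod_cast h
  have A0 : (A : ℂ) ≠ 0 := by exact_mod_cast hA
  obtain ⟨x, hx⟩ : ∃ x : ℂ, x = Real.pi * I := ⟨_, rfl⟩
  have sq : x ^ 2 = -(Real.pi : ℂ) ^ 2 := by rw [hx, mul_pow, I_sq]; ring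
  have ex : cexp x = -1 := by rw [hx, exp_pi_mul_I]
  have hx4 : A * x ^ 4 - B * x ^ 2 + C = 0 := by
    rw [show x ^ 4 = (x ^ 2) ^ 2 by ring, sq]; linear_combination hc
  obtain ⟨y, hy⟩ := IsAlgClosed.exists_pow_nat_eq (B / A - x ^ 2 : ℂ) (n := 2) (by norm_num)
  have s1 : A * x ^ 2 + A * y ^ 2 = B := by rw [hy]; field_simp; ring
  have s2 : A * x ^ 2 * y ^ 2 = C := by linear_combination x ^ 2 * s1 - hx4
  have s3 : A * y ^ 4 - B * y ^ 2 + C = 0 := by linear_combination y ^ 2 * s1 - s2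
  have r1 : ∀ t : ℂ, A * t ^ 4 - B * t ^ 2 + C = 0 ∨ (A * t ^ 2 - B) ^ 2 - 4 * A * C = 0 →
      aeval t ((Polynomial.C A * X ^ 4 - Polynomial.C B * X ^ 2 + Polynomial.C C) *
        ((Polynomial.C A * X ^ 2 - Polynomial.C B) ^ 2 - Polynomial.C (4 * A * C))) = 0 := by
    intro t ht
    rw [map_mul, mul_eq_zero]
    simp only [map_add, map_sub, map_mul, map_pow, aeval_C, aeval_X, eq_intCast, map_intCast,
      map_ofNat]
    exact ht
  refine lind Finset.univ ![x, -x, y, -y, x + y, -(x + y), x - y, -(x - y)]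
    ![2, 2, 2, 2, 1, 1, 1, 1] _ ?_ (fun j _ => r1 _ ?_) 4 A (by norm_num) hA ?_ ?_
  · simp only [eval_mul, eval_add, eval_sub, eval_C, eval_pow, eval_X]
    apply mul_ne_zero
    · simpa using hC
    · simpa using hD
  · fin_cases j
    · left; simpa using hx4
    · left; simp only [Fin.mk_one, Matrix.cons_val_one, Matrix.cons_val_zero]; linear_combination hx4
    · left; simpa using s3
    · left; change (A : ℂ) * (-y) ^ 4 - B * (-y) ^ 2 + C = 0; linear_combination s3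
    · right; change ((A : ℂ) * (x + y) ^ 2 - B) ^ 2 - 4 * A * C = 0
      rw [← s1, ← s2]; ring
    · right; change ((A : ℂ) * (-(x + y)) ^ 2 - B) ^ 2 - 4 * A * C = 0
      rw [← s1, ← s2]; ring
    · right; change ((A : ℂ) * (x - y) ^ 2 - B) ^ 2 - 4 * A * C = 0
      rw [← s1, ← s2]; ring
    · right; change ((A : ℂ) * (-(x - y)) ^ 2 - B) ^ 2 - 4 * A * C = 0
      rw [← s1, ← s2]; ring
  · intro m
    obtain ⟨z, hz⟩ := pm_sum (x := x) (y := y) (A := A) (a := B) (b := A * C) s1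
      (by push_cast; rw [← s2]; ring) m
    obtain ⟨z', hz'⟩ := pm_sum (x := x + y) (y := x - y) (A := A) (a := 2 * B)
      (b := B ^ 2 - 4 * A * C) (by push_cast; rw [← s1]; ring)
      (by push_cast; rw [← s1, ← s2]; ring) m
    refine ⟨2 * z + z', ?_⟩
    push_cast
    rw [← hz, ← hz']
    simp [Fin.sum_univ_eight]
    ring
  · simp [Fin.sum_univ_eight, Complex.exp_neg, Complex.exp_add, Complex.exp_sub, ex]
    ring

end Pool.Agent.P.MP_858e15_gt
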