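import Pool.Agent.P.MP_858e15_gt.Main
import Pool.Agent.P.MP_858e15_gt.PiQuad

namespace Pool.Agent.P.MP_858e15_gt

open Real Filter Topology

theorem rho_sq {n J : ℝ} (hn : 1 ≤ n) (hJ : 1 ≤ J) : ∃ E : ℝ, 0 ≤ E ∧ ∀ x y u v s j : ℝ,
    u ^ 2 + 12 * v ^ 2 = n → s = x * u + 12 * (y * v) → j = x * v - y * u → |j| ≤ J → 1 ≤ s →
    |n ^ 2 * (x ^ 2 * y ^ 2 / (x ^ 2 + 12 * y ^ 2) ^ 2)
      - ((u * v) ^ 2 - 2 * (u * v * j * (u ^ 2 - 12 * v ^ 2)) / s)| ≤ E / s ^ 2 := by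
  obtain ⟨R, hR⟩ : ∃ R, R = 36 * J ^ 3 * n := ⟨_, rfl⟩
  have R0 : 0 ≤ R := by rw [hR]; positivity
  refine ⟨(J * n) ^ 2 + 2 * (n + J * n) * R + R ^ 2, by positivity, ?_⟩
  intro x y u v s j h1 h2 h3 h4 h5
  obtain ⟨α, hα⟩ : ∃ α, α = u * v := ⟨_, rfl⟩
  obtain ⟨κ, hκ⟩ : ∃ κ, κ = u ^ 2 - 12 * v ^ 2 := ⟨_, rfl⟩
  rw [← hα, ← hκ]
  have a1 : |α| ≤ n := by
    rw [hα, abs_le]; constructor <;> nlinarith [sq_nonneg (u + v), sq_nonneg (u - v), sq_nonneg v]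
  have a2 : |κ| ≤ n := by
    rw [hκ, abs_le]; constructor <;> nlinarith [sq_nonneg u, sq_nonneg v]
  have e1 : n * (x ^ 2 + 12 * y ^ 2) = s ^ 2 + 12 * j ^ 2 := by rw [← h1, h2, h3]; ring
  have e2 : n ^ 2 * (x * y) = s ^ 2 * α - s * j * κ - 12 * j ^ 2 * α := by
    rw [← h1, h2, h3, hα, hκ]; ring
  have s0 : 0 < s := by linarith
  have D0 : 0 < s ^ 2 + 12 * j ^ 2 := by positivity
  have N0 : 0 < x ^ 2 + 12 * y ^ 2 := by
    by_contra hc
    nlinarith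
  obtain ⟨r, hr⟩ : ∃ r, r = (-24 * j ^ 2 * α * s + 12 * j ^ 3 * κ) / (s * (s ^ 2 + 12 * j ^ 2)) :=
    ⟨_, rfl⟩
  have e3 : n * (x * y) / (x ^ 2 + 12 * y ^ 2) = α - j * κ / s + r := by
    have : n * (x * y) / (x ^ 2 + 12 * y ^ 2)
        = n ^ 2 * (x * y) / (n * (x ^ 2 + 12 * y ^ 2)) := by field_simp
    rw [this, e1, e2, hr]
    field_simp
    ring
  have j2 : j ^ 2 ≤ J ^ 3 := by
    have : j ^ 2 ≤ J ^ 2 := by rw [← sq_abs j]; gcongr
    nlinarith [sq_nonneg J]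
  have j3 : |j| ^ 3 ≤ J ^ 3 := by gcongr
  have r1 : |r| ≤ R / s ^ 2 := by
    rw [hr, abs_div, abs_of_pos (by positivity : 0 < s * (s ^ 2 + 12 * j ^ 2)),
      div_le_div_iff₀ (by positivity) (by positivity)]
    have t1 : |-24 * j ^ 2 * α * s + 12 * j ^ 3 * κ| ≤ R * s := by
      refine (abs_add_le _ _).trans ?_
      simp only [abs_mul, abs_pow, abs_neg, sq_abs, abs_of_pos s0, Nat.abs_ofNat]
      have t2 : 24 * j ^ 2 * |α| * s ≤ 24 * J ^ 3 * n * s := by gcongr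
      have t3 : 12 * |j| ^ 3 * |κ| ≤ 12 * J ^ 3 * n * s := by
        calc _ ≤ 12 * J ^ 3 * n := by gcongr
          _ ≤ _ := le_mul_of_one_le_right (by positivity) h5
      rw [hR]; linarith
    calc _ ≤ R * s * s ^ 2 := by gcongr
      _ ≤ R * (s * (s ^ 2 + 12 * j ^ 2)) := by
        rw [mul_assoc]; gcongr; nlinarith [sq_nonneg j]
  have e4 : n ^ 2 * (x ^ 2 * y ^ 2 / (x ^ 2 + 12 * y ^ 2) ^ 2) - (α ^ 2 - 2 * (α * j * κ) / s)
      = (j * κ / s) ^ 2 + 2 * (α - j * κ / s) * r + r ^ 2 := by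
    have : n ^ 2 * (x ^ 2 * y ^ 2 / (x ^ 2 + 12 * y ^ 2) ^ 2)
        = (n * (x * y) / (x ^ 2 + 12 * y ^ 2)) ^ 2 := by field_simp
    rw [this, e3]; ring
  have b1 : |j * κ / s| ≤ J * n / s := by
    rw [abs_div, abs_mul, abs_of_pos s0]; gcongr
  have b2 : J * n / s ≤ J * n := div_le_self (by positivity) h5
  have b3 : |α - j * κ / s| ≤ n + J * n := (abs_sub _ _).trans (by linarith)
  have b4 : R / s ^ 2 ≤ R / s := by gcongr; nlinarith
  have b5 : (j * κ / s) ^ 2 ≤ (J * n / s) ^ 2 := by rw [← sq_abs]; gcongr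
  have b6 : r ^ 2 ≤ (R / s) ^ 2 := by rw [← sq_abs]; gcongr; linarith
  have b7 : |2 * (α - j * κ / s) * r| ≤ 2 * (n + J * n) * (R / s ^ 2) := by
    rw [abs_mul, abs_mul, abs_two]; gcongr
  have e5 : ((J * n) ^ 2 + 2 * (n + J * n) * R + R ^ 2) / s ^ 2
      = (J * n / s) ^ 2 + 2 * (n + J * n) * (R / s ^ 2) + (R / s) ^ 2 := by field_simp
  rw [e4, e5, abs_le]
  obtain ⟨b8, b9⟩ := abs_le.mp b7
  constructor <;> nlinarith [sq_nonneg (j * κ / s), sq_nonneg r, sq_nonneg (J * n / s),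
    sq_nonneg (R / s)]

theorem two_point {A B E s t M : ℝ} (hs : 1 ≤ s) (ht : s ≤ 2 * t) (hM : 0 < M) (h : M ≤ |s - t|)
    (h1 : |A + B / s| ≤ E / s ^ 2) (h2 : |A + B / t| ≤ E / t ^ 2) :
    |A| ≤ 3 * E / M ∧ |B| ≤ E / s + 3 * E / M := by
  have s0 : 0 < s := by linarith
  have t0 : 0 < t := by linarith
  have E0 : 0 ≤ E := by
    have := (abs_nonneg _).trans h1
    exact (div_nonneg_iff.mp this).elim (fun h => h.1) fun h => by nlinarith [h.2]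
  have k1 : ∀ s : ℝ, 0 < s → |A + B / s| ≤ E / s ^ 2 → |A * s + B| ≤ E / s := by
    intro s s0 h
    have : A * s + B = (A + B / s) * s := by field_simp
    rw [this, abs_mul, abs_of_pos s0]
    calc _ ≤ E / s ^ 2 * s := by gcongr
      _ = _ := by field_simp
  have a1 := k1 s s0 h1
  have a2 := k1 t t0 h2
  have a3 : |A| * M ≤ E / s + E / t := by
    calc |A| * M ≤ |A| * |s - t| := by gcongr
      _ = |(A * s + B) - (A * t + B)| := by rw [← abs_mul]; congr 1; ring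
      _ ≤ _ := (abs_sub _ _).trans (add_le_add a1 a2)
  have a4 : E / t ≤ 2 * (E / s) := by
    rw [← mul_div_assoc, div_le_div_iff₀ t0 s0]; nlinarith
  have a5 : |A| * s ≤ 3 * E / M := by
    rw [le_div_iff₀ hM]
    have : E / s * s = E := by field_simp
    nlinarith
  refine ⟨(le_mul_of_one_le_right (abs_nonneg _) hs).trans a5, ?_⟩
  calc |B| = |(A * s + B) - A * s| := by congr 1; ring
    _ ≤ |A * s + B| + |A * s| := abs_sub _ _
    _ ≤ _ := by rw [abs_mul A, abs_of_pos s0]; linarith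

theorem gapF {a b i k : ℤ} (hab : 0 < a ^ 2 + 12 * b ^ 2) (hk0 : k ≠ 0) (hk : |k| ≤ 13) {n : ℝ}
    (hn : n = (a : ℝ) ^ 2 + 12 * (b : ℝ) ^ 2) : ∃ ε : ℝ, 0 < ε ∧ ∀ α j κ : ℝ,
    12 * j ^ 2 = 12 * (i : ℝ) ^ 2 + k * n → κ ^ 2 = n ^ 2 - 48 * α ^ 2 →
    |96 * (α ^ 2 - ((a : ℝ) * b) ^ 2) - 3 * k / (2 * π ^ 2) * n ^ 2| ≤ ε →
    |α * j * κ - (a : ℝ) * b * i * ((a : ℝ) ^ 2 - 12 * (b : ℝ) ^ 2)| ≤ ε → False := by
  obtain ⟨N, hN⟩ : ∃ N : ℤ, N = a ^ 2 + 12 * b ^ 2 := ⟨_, rfl⟩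
  have nN : n = N := by rw [hn, hN]; push_cast; ring
  rw [← hN] at hab
  have n1 : 1 ≤ n := by rw [nN]; exact_mod_cast hab
  obtain ⟨m, hm⟩ : ∃ m : ℤ, m = 12 * i ^ 2 + k * N := ⟨_, rfl⟩
  have mm : (12 * (i : ℝ) ^ 2 + k * n) = m := by rw [nN, hm]; push_cast; ring
  obtain ⟨y, hy⟩ : ∃ y : ℤ, y = a * b * i * (a ^ 2 - 12 * b ^ 2) := ⟨_, rfl⟩
  have yy : (a : ℝ) * b * i * ((a : ℝ) ^ 2 - 12 * (b : ℝ) ^ 2) = y := by rw [hy]; push_cast; ring
  rw [mm, yy]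
  have hp := pi_pos
  by_cases m0 : m = 0
  · refine ⟨0.1, by norm_num, ?_⟩
    intro α j κ h1 _ h3 h4
    have j0 : j = 0 := by rw [m0] at h1; simpa using h1
    have i0 : i ≠ 0 := by
      rintro rfl
      have : k * N = 0 := by linarith
      rcases mul_eq_zero.mp this with h | h <;> omega
    have k1 : k < 0 := by
      by_contra hc
      have := mul_nonneg (not_lt.mp hc) hab.le
      have : 0 < i ^ 2 := by positivity
      linarith
    rw [j0, mul_zero, zero_mul, zero_sub, abs_neg] at h4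
    have y0 : y = 0 := by
      have : |y| < 1 := by
        have : |(y : ℝ)| < 1 := by linarith
        exact_mod_cast this
      exact Int.abs_lt_one_iff.mp this
    have ab0 : a * b = 0 := by
      rw [y0] at hy
      rcases mul_eq_zero.mp hy.symm with h | h
      · exact (mul_eq_zero.mp h).resolve_right i0
      · rw [not_twelve (x := a) (y := b) (by linarith), mul_zero]
    have ab1 : (a : ℝ) * b = 0 := by exact_mod_cast ab0
    have c1 := (c_range hk0 hk).1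
    have c2 : 3 * (k : ℝ) / (2 * π ^ 2) < 0 :=
      div_neg_of_neg_of_pos (by have : (k : ℝ) < 0 := by exact_mod_cast k1
                                linarith) (by positivity)
    rw [abs_of_neg c2] at c1
    rw [ab1] at h3
    have := (abs_le.mp h3).2
    nlinarith [sq_nonneg α, one_le_pow₀ (n := 2) n1]
  · obtain ⟨z, hz⟩ : ∃ z : ℝ, z = ((a : ℝ) * b) ^ 2 + 3 * k / (2 * π ^ 2) * n ^ 2 / 96 := ⟨_, rfl⟩
    have cont : Continuous fun x : ℝ × ℝ => (m : ℝ) * x.1 * (n ^ 2 - 48 * x.1) - 12 * x.2 ^ 2 := by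
      fun_prop
    have ne : (m : ℝ) * z * (n ^ 2 - 48 * z) - 12 * (y : ℝ) ^ 2 ≠ 0 := by
      intro h0
      have z1 : 64 * z * π ^ 2 = 64 * ((a : ℝ) * b) ^ 2 * π ^ 2 + k * n ^ 2 := by
        rw [hz]; field_simp; ring
      have h1 : ((m * 64 * (a * b) ^ 2 * (64 * N ^ 2 - 48 * 64 * (a * b) ^ 2)
            - 12 * 4096 * y ^ 2 : ℤ) : ℝ) * π ^ 4
          + ((m * (64 * (a * b) ^ 2 * (-48 * k * N ^ 2)
            + k * N ^ 2 * (64 * N ^ 2 - 48 * 64 * (a * b) ^ 2)) : ℤ) : ℝ) * π ^ 2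
          + ((-48 * m * k ^ 2 * N ^ 4 : ℤ) : ℝ) = 0 := by
        push_cast
        rw [← nN]
        linear_combination 4096 * π ^ 4 * h0 - m * (64 * n ^ 2 * π ^ 2 - 48 * (64 * z * π ^ 2
          + 64 * ((a : ℝ) * b) ^ 2 * π ^ 2 + k * n ^ 2)) * z1
      obtain ⟨h2, h3⟩ := pi_no_quad h1
      rw [h2, h3] at h1
      have h4 : -48 * m * k ^ 2 * N ^ 4 = 0 := by
        have : ((-48 * m * k ^ 2 * N ^ 4 : ℤ) : ℝ) = 0 := by linear_combination h1
        exact_mod_cast this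
      simp [m0, hk0, hab.ne'] at h4
    obtain ⟨δ, δ0, hδ⟩ := Metric.eventually_nhds_iff.mp
      ((cont.continuousAt (x := (z, (y : ℝ)))).eventually_ne ne)
    refine ⟨δ / 2, by linarith, ?_⟩
    intro α j κ h1 h2 h3 h4
    refine hδ (y := (α ^ 2, α * j * κ)) ?_ ?_
    · rw [Prod.dist_eq, Real.dist_eq, Real.dist_eq, max_lt_iff]
      obtain ⟨h5, h6⟩ := abs_le.mp h3
      refine ⟨abs_lt.mpr ⟨?_, ?_⟩, by linarith⟩ <;> simp only [hz] <;> linarith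
    · simp only
      rw [← h1, ← h2]; ring

theorem cos_inv {c : ℝ} (h1 : c ≠ 1) (h2 : c ≠ -1) : ∃ φ m η : ℝ, 0 ≤ m ∧ 0 < η ∧
    ∀ x δ : ℝ, x ∈ Set.Icc 0 π → δ ≤ η → |cos x - c| ≤ δ → |x - φ| ≤ m * δ := by
  by_cases h : |c| < 1
  swap
  · have h3 : 1 < |c| := lt_of_le_of_ne (not_lt.mp h) fun h4 => by
      rcases abs_choice c with h5 | h5
      · exact h1 (by linarith)
      · exact h2 (by linarith)
    refine ⟨0, 0, (|c| - 1) / 2, le_rfl, by linarith, fun x δ _ a1 a2 => ?_⟩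
    have a3 := abs_cos_le_one x
    have a4 := abs_sub_abs_le_abs_sub c (cos x)
    rw [abs_sub_comm] at a4
    linarith
  obtain ⟨c1, c2⟩ := abs_lt.mp h
  obtain ⟨φ, hφ⟩ : ∃ φ, φ = arccos c := ⟨_, rfl⟩
  have f0 : 0 < φ := by rw [hφ]; exact arccos_pos.mpr c2
  have f1 : φ < π := by rw [hφ]; exact arccos_lt_pi.mpr c1
  have f2 : cos φ = c := by rw [hφ]; exact cos_arccos c1.le c2.le
  obtain ⟨μ, hμ⟩ : ∃ μ, μ = min (sin (φ / 2)) (sin (π / 2 - φ / 2)) := ⟨_, rfl⟩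
  have μ0 : 0 < μ := by
    rw [hμ]
    exact lt_min (sin_pos_of_pos_of_lt_pi (by linarith) (by linarith))
      (sin_pos_of_pos_of_lt_pi (by linarith) (by linarith))
  refine ⟨φ, 2 / μ, 1, by positivity, one_pos, fun x δ hx _ a2 => ?_⟩
  obtain ⟨x0, x1⟩ := hx
  have s1 : μ ≤ sin ((x + φ) / 2) := by
    rw [hμ]
    rcases le_total ((x + φ) / 2) (π / 2) with h | h
    · exact (min_le_left _ _).trans
        (sin_le_sin_of_le_of_le_pi_div_two (by linarith) h (by linarith))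
    · rw [← sin_pi_sub ((x + φ) / 2)]
      exact (min_le_right _ _).trans
        (sin_le_sin_of_le_of_le_pi_div_two (by linarith) (by linarith) (by linarith))
  have s2 := mul_abs_le_abs_sin (x := (x - φ) / 2) (abs_le.mpr ⟨by linarith, by linarith⟩)
  have s3 : 1 / 2 * |(x - φ) / 2| ≤ 2 / π * |(x - φ) / 2| := by
    apply mul_le_mul_of_nonneg_right _ (abs_nonneg _)
    rw [le_div_iff₀ pi_pos]; linarith [pi_lt_four]
  rw [abs_div, abs_two] at s3 s2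
  rw [← f2, cos_sub_cos, abs_mul, abs_mul, abs_of_pos (μ0.trans_le s1), abs_neg, abs_two] at a2
  rw [div_mul_eq_mul_div, le_div_iff₀ μ0]
  have s4 : μ * (1 / 2 * (|x - φ| / 2)) ≤ sin ((x + φ) / 2) * |sin ((x - φ) / 2)| :=
    mul_le_mul s1 (s3.trans s2) (by positivity) (μ0.le.trans s1)
  linarith

theorem fold_lip (x y : ℝ) : |fold x - fold y| ≤ 4 * |x - y| := by
  have e : ∀ x, fold x = π - |4 * x - π| := by
    intro x
    unfold fold
    split_ifs with h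
    · rw [abs_of_nonpos (by linarith)]; ring
    · rw [abs_of_nonneg (by linarith)]; ring
  rw [e, e, show π - |4 * x - π| - (π - |4 * y - π|) = |4 * y - π| - |4 * x - π| by ring]
  refine (abs_abs_sub_abs_le_abs_sub _ _).trans (le_of_eq ?_)
  rw [show 4 * y - π - (4 * x - π) = -4 * (x - y) by ring, abs_mul]
  norm_num

end Pool.Agent.P.MP_858e15_gt
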