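import Pool.Agent.P.MP_858e15_gt.Lines1

namespace Pool.Agent.P.MP_858e15_gt

open Real

theorem s_range {k a b i : ℤ} {c K Y n : ℝ} {P : V} (ha : 0 ≤ a) (hb : 0 ≤ b)
    (hn : n = (a : ℝ) ^ 2 + 12 * (b : ℝ) ^ 2) (n1 : 1 ≤ n) (hP : Near k c K Y P)
    (hl : P 0 * b - P 1 * a = i) (hY : 24 * (i : ℝ) ^ 2 ≤ Y) :
    0 ≤ (P 0 : ℝ) * a + 12 * (P 1 * b) ∧ n * Y / 2 ≤ ((P 0 : ℝ) * a + 12 * (P 1 * b)) ^ 2 ∧
      ((P 0 : ℝ) * a + 12 * (P 1 * b)) ^ 2 ≤ 2 * n * Y := by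
  obtain ⟨h0, -, h2, h3, -⟩ := hP
  have p0 : (0 : ℝ) ≤ P 0 := by exact_mod_cast h0 0
  have p1 : (0 : ℝ) ≤ P 1 := by exact_mod_cast h0 1
  have a0 : (0 : ℝ) ≤ a := by exact_mod_cast ha
  have b0 : (0 : ℝ) ≤ b := by exact_mod_cast hb
  have e0 : (i : ℝ) = P 0 * b - P 1 * a := by exact_mod_cast hl.symm
  have e1 : ((P 0 : ℝ) * a + 12 * (P 1 * b)) ^ 2 = n * NN P - 12 * (i : ℝ) ^ 2 := by
    rw [NN_cast, hn, e0]; ring
  have Y0 : 0 ≤ Y := le_trans (by positivity) hY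
  refine ⟨by positivity, ?_, ?_⟩ <;> rw [e1]
  · nlinarith
  · nlinarith [sq_nonneg (i : ℝ)]

theorem line_pair {K : ℝ} (hK : 0 ≤ K) {a b i k : ℤ} (ha : 0 ≤ a) (hb : 0 ≤ b)
    (hab : 0 < a ^ 2 + 12 * b ^ 2) (hk0 : k ≠ 0) (hk : |k| ≤ 13) : ∃ (M : ℕ) (Y0 : ℝ), ∀ Y : ℝ,
    Y0 ≤ Y → ∀ P Q : V, Near k (3 * k / (2 * π ^ 2)) K Y P → Near k (3 * k / (2 * π ^ 2)) K Y Q →
    P 0 * b - P 1 * a = i → Q 0 * b - Q 1 * a = i → BB P Q = k →
    |(P 0 * a + 12 * (P 1 * b)) - (Q 0 * a + 12 * (Q 1 * b))| ≤ M := by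
  obtain ⟨n, hn⟩ : ∃ n : ℝ, n = (a : ℝ) ^ 2 + 12 * (b : ℝ) ^ 2 := ⟨_, rfl⟩
  have n1 : 1 ≤ n := by rw [hn]; exact_mod_cast hab
  obtain ⟨ε, ε0, hε⟩ := gapF (i := i) hab hk0 hk hn
  obtain ⟨J, hJ⟩ : ∃ J : ℝ, J = |(i : ℝ)| + 2 * n := ⟨_, rfl⟩
  have i0 := abs_nonneg (i : ℝ)
  obtain ⟨E0, E00, hE⟩ := rho_sq n1 (show 1 ≤ J by linarith)
  obtain ⟨E, hE1⟩ : ∃ E, E = 192 * E0 + 2 * K * n ^ 3 := ⟨_, rfl⟩
  have E1 : 0 ≤ E := by rw [hE1]; positivity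
  obtain ⟨T, hT⟩ : ∃ T, T = 6 * E / ε + 1 := ⟨_, rfl⟩
  have T0 : 0 ≤ 6 * E / ε := by positivity
  have T1 : 1 ≤ T := by linarith
  have T2 : 3 * E / T ≤ ε / 2 := by
    rw [div_le_iff₀ (by linarith), hT]
    have : ε / 2 * (6 * E / ε) = 3 * E := by field_simp; ring
    nlinarith
  refine ⟨⌈T⌉₊, 24 * (i : ℝ) ^ 2 + 2 * T ^ 2, ?_⟩
  intro Y hY P Q hP hQ lP lQ hB
  by_contra hc
  have Y1 : 24 * (i : ℝ) ^ 2 ≤ Y := by linarith [sq_nonneg T]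
  have Y2 : 2 * T ^ 2 ≤ Y := by linarith [sq_nonneg (i : ℝ)]
  have Y0 : 0 < Y := by linarith [one_le_pow₀ (n := 2) T1]
  have Y3 : Y ≤ n * Y := le_mul_of_one_le_left Y0.le n1
  obtain ⟨s1, s2, s3'⟩ := s_range ha hb hn n1 hP lP Y1
  obtain ⟨t1, t2, t3⟩ := s_range ha hb hn n1 hQ lQ Y1
  have hM : T ≤ |((P 0 : ℝ) * a + 12 * (P 1 * b)) - (Q 0 * a + 12 * (Q 1 * b))| := by
    refine (Nat.le_ceil T).trans ?_
    have := (not_le.mp hc).le
    exact_mod_cast this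
  have r1 : (P 2 : ℝ) ^ 2 + 12 * (P 3 : ℝ) ^ 2 = (P 0 : ℝ) ^ 2 + 12 * (P 1 : ℝ) ^ 2 + k := by
    have := hP.2.1; unfold NN NN' at this; exact_mod_cast this
  have r2 : (Q 2 : ℝ) ^ 2 + 12 * (Q 3 : ℝ) ^ 2 = (Q 0 : ℝ) ^ 2 + 12 * (Q 1 : ℝ) ^ 2 + k := by
    have := hQ.2.1; unfold NN NN' at this; exact_mod_cast this
  have r3 : (P 2 : ℝ) * Q 2 + 12 * (P 3 * Q 3) - (P 0 * Q 0 + 12 * (P 1 * Q 1)) = k := by
    unfold BB at hB; exact_mod_cast hB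
  have l1 : (i : ℝ) = P 0 * b - P 1 * a := by exact_mod_cast lP.symm
  have l2 : (i : ℝ) = Q 0 * b - Q 1 * a := by exact_mod_cast lQ.symm
  have w1 := hP.2.2.2.2
  have w2 := hQ.2.2.2.2
  unfold c4 at w1 w2
  have k1 : (k : ℝ) ≤ 13 := by exact_mod_cast (abs_le.mp hk).2
  generalize (P 0 : ℝ) = p0, (P 1 : ℝ) = p1, (P 2 : ℝ) = p2, (P 3 : ℝ) = p3, (Q 0 : ℝ) = q0,
    (Q 1 : ℝ) = q1, (Q 2 : ℝ) = q2, (Q 3 : ℝ) = q3 at *
  obtain ⟨s, hs⟩ : ∃ s, s = p0 * a + 12 * (p1 * b) := ⟨_, rfl⟩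
  obtain ⟨t, ht⟩ : ∃ t, t = q0 * a + 12 * (q1 * b) := ⟨_, rfl⟩
  rw [← hs] at s1 s2 s3' hM
  rw [← ht] at t1 t2 t3 hM
  have sT : T ≤ s := le_of_sq_le_sq (by linarith) s1
  have tT : T ≤ t := le_of_sq_le_sq (by linarith) t1
  have st : s ≤ 2 * t := le_of_sq_le_sq (by linarith) (by linarith)
  have ne : t - s ≠ 0 := by
    intro h
    rw [show s - t = 0 by linarith, abs_zero] at hM
    linarith
  obtain ⟨τ, hτ⟩ : ∃ τ, τ = (t - s) / n := ⟨_, rfl⟩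
  have τ0 : τ ≠ 0 := by rw [hτ]; positivity
  have τ1 : τ * n = t - s := by rw [hτ]; field_simp
  have d0 : q0 = p0 + τ * a := by
    apply mul_left_cancel₀ (show n ≠ 0 by positivity)
    linear_combination (-(a : ℝ)) * τ1 + (q0 - p0) * hn - a * ht + a * hs - 12 * b * l2 + 12 * b * l1
  have d1 : q1 = p1 + τ * b := by
    apply mul_left_cancel₀ (show n ≠ 0 by positivity)
    linear_combination (-(b : ℝ)) * τ1 + (q1 - p1) * hn - b * ht + b * hs + a * l2 - a * l1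
  obtain ⟨u, hu⟩ : ∃ u, u = (q2 - p2) / τ := ⟨_, rfl⟩
  obtain ⟨v, hv⟩ : ∃ v, v = (q3 - p3) / τ := ⟨_, rfl⟩
  have d2 : q2 = p2 + τ * u := by rw [hu]; field_simp; ring
  have d3 : q3 = p3 + τ * v := by rw [hv]; field_simp; ring
  have g1 : u ^ 2 + 12 * v ^ 2 = n := by
    apply mul_left_cancel₀ (pow_ne_zero 2 τ0)
    rw [d0, d1, d2, d3] at r2 r3
    linear_combination r1 + r2 - 2 * r3 - τ ^ 2 * hn
  have g2 : s = p2 * u + 12 * (p3 * v) := by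
    apply mul_left_cancel₀ τ0
    rw [d0, d1, d2, d3] at r3
    linear_combination r1 - r3 + τ * hs
  have g3 : t = q2 * u + 12 * (q3 * v) := by
    rw [d2, d3]; linear_combination g2 - τ1 - τ * g1
  obtain ⟨j, hj⟩ : ∃ j, j = p2 * v - p3 * u := ⟨_, rfl⟩
  have g4 : j = q2 * v - q3 * u := by rw [hj, d2, d3]; ring
  have g5 : 12 * j ^ 2 = 12 * (i : ℝ) ^ 2 + k * n := by
    have e1 : n * (p2 ^ 2 + 12 * p3 ^ 2) = s ^ 2 + 12 * j ^ 2 := by rw [← g1, g2, hj]; ring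
    have e2 : n * (p0 ^ 2 + 12 * p1 ^ 2) = s ^ 2 + 12 * (i : ℝ) ^ 2 := by rw [hn, hs, l1]; ring
    linear_combination e2 - e1 + n * r1
  have jJ : |j| ≤ J := by
    apply abs_le_of_sq_le_sq _ (by linarith)
    rw [hJ]
    have x1 : (k : ℝ) * n ≤ 13 * n := by gcongr
    have x2 : n ≤ n * n := le_mul_of_one_le_left (by linarith) n1
    have x3 : 0 ≤ |(i : ℝ)| * n := by positivity
    linarith [sq_abs (i : ℝ)]
  have iJ : |(i : ℝ)| ≤ J := by linarith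
  have key : ∀ x0 x1 x2 x3 s : ℝ, 1 ≤ s → s ^ 2 ≤ 2 * n * Y → s = x0 * a + 12 * (x1 * b) →
      (i : ℝ) = x0 * b - x1 * a → s = x2 * u + 12 * (x3 * v) → j = x2 * v - x3 * u →
      |1 - 96 * (x0 ^ 2 * x1 ^ 2) / (x0 ^ 2 + 12 * x1 ^ 2) ^ 2
        - (1 - 96 * (x2 ^ 2 * x3 ^ 2) / (x2 ^ 2 + 12 * x3 ^ 2) ^ 2) - 3 * k / (2 * π ^ 2)| ≤ K / Y →
      |(96 * ((u * v) ^ 2 - ((a : ℝ) * b) ^ 2) - 3 * k / (2 * π ^ 2) * n ^ 2)
        + -192 * (u * v * j * (u ^ 2 - 12 * v ^ 2)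
          - (a : ℝ) * b * i * ((a : ℝ) ^ 2 - 12 * (b : ℝ) ^ 2)) / s| ≤ E / s ^ 2 := by
    intro x0 x1 x2 x3 s h1 h2 h3 h4 h5 h6 h7
    have z1 := abs_le.mp (hE x0 x1 a b s i hn.symm h3 h4 iJ h1)
    have z2 := abs_le.mp (hE x2 x3 u v s j g1 h5 h6 jJ h1)
    have z3 : K / Y * n ^ 2 ≤ 2 * K * n ^ 3 / s ^ 2 := by
      rw [div_mul_eq_mul_div, div_le_div_iff₀ Y0 (by positivity)]
      calc K * n ^ 2 * s ^ 2 ≤ K * n ^ 2 * (2 * n * Y) := by gcongr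
        _ = _ := by ring
    have z4 := mul_le_mul_of_nonneg_right h7 (sq_nonneg n)
    rw [← abs_of_nonneg (sq_nonneg n), ← abs_mul, abs_of_nonneg (sq_nonneg n)] at z4
    have z5 := abs_le.mp (z4.trans z3)
    have z6 : E / s ^ 2 = 192 * (E0 / s ^ 2) + 2 * K * n ^ 3 / s ^ 2 := by rw [hE1]; ring
    rw [z6, abs_le]
    constructor
    · linear_combination 96 * z1.1 + 96 * z2.2 + z5.1
    · linear_combination 96 * z1.2 + 96 * z2.1 + z5.2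
  obtain ⟨f1, f2⟩ := two_point (by linarith) st (by linarith) hM
    (key p0 p1 p2 p3 s (by linarith) s3' hs l1 g2 hj w1)
    (key q0 q1 q2 q3 t (by linarith) t3 ht l2 g3 g4 w2)
  refine hε (u * v) j (u ^ 2 - 12 * v ^ 2) g5 (by rw [← g1]; ring) (by linarith) ?_
  rw [abs_mul, abs_neg, abs_of_pos (show (0 : ℝ) < 192 by norm_num)] at f2
  have f3 : E / s ≤ 3 * E / T := by
    calc E / s ≤ E / T := by gcongr
      _ ≤ 3 * E / T := by gcongr; linarith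
  linarith [abs_nonneg (u * v * j * (u ^ 2 - 12 * v ^ 2)
          - (a : ℝ) * b * i * ((a : ℝ) ^ 2 - 12 * (b : ℝ) ^ 2))]

theorem line_labels {K : ℝ} (hK : 0 ≤ K) {a b i k : ℤ} (ha : 0 ≤ a) (hb : 0 ≤ b)
    (hab : 0 < a ^ 2 + 12 * b ^ 2) (hk0 : k ≠ 0) (hk : |k| ≤ 13) : ∃ R x0 Y0 : ℝ, 0 ≤ R ∧
    ∀ Y : ℝ, Y0 ≤ Y → 40 ≤ Y → ∀ P : V, Near k (3 * k / (2 * π ^ 2)) K Y P →
    P 0 * b - P 1 * a = i → |√Y * (fold (th P) + fold (th' P)) - √Y * x0| ≤ R := by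
  obtain ⟨n, hn⟩ : ∃ n : ℝ, n = (a : ℝ) ^ 2 + 12 * (b : ℝ) ^ 2 := ⟨_, rfl⟩
  have n1 : 1 ≤ n := by rw [hn]; exact_mod_cast hab
  have irr : ∀ e : ℤ, c4 a b - 3 * k / (2 * π ^ 2) ≠ e := by
    intro e h
    have hp := pi_pos
    unfold c4 at h
    rw [← hn] at h
    have h1 : ((2 * ((1 - e) * (a ^ 2 + 12 * b ^ 2) ^ 2 - 96 * (a ^ 2 * b ^ 2)) : ℤ) : ℝ) * π ^ 2
        + ((-3 * k * (a ^ 2 + 12 * b ^ 2) ^ 2 : ℤ) : ℝ) = 0 := by
      push_cast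
      rw [← hn]
      field_simp at h
      linear_combination h
    rw [pi_sq_irr h1] at h1
    have h2 : -3 * k * (a ^ 2 + 12 * b ^ 2) ^ 2 = 0 := by
      have : ((-3 * k * (a ^ 2 + 12 * b ^ 2) ^ 2 : ℤ) : ℝ) = 0 := by linear_combination h1
      exact_mod_cast this
    simp [hk0, hab.ne'] at h2
  obtain ⟨φ, m, η, m0, η0, hφ⟩ := cos_inv (c := c4 a b - 3 * k / (2 * π ^ 2))
    (by simpa using irr 1) (by simpa using irr (-1))
  obtain ⟨W, hW⟩ : ∃ W, W = 32 * |(i : ℝ)| + K := ⟨_, rfl⟩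
  have W0 : 0 ≤ W := by rw [hW]; positivity
  refine ⟨W + m * W, fold (ang a b) + φ, (W / η) ^ 2, by positivity, ?_⟩
  intro Y hY Y1 P hP lP
  obtain ⟨-, -, -, a1, a2, a3, a4, -⟩ := near_basic hk Y1 hP
  obtain ⟨b1, b2, -, -, b5, -⟩ := ang_facts ha hb hn (by linarith)
  obtain ⟨h0, -, h2, -, -⟩ := hP
  obtain ⟨-, t2⟩ := two_vec (h0 0) (h0 1) ha hb (NN_cast P) hn (by linarith) (by linarith)
  change _ = _ * sin (th P - ang a b) ^ 2 at t2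
  have l1 : (P 0 : ℝ) * b - P 1 * a = i := by exact_mod_cast lP
  rw [l1] at t2
  have H1 : 1 ≤ √Y := le_sqrt_of_sq_le (by linarith)
  have H2 : √Y ^ 2 = Y := sq_sqrt (by linarith)
  have c1 : √Y * |sin (th P - ang a b)| ≤ 4 * |(i : ℝ)| := by
    apply le_of_sq_le_sq _ (by positivity)
    rw [mul_pow, mul_pow, sq_abs, sq_abs, H2]
    have : Y * sin (th P - ang a b) ^ 2 ≤ NN P * n * sin (th P - ang a b) ^ 2 := by
      gcongr
      exact h2.trans (le_mul_of_one_le_right (by linarith) n1)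
    linarith [sq_nonneg (i : ℝ)]
  have c2 := mul_abs_le_abs_sin (x := th P - ang a b)
    (abs_le.mpr ⟨by linarith [a4.1], by linarith [a4.2]⟩)
  have c3 : 1 / 2 * |th P - ang a b| ≤ 2 / π * |th P - ang a b| := by
    apply mul_le_mul_of_nonneg_right _ (abs_nonneg _)
    rw [le_div_iff₀ pi_pos]; linarith [pi_lt_four]
  have c5 : |fold (th P) - fold (ang a b)| ≤ 32 * |(i : ℝ)| / √Y := by
    rw [le_div_iff₀ (by linarith)]
    have x1 := fold_lip (th P) (ang a b)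
    have x2 : |fold (th P) - fold (ang a b)| * √Y ≤ 8 * |sin (th P - ang a b)| * √Y := by
      gcongr; linarith
    linarith
  have c6 := (abs_cos_sub_cos_le _ _).trans c5
  rw [b5] at c6
  have c7 : K / Y ≤ K / √Y := by
    gcongr
    exact sqrt_le_iff.mpr ⟨by linarith, le_self_pow₀ (by linarith) two_ne_zero⟩
  have c8 : W / √Y = 32 * |(i : ℝ)| / √Y + K / √Y := by rw [hW]; ring
  have c9 : W / √Y ≤ η := by
    rw [div_le_iff₀ (by linarith), mul_comm, ← div_le_iff₀ η0]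
    exact le_sqrt_of_sq_le hY
  have d1 := hφ (fold (th' P)) (W / √Y) a2 c9 (by
    obtain ⟨x1, x2⟩ := abs_le.mp a3
    obtain ⟨x3, x4⟩ := abs_le.mp c6
    rw [abs_le]; constructor <;> linarith)
  have d2 : |fold (th P) + fold (th' P) - (fold (ang a b) + φ)| ≤ (W + m * W) / √Y := by
    obtain ⟨x1, x2⟩ := abs_le.mp d1
    obtain ⟨x3, x4⟩ := abs_le.mp c5
    have : (W + m * W) / √Y = W / √Y + m * (W / √Y) := by ring
    have : 0 ≤ K / √Y := by positivity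
    rw [abs_le]; constructor <;> linarith
  rw [← mul_sub, abs_mul, abs_of_pos (show 0 < √Y by linarith), mul_comm,
    ← le_div_iff₀ (by linarith)]
  exact d2

theorem line_shell {K : ℝ} (hK : 0 ≤ K) {a b : ℤ} (ha : 0 ≤ a) (hb : 0 ≤ b)
    (hab : 0 < a ^ 2 + 12 * b ^ 2) (k i : ℤ) : ∃ (C : ℕ) (Y0 : ℝ), 0 ≤ Y0 ∧ ∀ Y : ℝ, Y0 ≤ Y →
    40 ≤ Y → k ≠ 0 → |k| ≤ 13 → ∀ S : Finset V,
    (∀ P ∈ S, Near k (3 * k / (2 * π ^ 2)) K Y P ∧ P 0 * b - P 1 * a = i) → S.card ≤ C := by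
  classical
  by_cases hk' : k ≠ 0 ∧ |k| ≤ 13
  swap
  · exact ⟨0, 0, le_rfl, fun _ _ _ h1 h2 => absurd ⟨h1, h2⟩ hk'⟩
  obtain ⟨hk0, hk⟩ := hk'
  obtain ⟨M, Y1, h1⟩ := line_pair (i := i) hK ha hb hab hk0 hk
  obtain ⟨R, x0, Y2, R0, h2⟩ := line_labels (i := i) hK ha hb hab hk0 hk
  obtain ⟨L, hL⟩ : ∃ L : ℕ, L = ⌈2 * K + 60⌉₊ := ⟨_, rfl⟩
  refine ⟨(2 * M + 1) * (2 * L + 1) ^ 4 * (2 * 2 * (⌈2 * R⌉₊ + 2)), |Y1| + |Y2|, by positivity, ?_⟩
  intro Y hY Y0 _ _ S hS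
  have y1 : Y1 ≤ Y := by linarith [le_abs_self Y1, abs_nonneg Y2]
  have y2 : Y2 ≤ Y := by linarith [le_abs_self Y2, abs_nonneg Y1]
  have hPP : ∀ P ∈ S, BB P P = k := fun P hP => by rw [BB_self, (hS P hP).1.2.1]; ring
  obtain ⟨A, hA⟩ : ∃ A : ℕ, A = ⌊√Y * x0 - R⌋₊ := ⟨_, rfl⟩
  have c1 := Finset.card_le_mul_card_image_of_maps_to (s := S) (f := lab Y)
    (t := (Finset.univ : Finset (Bool × Bool)) ×ˢ Finset.Icc A (A + ⌈2 * R⌉₊ + 1))
    (fun P hP => by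
      obtain ⟨x1, x2⟩ := abs_le.mp (h2 Y y2 Y0 P (hS P hP).1 (hS P hP).2)
      simp only [Finset.mem_product, Finset.mem_univ, true_and, Finset.mem_Icc, lab]
      refine ⟨hA ▸ Nat.floor_le_floor (by linarith), Nat.floor_le_of_le ?_⟩
      have x3 := Nat.lt_floor_add_one (√Y * x0 - R)
      have x4 := Nat.le_ceil (2 * R)
      rw [← hA] at x3
      push_cast; linarith) ((2 * M + 1) * (2 * L + 1) ^ 4) (by
      intro t _
      apply classes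
      · intro P hP Q hQ
        obtain ⟨p1, p2⟩ := Finset.mem_filter.mp hP
        obtain ⟨q1, q2⟩ := Finset.mem_filter.mp hQ
        have := (gram hk Y0 hK (hS P p1).1 (hS Q q1).1 (p2.trans q2.symm)).1
        have h2 : |(BB P Q : ℝ)| ≤ (L : ℝ) := by rw [hL]; exact this.trans (Nat.le_ceil _)
        exact_mod_cast h2
      · intro S' hS' hB
        rcases S'.eq_empty_or_nonempty with rfl | ⟨Q, hQ⟩
        · simp
        have mem : ∀ P ∈ S', P ∈ S := fun P hP => (Finset.mem_filter.mp (hS' hP)).1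
        have hB' : ∀ P ∈ S', ∀ Q ∈ S', BB P Q = k := fun P hP Q hQ =>
          (hB P hP Q hQ).trans (hPP P (mem P hP))
        obtain ⟨σ, hσ⟩ : ∃ σ, σ = Q 0 * a + 12 * (Q 1 * b) := ⟨_, rfl⟩
        have c2 := Finset.card_le_card_of_injOn (s := S') (t := Finset.Icc (σ - M) (σ + M))
          (fun P => P 0 * a + 12 * (P 1 * b)) (by
            intro P hP
            have hP' : P ∈ S' := hP
            have := abs_le.mp (h1 Y y1 P Q (hS P (mem P hP')).1 (hS Q (mem Q hQ)).1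
              (hS P (mem P hP')).2 (hS Q (mem Q hQ)).2 (hB' P hP' Q hQ))
            simp only [Finset.coe_Icc, Set.mem_Icc]
            constructor <;> linarith [this.1, this.2]) (by
            intro P hP P' hP' h
            have m1 : P ∈ S' := hP
            have m2 : P' ∈ S' := hP'
            simp only at h
            have l1 := (hS P (mem P m1)).2
            have l2 := (hS P' (mem P' m2)).2
            have e0 : P 0 = P' 0 := by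
              apply mul_left_cancel₀ hab.ne'
              linear_combination a * h + 12 * b * l1 - 12 * b * l2
            have e1 : P 1 = P' 1 := by
              apply mul_left_cancel₀ hab.ne'
              linear_combination b * h - a * l1 + a * l2
            have z1 := hB' P m1 P m1
            have z2 := hB' P' m2 P' m2
            have z3 := hB' P m1 P' m2
            unfold BB at z1 z2 z3
            rw [← e0, ← e1] at z2 z3
            have z4 : (P 2 - P' 2) ^ 2 + 12 * (P 3 - P' 3) ^ 2 = 0 := by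
              linear_combination z1 + z2 - 2 * z3
            have e2 : P 2 = P' 2 := sub_eq_zero.mp (pow_eq_zero_iff two_ne_zero |>.mp
              (by linarith [sq_nonneg (P 2 - P' 2), sq_nonneg (P 3 - P' 3)]))
            have e3 : P 3 = P' 3 := sub_eq_zero.mp (pow_eq_zero_iff two_ne_zero |>.mp
              (by linarith [sq_nonneg (P 2 - P' 2), sq_nonneg (P 3 - P' 3)]))
            funext j
            fin_cases j
            exacts [e0, e1, e2, e3])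
        rw [Int.card_Icc] at c2
        omega)
  simp only [Finset.card_product, Finset.card_univ, Fintype.card_prod, Fintype.card_bool,
    Nat.card_Icc] at c1
  rwa [show A + ⌈2 * R⌉₊ + 1 + 1 - A = ⌈2 * R⌉₊ + 2 by omega] at c1

end Pool.Agent.P.MP_858e15_gt
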