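import Pool.Agent.P.MP_858e15_gt.Lines2

namespace Pool.Agent.P.MP_858e15_gt

open Real

theorem partner : ∃ K M : ℝ, 0 ≤ K ∧ ∀ s : ℤ × ℤ, ∃ (k : ℤ) (P : V), P 0 = |s.1| ∧ P 1 = |s.2| ∧
    (M ≤ (s.1 : ℝ) ^ 2 + 12 * (s.2 : ℝ) ^ 2 → ¬ ((∃ v, FillVol s.1 s.2 v) ∧
      ∀ (p' q' : ℤ) (v : ℝ), FillVol s.1 s.2 v → FillVol p' q' v → |p'| = |s.1| ∧ |q'| = |s.2|) →
      k ≠ 0 ∧ |k| ≤ 13 ∧ Near k (3 * k / (2 * π ^ 2)) K (2 ^ Nat.log 2 (NN P).toNat) P) := by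
  obtain ⟨K, N1, hK, h40, hc⟩ := compare
  refine ⟨K, N1, hK.le, fun s => ?_⟩
  by_cases h : N1 ≤ (s.1 : ℝ) ^ 2 + 12 * (s.2 : ℝ) ^ 2 ∧ ¬ ((∃ v, FillVol s.1 s.2 v) ∧
      ∀ (p' q' : ℤ) (v : ℝ), FillVol s.1 s.2 v → FillVol p' q' v → |p'| = |s.1| ∧ |q'| = |s.2|)
  swap
  · exact ⟨0, ![|s.1|, |s.2|, 0, 0], rfl, rfl, fun h1 h2 => absurd ⟨h1, h2⟩ h⟩
  obtain ⟨m2, c3⟩ := h
  obtain ⟨c1, c2⟩ := hc s.1 s.2 m2
  rw [not_and] at c3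
  have c5 := c3 c1
  simp only [not_forall] at c5
  obtain ⟨p', q', v, f1, f2, f3⟩ := c5
  obtain ⟨k, k1, k2, k3, k4⟩ := (c2 p' q' v f1 f2).resolve_left f3
  obtain ⟨P, hP⟩ : ∃ P : V, P = ![|s.1|, |s.2|, |p'|, |q'|] := ⟨_, rfl⟩
  have f0 : P 0 = |s.1| := by rw [hP]; rfl
  have f1 : P 1 = |s.2| := by rw [hP]; rfl
  have f2 : P 2 = |p'| := by rw [hP]; rfl
  have f3 : P 3 = |q'| := by rw [hP]; rfl
  have nf : (NN P : ℝ) = (s.1 : ℝ) ^ 2 + 12 * (s.2 : ℝ) ^ 2 := by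
    rw [NN_cast, f0, f1]; push_cast; simp only [sq_abs]
  have pos : 0 < NN P := by
    have : (0 : ℝ) < NN P := by linarith
    exact_mod_cast this
  obtain ⟨w3, w4⟩ := dyadic pos
  refine ⟨k, P, f0, f1, fun _ _ => ⟨k1, k2, fun j => ?_, ?_, w3, w4, ?_⟩⟩
  · fin_cases j
    · exact f0.ge.trans' (abs_nonneg _)
    · exact f1.ge.trans' (abs_nonneg _)
    · exact f2.ge.trans' (abs_nonneg _)
    · exact f3.ge.trans' (abs_nonneg _)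
  · unfold NN NN'
    rw [f0, f1, f2, f3]
    simp only [sq_abs]
    exact k3
  · rw [f0, f1, f2, f3, c4_absV, c4_absV]
    refine k4.trans ?_
    rw [← nf]
    exact div_le_div_of_nonneg_left hK.le (by positivity) w3

theorem on_lines (a b i : ℤ) (hab : a ≠ 0 ∨ b ≠ 0) : ∃ C : ℝ, ∀ X : ℝ, 1 ≤ X →
    ∀ S : Finset (ℤ × ℤ), (∀ s ∈ S, s.1 * b - s.2 * a = i ∧
      (s.1 : ℝ) ^ 2 + 12 * (s.2 : ℝ) ^ 2 ≤ X ∧ ¬ ((∃ v, FillVol s.1 s.2 v) ∧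
      ∀ (p' q' : ℤ) (v : ℝ), FillVol s.1 s.2 v → FillVol p' q' v → |p'| = |s.1| ∧ |q'| = |s.2|)) →
    (S.card : ℝ) ≤ C * (1 + log X) := by
  classical
  obtain ⟨K, N1, hK, hc⟩ := partner
  choose kk f f0 f1 ht using hc
  have hab' : 0 < |a| ^ 2 + 12 * |b| ^ 2 := by
    rcases hab with h | h <;> positivity
  choose C Y0 Y00 hs using line_shell hK (abs_nonneg a) (abs_nonneg b) hab'
  obtain ⟨F, hF⟩ : ∃ F : Finset (ℤ × ℤ), F = Finset.Icc (-13 : ℤ) 13 ×ˢ Finset.Icc (-|i|) |i| :=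
    ⟨_, rfl⟩
  obtain ⟨Z, hZ⟩ : ∃ Z : ℝ, Z = ∑ x ∈ F, Y0 x.1 x.2 := ⟨_, rfl⟩
  have Z0 : 0 ≤ Z := by rw [hZ]; exact Finset.sum_nonneg fun x _ => Y00 _ _
  obtain ⟨B, hB⟩ : ∃ B : ℝ, B = ∑ x ∈ F, 4 * (C x.1 x.2 : ℝ) := ⟨_, rfl⟩
  have B0 : 0 ≤ B := by rw [hB]; positivity
  obtain ⟨M, hM⟩ : ∃ M : ℝ, M = |N1| + 80 + 2 * Z := ⟨_, rfl⟩
  have M1 : N1 ≤ M := by linarith [le_abs_self N1]
  have M2 : 80 + 2 * Z ≤ M := by linarith [abs_nonneg N1]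
  obtain ⟨E, hE⟩ : ∃ E : ℝ, E = ((2 * ⌈M⌉₊ + 1) * (2 * ⌈M⌉₊ + 1) : ℕ) := ⟨_, rfl⟩
  have E0 : 0 ≤ E := by rw [hE]; positivity
  refine ⟨E + 2 * B, ?_⟩
  intro X hX S hS
  have lg0 : 0 ≤ log X := log_nonneg hX
  have split := Finset.card_filter_add_card_filter_not (s := S)
    (fun s => (s.1 : ℝ) ^ 2 + 12 * (s.2 : ℝ) ^ 2 < M)
  set S1 := S.filter fun s => (s.1 : ℝ) ^ 2 + 12 * (s.2 : ℝ) ^ 2 < M with hS1
  set S2 := S.filter fun s => ¬ (s.1 : ℝ) ^ 2 + 12 * (s.2 : ℝ) ^ 2 < M with hS2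
  have b1 : (S1.card : ℝ) ≤ E := by
    rw [hE]
    exact_mod_cast small_card M S1 fun s hs => (Finset.mem_filter.mp hs).2
  have nf : ∀ s, (NN (f s) : ℝ) = (s.1 : ℝ) ^ 2 + 12 * (s.2 : ℝ) ^ 2 := fun s => by
    rw [NN_cast, f0, f1]; push_cast; simp only [sq_abs]
  have big : ∀ s ∈ S2, 80 + 2 * Z ≤ (NN (f s) : ℝ) ∧ (NN (f s) : ℝ) ≤ X ∧ kk s ≠ 0 ∧ |kk s| ≤ 13 ∧
      Near (kk s) (3 * kk s / (2 * π ^ 2)) K (2 ^ Nat.log 2 (NN (f s)).toNat) (f s) := by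
    intro s hs
    obtain ⟨m1, m2⟩ := Finset.mem_filter.mp hs
    refine ⟨?_, ?_, ht s (M1.trans (not_lt.mp m2)) (hS s m1).2.2⟩ <;> rw [nf]
    exacts [M2.trans (not_lt.mp m2), (hS s m1).2.1]
  obtain ⟨n, hn⟩ : ∃ n, n = ⌊2 * log X⌋₊ := ⟨_, rfl⟩
  have n1 : (n : ℝ) ≤ 2 * log X := by rw [hn]; exact Nat.floor_le (by positivity)
  have b2 : (S2.card : ℝ) ≤ 2 * B * (1 + log X) := by
    rw [Finset.card_eq_sum_card_fiberwise
      (f := fun s => ((kk s, f s 0 * |b| - f s 1 * |a|), Nat.log 2 (NN (f s)).toNat))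
      (t := F ×ˢ Finset.range (n + 1)) (by
        intro s hs
        have hs' : s ∈ S2 := by exact_mod_cast hs
        obtain ⟨-, u2, -, u4, u5⟩ := big s hs'
        simp only [hF, Finset.coe_product, Set.mem_prod, Finset.mem_coe, Finset.mem_Icc,
          Finset.mem_range]
        refine ⟨⟨abs_le.mp u4, abs_le.mp ?_⟩, Nat.lt_succ_of_le ?_⟩
        · rw [f0, f1, ← abs_mul, ← abs_mul, ← (hS s (Finset.mem_filter.mp hs').1).1]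
          exact abs_abs_sub_abs_le_abs_sub _ _
        · rw [hn]
          exact Nat.le_floor (log_index (u5.2.2.1.trans u2)))]
    push_cast
    have each : ∀ x ∈ F ×ˢ Finset.range (n + 1), ((S2.filter fun s =>
        ((kk s, f s 0 * |b| - f s 1 * |a|), Nat.log 2 (NN (f s)).toNat) = x).card : ℝ)
          ≤ 4 * (C x.1.1 x.1.2 : ℝ) := by
      rintro ⟨⟨k, j⟩, l⟩ hx
      set T := S2.filter fun s =>
        ((kk s, f s 0 * |b| - f s 1 * |a|), Nat.log 2 (NN (f s)).toNat) = ((k, j), l) with hT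
      rcases T.eq_empty_or_nonempty with he | ⟨s0, hs0⟩
      · rw [he]; simp
      have mem : ∀ s ∈ T, 80 + 2 * Z ≤ 2 * (2 : ℝ) ^ l ∧ k ≠ 0 ∧ |k| ≤ 13 ∧
          Near k (3 * k / (2 * π ^ 2)) K (2 ^ l) (f s) ∧ f s 0 * |b| - f s 1 * |a| = j := by
        intro s hs
        obtain ⟨m1, m2⟩ := Finset.mem_filter.mp hs
        obtain ⟨m3, m4⟩ := Prod.mk.inj m2
        obtain ⟨m5, m6⟩ := Prod.mk.inj m3
        obtain ⟨u1, -, u3, u4, u5⟩ := big s m1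
        rw [m4, m5] at u5
        exact ⟨u1.trans u5.2.2.2.1, m5 ▸ u3, m5 ▸ u4, u5, m6⟩
      obtain ⟨u1, u2, u3, -⟩ := mem s0 hs0
      have z1 : Y0 k j ≤ Z := by
        rw [hZ]
        exact Finset.single_le_sum (f := fun x : ℤ × ℤ => Y0 x.1 x.2) (fun x _ => Y00 _ _)
          (Finset.mem_product.mp hx).1
      have c1 := hs k j (2 ^ l) (by linarith) (by linarith) u2 u3 (T.image f) (by
        intro P hP
        obtain ⟨s, hs, rfl⟩ := Finset.mem_image.mp hP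
        exact (mem s hs).2.2.2)
      exact_mod_cast (four_card T f f0 f1).trans (Nat.mul_le_mul_left 4 c1)
    refine (Finset.sum_le_sum each).trans ?_
    rw [Finset.sum_product_right]
    simp only [← hB, Finset.sum_const, Finset.card_range, nsmul_eq_mul]
    push_cast
    nlinarith
  have tot : (S.card : ℝ) = S1.card + S2.card := by exact_mod_cast split.symm
  have w : E ≤ E * (1 + log X) := le_mul_of_one_le_right E0 (by linarith)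
  rw [tot]
  linarith

end Pool.Agent.P.MP_858e15_gt
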