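import Pool.Agent.P.MP_858e15_gt.Concave

namespace Pool.Agent.P.MP_858e15_gt

open Complex Set Filter Topology Asymptotics

noncomputable def s3 : ℝ := √3

theorem s3_sq : s3 ^ 2 = 3 := Real.sq_sqrt (by norm_num)

theorem s3_sqC : (s3 : ℂ) ^ 2 = 3 := by exact_mod_cast s3_sq

theorem s3_pos : 0 < s3 := Real.sqrt_pos.mpr (by norm_num)

theorem s3_lt : s3 < 2 := by nlinarith [s3_sq, s3_pos]

theorem s3_gt : 1 < s3 := by nlinarith [s3_sq, s3_pos]

noncomputable def RR (u : ℂ) : ℂ := 3 + 4 * cosh u - 4 * cosh u ^ 2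

noncomputable def SS (u : ℂ) : ℂ := cexp (log (RR u) / 2)

noncomputable def zf (u : ℂ) : ℂ := 1 / 2 - sinh u + I / 2 * SS u

noncomputable def wf (u : ℂ) : ℂ := 1 / 2 + sinh u + I / 2 * SS u

noncomputable def vf (u : ℂ) : ℂ := 2 * (log (zf u) + log (1 - zf u))

noncomputable def tau : ℂ := 2 * s3 * I

noncomputable def P1 (u : ℂ) : ℂ := tau * (u + u ^ 3 / 3 + 23 / 180 * u ^ 5)

noncomputable def P0 (u : ℂ) : ℂ := tau * (u ^ 2 / 2 + u ^ 4 / 12 + 23 / 1080 * u ^ 6)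

noncomputable def Vf (u : ℂ) : ℝ := tetVol (zf u) + tetVol (wf u)

theorem RR_zero : RR 0 = 3 := by simp [RR]

theorem SS_zero : SS 0 = s3 := by
  unfold SS s3
  rw [RR_zero]
  have : log (3 : ℂ) / 2 = ((Real.log 3 / 2 : ℝ) : ℂ) := by
    push_cast
    rw [Complex.ofReal_log (by norm_num)]; simp
  rw [this, ← ofReal_exp, Real.exp_half, Real.exp_log (by norm_num)]

theorem RR_cont : Continuous RR := by unfold RR; fun_prop

theorem SS_contAt : ContinuousAt SS 0 := by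
  unfold SS
  have h1 : ContinuousAt (fun u => log (RR u)) 0 := by
    apply ContinuousAt.clog RR_cont.continuousAt
    rw [RR_zero]; exact Or.inl (by simp)
  exact (h1.div_const 2).cexp

theorem SS_sq {u : ℂ} (h : 0 < (RR u).re) : SS u ^ 2 = RR u := by
  unfold SS
  have : RR u ≠ 0 := fun h0 => by rw [h0] at h; simp at h
  rw [sq, ← exp_add, add_halves, exp_log this]

theorem SS_ne (u : ℂ) : SS u ≠ 0 := exp_ne_zero _

theorem SS_deriv {u : ℂ} (h : 0 < (RR u).re) :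
    HasDerivAt SS ((2 - 4 * cosh u) * sinh u / SS u) u := by
  have h1 : HasDerivAt RR (4 * sinh u - 4 * (2 * cosh u * sinh u)) u := by
    unfold RR
    have hc := hasDerivAt_cosh u
    have := ((hc.const_mul 4).const_add 3).sub ((hc.pow 2).const_mul 4)
    refine HasDerivAt.congr_deriv this ?_
    simp
  have h2 := ((h1.clog (Or.inl h)).div_const 2).cexp
  refine HasDerivAt.congr_deriv h2 ?_
  have e : cexp (log (RR u) / 2) = SS u := rfl
  rw [e, ← SS_sq h]
  have := SS_ne u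
  field_simp
  ring

theorem exp_inj {a b : ℂ} (h : cexp a = cexp b) (h2 : |a.im - b.im| < 2 * Real.pi) : a = b := by
  obtain ⟨n, hn⟩ := exp_eq_exp_iff_exists_int.mp h
  have him := congrArg Complex.im hn
  have h3 : (b + (n : ℂ) * (2 * Real.pi * I)).im = b.im + n * (2 * Real.pi) := by simp
  rw [h3] at him
  have hp := Real.pi_pos
  rw [abs_lt] at h2
  have n1 : (n : ℝ) < 1 := by
    by_contra hc; push Not at hc; nlinarith [h2.2]
  have n2 : (-1 : ℝ) < n := by
    by_contra hc; push Not at hc; nlinarith [h2.1]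
  have n1' : n < 1 := by exact_mod_cast n1
  have n2' : -1 < n := by exact_mod_cast n2
  have : n = 0 := by omega
  rw [hn, this]; simp

theorem ne_of_im {x : ℂ} (hx : 0 < x.im) : x ≠ 0 ∧ 1 - x ≠ 0 :=
  ⟨fun h0 => by rw [h0] at hx; simp at hx, fun h0 => by
    have := congrArg Complex.im h0
    simp at this; linarith⟩

def Good (u : ℂ) : Prop := 0 < (RR u).re ∧ 0 < (zf u).im ∧ 0 < (wf u).im ∧ ‖u‖ < 1

theorem good_ev : ∀ᶠ u in 𝓝 (0 : ℂ), Good u := by
  have h1 : ∀ᶠ u in 𝓝 (0 : ℂ), 0 < (RR u).re := by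
    have : ContinuousAt (fun u => (RR u).re) 0 := (continuous_re.comp RR_cont).continuousAt
    apply this.eventually (lt_mem_nhds _)
    simp [RR_zero]
  have hS := SS_contAt
  have h2 : ∀ᶠ u in 𝓝 (0 : ℂ), 0 < (zf u).im := by
    have : ContinuousAt (fun u => (zf u).im) 0 := by
      apply continuous_im.continuousAt.comp
      unfold zf; fun_prop
    apply this.eventually (lt_mem_nhds _)
    simp [zf, SS_zero, s3_pos]
  have h3 : ∀ᶠ u in 𝓝 (0 : ℂ), 0 < (wf u).im := by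
    have : ContinuousAt (fun u => (wf u).im) 0 := by
      apply continuous_im.continuousAt.comp
      unfold wf; fun_prop
    apply this.eventually (lt_mem_nhds _)
    simp [wf, SS_zero, s3_pos]
  have h4 : ∀ᶠ u in 𝓝 (0 : ℂ), ‖u‖ < 1 := by
    have : ContinuousAt (fun u : ℂ => ‖u‖) 0 := continuous_norm.continuousAt
    apply this.eventually (gt_mem_nhds _)
    simp
  filter_upwards [h1, h2, h3, h4] with u a b c d using ⟨a, b, c, d⟩

theorem good_edge {u : ℂ} (h : Good u) : zf u * (zf u - 1) * wf u * (wf u - 1) = 1 := by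
  have e1 := SS_sq h.1
  have e2 := cosh_sq u
  have e3 := I_sq
  unfold RR at e1
  unfold zf wf
  set S := SS u
  set s := sinh u
  set c := cosh u
  have a1 : (1 / 2 - s + I / 2 * S) * (1 / 2 - s + I / 2 * S - 1)
      = -((2 + c - 2 * c ^ 2) + I * s * S) := by
    linear_combination (S ^ 2 / 4) * e3 - (1 / 4) * e1 - e2
  have a2 : (1 / 2 + s + I / 2 * S) * (1 / 2 + s + I / 2 * S - 1)
      = -((2 + c - 2 * c ^ 2) - I * s * S) := by
    linear_combination (S ^ 2 / 4) * e3 - (1 / 4) * e1 - e2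
  rw [mul_assoc, a1, a2]
  linear_combination (-(s ^ 2 * S ^ 2)) * e3 + s ^ 2 * e1 - (3 + 4 * c - 4 * c ^ 2) * e2

theorem good_u {u : ℂ} (h : Good u) : log (wf u) + log (1 - zf u) = u := by
  obtain ⟨a1, a2, a3, -, -⟩ := tet_facts h.2.1
  obtain ⟨b1, b2, b3, -, -⟩ := tet_facts h.2.2.1
  apply exp_inj
  · rw [exp_add, exp_log (ne_of_im h.2.2.1).1, exp_log (ne_of_im h.2.1).2, ← cosh_add_sinh]
    have e1 := SS_sq h.1
    have e2 := cosh_sq u
    have e3 := I_sq
    unfold RR at e1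
    unfold zf wf
    linear_combination (-(SS u ^ 2) / 4) * e3 + (1 / 4) * e1 - e2
  · have := abs_im_le_norm u
    have h4 := h.2.2.2
    have hp := Real.pi_gt_three
    rw [abs_le] at this
    rw [add_im, abs_lt]
    constructor <;> linarith [this.1, this.2]

theorem zf_deriv {u : ℂ} (h : Good u) :
    HasDerivAt zf (-cosh u + I / 2 * ((2 - 4 * cosh u) * sinh u / SS u)) u := by
  unfold zf
  have := ((hasDerivAt_sinh u).const_sub (1 / 2)).add ((SS_deriv h.1).const_mul (I / 2))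
  exact this

theorem vf_deriv {u : ℂ} (h : Good u) : HasDerivAt vf (2 * I * ((4 * cosh u - 1) / SS u)) u := by
  have hz := zf_deriv h
  have l1 := hz.clog (Or.inr h.2.1.ne')
  have l2 := (hz.const_sub 1).clog (Or.inr (by have := h.2.1; simp; linarith))
  have := (l1.add l2).const_mul 2
  refine HasDerivAt.congr_deriv this ?_
  have n1 := (ne_of_im h.2.1).1
  have n2 := (ne_of_im h.2.1).2
  have n3 := SS_ne u
  have e1 := SS_sq h.1
  have e2 := cosh_sq u
  have e3 := I_sq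
  unfold RR at e1
  field_simp
  unfold zf
  set S := SS u
  set s := sinh u
  set c := cosh u
  linear_combination (I * S ^ 2 * (4 * c - 1) / 2 - 4 * s * S * c) * e3
    + (I / 2) * e1 + (-(2 * I)) * e2

theorem cosh_taylor : (fun u : ℂ => cosh u - (1 + u ^ 2 / 2 + u ^ 4 / 24)) =O[𝓝 0]
    fun u : ℂ => u ^ 6 := by
  apply IsBigO.of_bound 1
  filter_upwards [good_ev] with u hu
  have h1 := Complex.exp_bound hu.2.2.2.le (n := 6) (by norm_num)
  have h2 := Complex.exp_bound (x := -u) (by rw [norm_neg]; exact hu.2.2.2.le) (n := 6)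
    (by norm_num)
  simp only [Finset.sum_range_succ, Finset.sum_range_zero, Nat.factorial] at h1 h2
  rw [norm_neg] at h2
  have e : cosh u - (1 + u ^ 2 / 2 + u ^ 4 / 24)
      = ((cexp u - (0 + u ^ 0 / 1 + u ^ 1 / 1 + u ^ 2 / 2 + u ^ 3 / 6 + u ^ 4 / 24 + u ^ 5 / 120))
        + (cexp (-u) - (0 + (-u) ^ 0 / 1 + (-u) ^ 1 / 1 + (-u) ^ 2 / 2 + (-u) ^ 3 / 6
          + (-u) ^ 4 / 24 + (-u) ^ 5 / 120))) / 2 := by
    unfold Complex.cosh; ring
  rw [e, norm_div, norm_pow]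
  norm_num at h1 h2 ⊢
  have h3 := norm_add_le (cexp u - (1 + u + u ^ 2 / 2 + u ^ 3 / 6 + u ^ 4 / 24 + u ^ 5 / 120))
    (cexp (-u) - (1 + -u + u ^ 2 / 2 + (-u) ^ 3 / 6 + u ^ 4 / 24 + (-u) ^ 5 / 120))
  have h4 : 0 ≤ ‖u‖ ^ 6 := by positivity
  linarith

theorem deriv_taylor : (fun u : ℂ => 2 * I * ((4 * cosh u - 1) / SS u)
    - tau * (1 + u ^ 2 + 23 / 36 * u ^ 4)) =O[𝓝 0] fun u : ℂ => u ^ 6 := by
  have hS := SS_contAt
  set den : ℂ → ℂ := fun u => SS u * ((4 * cosh u - 1) + s3 * (1 + u ^ 2 + 23 / 36 * u ^ 4) * SS u)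
    with hden
  have hd : ContinuousAt den 0 := by rw [hden]; fun_prop
  have hd0 : den 0 ≠ 0 := by
    have h3 : (s3 : ℂ) ≠ 0 := by exact_mod_cast s3_pos.ne'
    have : den 0 = s3 * 6 := by
      simp only [hden, SS_zero, cosh_zero]
      linear_combination (s3 : ℂ) * s3_sqC
    rw [this]; exact mul_ne_zero h3 (by norm_num)
  set g1 : ℂ → ℂ := fun u => 2 * I * (31 / 3 + 937 / 72 * u ^ 2 + 875 / 108 * u ^ 4
    + 2741 / 1296 * u ^ 6 + 299 / 1296 * u ^ 8 + 529 / 62208 * u ^ 10) / den u with hg1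
  set g2 : ℂ → ℂ := fun u => 2 * I * (16 * (cosh u + (1 + u ^ 2 / 2 + u ^ 4 / 24)) - 8
    - 3 * (1 + u ^ 2 + 23 / 36 * u ^ 4) ^ 2 * (4 - 4 * (cosh u + (1 + u ^ 2 / 2 + u ^ 4 / 24))))
      / den u with hg2
  have c1 : ContinuousAt g1 0 := by
    rw [hg1]; apply ContinuousAt.div _ hd hd0; fun_prop
  have c2 : ContinuousAt g2 0 := by
    rw [hg2]; apply ContinuousAt.div _ hd hd0; fun_prop
  have o1 : (fun u : ℂ => u ^ 6 * g1 u) =O[𝓝 0] fun u : ℂ => u ^ 6 := by
    simpa using (isBigO_refl (fun u : ℂ => u ^ 6) (𝓝 0)).mul (c1.tendsto.isBigO_one ℂ)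
  have o2 : (fun u : ℂ => (cosh u - (1 + u ^ 2 / 2 + u ^ 4 / 24)) * g2 u) =O[𝓝 0]
      fun u : ℂ => u ^ 6 := by
    simpa using cosh_taylor.mul (c2.tendsto.isBigO_one ℂ)
  refine (o1.add o2).congr' ?_ EventuallyEq.rfl
  filter_upwards [good_ev, hd.eventually_ne hd0] with u hu hne
  have e1 := SS_sq hu.1
  unfold RR at e1
  have n3 := SS_ne u
  have n4 : (4 * cosh u - 1) + s3 * (1 + u ^ 2 + 23 / 36 * u ^ 4) * SS u ≠ 0 :=
    right_ne_zero_of_mul hne
  have key : 2 * I * ((4 * cosh u - 1) / SS u) - tau * (1 + u ^ 2 + 23 / 36 * u ^ 4)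
      = 2 * I * ((4 * cosh u - 1) ^ 2 - 3 * (1 + u ^ 2 + 23 / 36 * u ^ 4) ^ 2
        * (3 + 4 * cosh u - 4 * cosh u ^ 2)) / den u := by
    rw [eq_div_iff hne, ← e1, ← s3_sqC]
    simp only [hden, tau]
    field_simp
    ring
  rw [key]
  simp only [hg1, hg2]
  rw [← mul_div_assoc, ← mul_div_assoc, ← add_div]
  congr 1
  ring

theorem zf_zero_norm : ‖zf 0‖ = 1 ∧ ‖1 - zf 0‖ = 1 := by
  have h := s3_sq
  constructor
  · rw [← sq_eq_sq₀ (norm_nonneg _) zero_le_one, ← normSq_eq_norm_sq, normSq_apply]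
    simp [zf, SS_zero]; nlinarith
  · rw [← sq_eq_sq₀ (norm_nonneg _) zero_le_one, ← normSq_eq_norm_sq, normSq_apply]
    simp [zf, SS_zero]; nlinarith

theorem good_zero : Good 0 := good_ev.self_of_nhds

theorem vf_zero : vf 0 = 0 := by
  have h := good_u good_zero
  have : wf 0 = zf 0 := by simp [wf, zf]
  rw [this] at h
  unfold vf
  rw [h, mul_zero]

theorem Vf_zero : Vf 0 = V0 := by
  have hw : wf 0 = zf 0 := by simp [wf, zf]
  obtain ⟨a1, a2, a3, a4, a5⟩ := tet_facts good_zero.2.1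
  have hp := Real.pi_pos
  have r1 : 0 < Real.pi / 3 := by linarith
  have r3 : Real.pi / 3 + Real.pi / 3 < Real.pi := by linarith
  have l1 := F_concave_le r1 r1 r3 a1 a2 a3
  have l2 := F_concave_le a1 a2 a3 r1 r1 r3
  rw [G_reg] at l1
  rw [a5, log_re, log_re, zf_zero_norm.1, zf_zero_norm.2, Real.log_one] at l2
  unfold Vf V0
  rw [hw, a4]
  linarith

theorem im_deriv {f : ℂ → ℂ} {f' u : ℂ} {t : ℝ} (h : HasDerivAt f f' (t * u)) :
    HasDerivAt (fun s : ℝ => (f (s * u)).im) (f' * u).im t := by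
  have h1 : HasDerivAt (fun x : ℂ => f (x * u)) (f' * u) (t : ℂ) := by
    have := h.comp (t : ℂ) ((hasDerivAt_id (t : ℂ)).mul_const u)
    simpa [Function.comp_def] using this
  exact imCLM.hasFDerivAt.comp_hasDerivAt t h1.comp_ofReal

theorem re_deriv {f : ℂ → ℂ} {f' u : ℂ} {t : ℝ} (h : HasDerivAt f f' (t * u)) :
    HasDerivAt (fun s : ℝ => (f (s * u)).re) (f' * u).re t := by
  have h1 : HasDerivAt (fun x : ℂ => f (x * u)) (f' * u) (t : ℂ) := by
    have := h.comp (t : ℂ) ((hasDerivAt_id (t : ℂ)).mul_const u)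
    simpa [Function.comp_def] using this
  exact reCLM.hasFDerivAt.comp_hasDerivAt t h1.comp_ofReal

theorem good_logs {u : ℂ} (h : Good u) :
    log (1 - zf u) = vf u / 2 - log (zf u) ∧ log (wf u) = log (zf u) + u - vf u / 2 ∧
      log (1 - wf u) = -(log (zf u) + u) := by
  have e1 := good_u h
  have e2 := edge_log h.2.1 h.2.2.1 (good_edge h)
  unfold vf
  refine ⟨by ring, by linear_combination e1, by linear_combination e2 - e1⟩

theorem Vf_eq {u : ℂ} (h : Good u) :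
    Vf u = F (log (zf u)).im (log (zf u) - vf u / 2).im
      + F (log (zf u) + u - vf u / 2).im (log (zf u) + u).im := by
  obtain ⟨-, -, -, a4, -⟩ := tet_facts h.2.1
  obtain ⟨-, -, -, b4, -⟩ := tet_facts h.2.2.1
  obtain ⟨e1, e2, e3⟩ := good_logs h
  unfold Vf
  rw [a4, b4, e1, e2, e3]
  congr 2
  · simp
  · simp

theorem Vf_deriv {u : ℂ} {t : ℝ} {v' : ℂ} (hg : ∀ᶠ s : ℝ in 𝓝 t, Good (s * u))
    (hv : HasDerivAt vf v' (t * u)) :
    HasDerivAt (fun s : ℝ => Vf (s * u))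
      ((u.im * (vf (t * u)).re - (v' * u).im * ((t : ℂ) * u).re) / 2) t := by
  have h := hg.self_of_nhds
  have hz := (zf_deriv h).clog (Or.inr h.2.1.ne')
  set l' := (-cosh (t * u) + I / 2 * ((2 - 4 * cosh (t * u)) * sinh (t * u) / SS (t * u)))
    / zf (t * u)
  have d1 := im_deriv hz
  have d2 := im_deriv (hz.sub (hv.div_const 2))
  have d3 := im_deriv ((hz.add (hasDerivAt_id _)).sub (hv.div_const 2))
  have d4 := im_deriv (hz.add (hasDerivAt_id _))
  obtain ⟨a1, a2, a3, -, a5⟩ := tet_facts h.2.1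
  obtain ⟨b1, b2, b3, -, b5⟩ := tet_facts h.2.2.1
  obtain ⟨e1, e2, e3⟩ := good_logs h
  have f1 : -(log (1 - zf (t * u))).im = (log (zf (t * u)) - vf (t * u) / 2).im := by
    rw [e1]; simp
  have f2 : -(log (1 - wf (t * u))).im = (log (zf (t * u)) + t * u).im := by
    rw [e3]; simp
  rw [f1] at a2 a3 a5
  rw [f2, e2] at b3 b5
  rw [f2] at b2
  rw [e2] at b1
  have k1 := F_hasDerivAt d1 d2 a1 a2 a3
  have k2 := F_hasDerivAt d3 d4 b1 b2 b3
  have k := k1.add k2
  have heq : (fun s : ℝ => Vf (s * u)) =ᶠ[𝓝 t] _ := hg.mono fun s hs => Vf_eq hs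
  refine HasDerivAt.congr_deriv (k.congr_of_eventuallyEq heq) ?_
  simp only [Pi.sub_apply, Pi.add_apply, id]
  rw [a5, b5, e1, e3]
  simp only [sub_mul, add_mul, one_mul, add_im, sub_im, add_re, sub_re, neg_re, div_ofNat_re,
    div_mul_eq_mul_div, div_ofNat_im]
  ring

theorem norm_tau : ‖tau‖ ≤ 4 := by
  unfold tau
  rw [norm_mul, norm_mul, norm_I, norm_real, Real.norm_eq_abs, abs_of_pos s3_pos]
  simp; linarith [s3_lt]

theorem P1_deriv (u : ℂ) : HasDerivAt P1 (tau * (1 + u ^ 2 + 23 / 36 * u ^ 4)) u := by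
  unfold P1
  have h := hasDerivAt_id u
  have := (((h.add ((h.pow 3).div_const 3)).add ((h.pow 5).const_mul (23 / 180)))).const_mul tau
  refine HasDerivAt.congr_deriv this ?_
  simp only [id]; push_cast; ring

theorem P0_deriv (u : ℂ) : HasDerivAt P0 (P1 u) u := by
  unfold P0 P1
  have h := hasDerivAt_id u
  have := (((((h.pow 2).div_const 2).add ((h.pow 4).div_const 12)).add
    ((h.pow 6).const_mul (23 / 1080)))).const_mul tau
  refine HasDerivAt.congr_deriv this ?_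
  simp only [id]; push_cast; ring

theorem local_data : ∃ r C : ℝ, 0 < r ∧ r ≤ 1 ∧ 0 < C ∧
    (∀ u : ℂ, ‖u‖ < r → Good u ∧ ‖vf u - P1 u‖ ≤ C * ‖u‖ ^ 7 ∧
      |Vf u - V0 - ((P0 u).im - u.re * (vf u).im) / 2| ≤ C * ‖u‖ ^ 8) ∧
    (∀ (ρ : ℝ) (x y : ℂ), ρ < r → ‖x‖ ≤ ρ → ‖y‖ ≤ ρ →
      ‖(vf y - tau * y) - (vf x - tau * x)‖ ≤ C * ρ ^ 2 * ‖y - x‖) := by
  obtain ⟨C, hC, hb⟩ := deriv_taylor.exists_pos
  obtain ⟨r0, hr0, hr⟩ := Metric.eventually_nhds_iff.mp (good_ev.and hb.bound)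
  have hr' : ∀ u : ℂ, ‖u‖ < r0 → Good u ∧ ‖2 * I * ((4 * cosh u - 1) / SS u)
      - tau * (1 + u ^ 2 + 23 / 36 * u ^ 4)‖ ≤ C * ‖u‖ ^ 6 := by
    intro u hu
    have := hr (y := u) (by simpa using hu)
    rw [norm_pow] at this
    exact this
  have h7 : ∀ u : ℂ, ‖u‖ < r0 → ‖vf u - P1 u‖ ≤ C * ‖u‖ ^ 7 := by
    intro u hu
    have := (convex_closedBall (0 : ℂ) ‖u‖).norm_image_sub_le_of_norm_hasDerivWithin_le
      (f := fun x => vf x - P1 x) (C := C * ‖u‖ ^ 6) (x := 0) (y := u)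
      (f' := fun x => 2 * I * ((4 * cosh x - 1) / SS x) - tau * (1 + x ^ 2 + 23 / 36 * x ^ 4))
      (fun x hx => by
        have hx' : ‖x‖ ≤ ‖u‖ := by simpa using hx
        exact ((vf_deriv (hr' x (by linarith)).1).sub (P1_deriv x)).hasDerivWithinAt)
      (fun x hx => by
        have hx' : ‖x‖ ≤ ‖u‖ := by simpa using hx
        refine (hr' x (by linarith)).2.trans ?_
        gcongr)
      (by simp) (by simp)
    simp only [vf_zero, P1, sub_zero] at this ⊢
    norm_num at this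
    calc _ ≤ C * ‖u‖ ^ 6 * ‖u‖ := this
      _ = C * ‖u‖ ^ 7 := by ring
  refine ⟨min r0 1, C + 8, lt_min hr0 one_pos, min_le_right _ _, by linarith, ?_, ?_⟩
  · intro u hu
    have hu0 : ‖u‖ < r0 := lt_of_lt_of_le hu (min_le_left _ _)
    refine ⟨(hr' u hu0).1, (h7 u hu0).trans (by gcongr; linarith), ?_⟩
    have hn : ∀ t : ℝ, ‖(t : ℂ) * u‖ = |t| * ‖u‖ := fun t => by simp
    have hle : ∀ t ∈ Icc (0 : ℝ) 1, ‖(t : ℂ) * u‖ ≤ ‖u‖ := fun t ht => by
      rw [hn, abs_of_nonneg ht.1]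
      exact mul_le_of_le_one_left (norm_nonneg _) ht.2
    have hd : ∀ t ∈ Icc (0 : ℝ) 1, HasDerivWithinAt
        (fun s : ℝ => Vf (s * u) - ((P0 (s * u)).im - ((s : ℂ) * u).re * (vf (s * u)).im) / 2)
        (((vf (t * u) - P1 (t * u)) * u).im / 2) (Icc 0 1) t := by
      intro t ht
      have hlt : ‖(t : ℂ) * u‖ < r0 := lt_of_le_of_lt (hle t ht) hu0
      have hev : ∀ᶠ s : ℝ in 𝓝 t, Good (s * u) := by
        have hc : ContinuousAt (fun s : ℝ => ‖(s : ℂ) * u‖) t := by fun_prop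
        exact (hc.eventually (gt_mem_nhds hlt)).mono fun s hs => (hr' _ hs).1
      have hv := vf_deriv (hr' _ hlt).1
      have d1 := Vf_deriv hev hv
      have d2 := im_deriv (P0_deriv (t * u))
      have d3 := re_deriv (hasDerivAt_id ((t : ℂ) * u))
      have d4 := im_deriv hv
      have d := d1.sub ((d2.sub (d3.mul d4)).div_const 2)
      refine (HasDerivAt.congr_deriv d ?_).hasDerivWithinAt
      simp only [id, one_mul, sub_mul, sub_im, mul_im (vf (t * u)) u]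
      ring
    have hm := norm_image_sub_le_of_norm_deriv_le_segment_01' (C := C * ‖u‖ ^ 8) hd (by
      intro t ht
      have h1 := hle t (Ico_subset_Icc_self ht)
      have h2 := h7 _ (lt_of_le_of_lt h1 hu0)
      have h3 := abs_im_le_norm ((vf (t * u) - P1 (t * u)) * u)
      rw [norm_mul] at h3
      have h4 : ‖vf (t * u) - P1 (t * u)‖ * ‖u‖ ≤ C * ‖u‖ ^ 7 * ‖u‖ := by
        refine mul_le_mul_of_nonneg_right (h2.trans ?_) (norm_nonneg _)
        gcongr
      rw [Real.norm_eq_abs, abs_div, abs_two]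
      have h5 : C * ‖u‖ ^ 7 * ‖u‖ = C * ‖u‖ ^ 8 := by ring
      have h6 : 0 ≤ C * ‖u‖ ^ 8 := by positivity
      linarith)
    simp only [ofReal_one, one_mul, ofReal_zero, zero_mul, Vf_zero, P0, Real.norm_eq_abs] at hm
    norm_num at hm
    have h6 : C * ‖u‖ ^ 8 ≤ (C + 8) * ‖u‖ ^ 8 := by gcongr; linarith
    refine le_trans (le_of_eq ?_) (hm.trans h6)
    congr 1
    simp only [P0]
    norm_num
    ring
  · intro ρ x y hρ hx hy
    have hρ0 : ρ < r0 := lt_of_lt_of_le hρ (min_le_left _ _)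
    have hρ1 : ρ ≤ 1 := (lt_of_lt_of_le hρ (min_le_right _ _)).le
    have hρn : 0 ≤ ρ := (norm_nonneg _).trans hx
    exact (convex_closedBall (0 : ℂ) ρ).norm_image_sub_le_of_norm_hasDerivWithin_le
      (f := fun x => vf x - tau * x) (C := (C + 8) * ρ ^ 2) (x := x) (y := y)
      (f' := fun x => 2 * I * ((4 * cosh x - 1) / SS x) - tau * 1)
      (fun a ha => by
        have ha' : ‖a‖ ≤ ρ := by simpa using ha
        exact ((vf_deriv (hr' a (by linarith)).1).sub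
          ((hasDerivAt_id a).const_mul tau)).hasDerivWithinAt)
      (fun a ha => by
        have ha' : ‖a‖ ≤ ρ := by simpa using ha
        have h1 := (hr' a (by linarith)).2
        have e : 2 * I * ((4 * cosh a - 1) / SS a) - tau * 1
            = (2 * I * ((4 * cosh a - 1) / SS a) - tau * (1 + a ^ 2 + 23 / 36 * a ^ 4))
              + tau * (a ^ 2 + 23 / 36 * a ^ 4) := by ring
        have h2 : ‖a‖ ^ 2 ≤ ρ ^ 2 := by gcongr
        have h3 : ‖a‖ ^ 4 ≤ ρ ^ 2 :=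
          (pow_le_pow_of_le_one (norm_nonneg _) (ha'.trans hρ1) (by norm_num)).trans h2
        have h4 : ‖a‖ ^ 6 ≤ ρ ^ 2 :=
          (pow_le_pow_of_le_one (norm_nonneg _) (ha'.trans hρ1) (by norm_num)).trans h2
        have h5 : ‖a ^ 2 + 23 / 36 * a ^ 4‖ ≤ 2 * ρ ^ 2 := by
          refine (norm_add_le _ _).trans ?_
          rw [norm_mul, norm_pow, norm_pow]
          have : ‖(23 / 36 : ℂ)‖ = 23 / 36 := by simp
          rw [this]
          have : 0 ≤ ‖a‖ ^ 4 := by positivity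
          linarith
        have h6 : ‖tau * (a ^ 2 + 23 / 36 * a ^ 4)‖ ≤ 4 * (2 * ρ ^ 2) := by
          rw [norm_mul]
          exact mul_le_mul norm_tau h5 (norm_nonneg _) (by norm_num)
        have h7 : C * ‖a‖ ^ 6 ≤ C * ρ ^ 2 := by gcongr
        rw [e]
        refine (norm_add_le _ _).trans ?_
        linarith)
      (by simpa using hx) (by simpa using hy)

end Pool.Agent.P.MP_858e15_gt
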