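import Pool.Agent.P.MP_858e15_gt.Shell

namespace Pool.Agent.P.MP_858e15_gt

open Real

theorem small_card (M : ℝ) (S : Finset (ℤ × ℤ))
    (h : ∀ s ∈ S, (s.1 : ℝ) ^ 2 + 12 * (s.2 : ℝ) ^ 2 < M) :
    S.card ≤ (2 * ⌈M⌉₊ + 1) * (2 * ⌈M⌉₊ + 1) := by
  have key : ∀ x : ℤ, (x : ℝ) ^ 2 < M → x ∈ Finset.Icc (-(⌈M⌉₊ : ℤ)) (⌈M⌉₊ : ℤ) := by
    intro x hx
    have h1 : (x : ℝ) ^ 2 ≤ (⌈M⌉₊ : ℝ) := hx.le.trans (Nat.le_ceil M)
    have h2 : x ^ 2 ≤ (⌈M⌉₊ : ℤ) := by exact_mod_cast h1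
    rw [Finset.mem_Icc]
    constructor <;> nlinarith [sq_nonneg (x + 1), sq_nonneg (x - 1), Int.le_self_sq x,
      Int.le_self_sq (-x)]
  have h1 : S ⊆ Finset.Icc (-(⌈M⌉₊ : ℤ)) (⌈M⌉₊ : ℤ) ×ˢ Finset.Icc (-(⌈M⌉₊ : ℤ)) (⌈M⌉₊ : ℤ) := by
    intro s hs
    have := h s hs
    exact Finset.mem_product.mpr ⟨key _ (by nlinarith [sq_nonneg (s.2 : ℝ)]),
      key _ (by nlinarith [sq_nonneg (s.1 : ℝ), sq_nonneg (s.2 : ℝ)])⟩
  refine (Finset.card_le_card h1).trans ?_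
  rw [Finset.card_product, Int.card_Icc]
  have : ((⌈M⌉₊ : ℤ) + 1 - -(⌈M⌉₊ : ℤ)).toNat = 2 * ⌈M⌉₊ + 1 := by omega
  rw [this]

theorem four_card (T : Finset (ℤ × ℤ)) (f : ℤ × ℤ → V) (h0 : ∀ s, f s 0 = |s.1|)
    (h1 : ∀ s, f s 1 = |s.2|) : T.card ≤ 4 * (T.image f).card := by
  classical
  apply Finset.card_le_mul_card_image
  intro e _
  have h2 : (T.filter fun s => f s = e) ⊆ ({e 0, -e 0} : Finset ℤ) ×ˢ ({e 1, -e 1} : Finset ℤ) := by
    intro s hs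
    have := (Finset.mem_filter.mp hs).2
    rw [← this, h0, h1]
    simp only [Finset.mem_product, Finset.mem_insert, Finset.mem_singleton]
    constructor
    · rcases abs_choice s.1 with h | h <;> omega
    · rcases abs_choice s.2 with h | h <;> omega
  refine (Finset.card_le_card h2).trans ?_
  rw [Finset.card_product]
  exact Nat.mul_le_mul Finset.card_le_two Finset.card_le_two

theorem c_range {k : ℤ} (h0 : k ≠ 0) (h : |k| ≤ 13) :
    0.15 ≤ |3 * (k : ℝ) / (2 * π ^ 2)| ∧ |3 * (k : ℝ) / (2 * π ^ 2)| ≤ 1.99 := by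
  obtain ⟨p1, p2⟩ := pi_sq_bounds
  have k1 : (1 : ℝ) ≤ |(k : ℝ)| := by exact_mod_cast Int.one_le_abs h0
  have k2 : |(k : ℝ)| ≤ 13 := by exact_mod_cast h
  rw [abs_div, abs_mul, abs_of_pos (show (0 : ℝ) < 3 by norm_num),
    abs_of_pos (show 0 < 2 * π ^ 2 by positivity), le_div_iff₀ (by positivity),
    div_le_iff₀ (by positivity)]
  constructor <;> linarith

theorem almost_all : ∃ C : ℝ, ∀ X : ℝ, 1 ≤ X → ∀ S : Finset (ℤ × ℤ),
    (∀ s ∈ S, (s.1 : ℝ) ^ 2 + 12 * (s.2 : ℝ) ^ 2 ≤ X ∧ ¬ ((∃ v, FillVol s.1 s.2 v) ∧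
      ∀ (p' q' : ℤ) (v : ℝ), FillVol s.1 s.2 v → FillVol p' q' v → |p'| = |s.1| ∧ |q'| = |s.2|)) →
    (S.card : ℝ) ≤ C * √X * (1 + log X) ^ 2 := by
  classical
  obtain ⟨K, N1, hK, -, hc⟩ := compare
  obtain ⟨C, hC, hs⟩ := shell hK.le
  obtain ⟨M, hM⟩ : ∃ M : ℝ, M = max N1 80 := ⟨_, rfl⟩
  have M1 : N1 ≤ M := hM ▸ le_max_left _ _
  have M2 : 80 ≤ M := hM ▸ le_max_right _ _
  obtain ⟨E, hE⟩ : ∃ E : ℝ, E = ((2 * ⌈M⌉₊ + 1) * (2 * ⌈M⌉₊ + 1) : ℕ) := ⟨_, rfl⟩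
  have E0 : 0 ≤ E := by rw [hE]; positivity
  refine ⟨E + 27 * (4 * C * 4), ?_⟩
  intro X hX S hS
  have lg0 : 0 ≤ log X := log_nonneg hX
  have H1 : 1 ≤ √X := le_sqrt_of_sq_le (by linarith)
  have split := Finset.card_filter_add_card_filter_not (s := S)
    (fun s => (s.1 : ℝ) ^ 2 + 12 * (s.2 : ℝ) ^ 2 < M)
  set S1 := S.filter fun s => (s.1 : ℝ) ^ 2 + 12 * (s.2 : ℝ) ^ 2 < M with hS1
  set S2 := S.filter fun s => ¬ (s.1 : ℝ) ^ 2 + 12 * (s.2 : ℝ) ^ 2 < M with hS2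
  have b1 : (S1.card : ℝ) ≤ E := by
    rw [hE]
    exact_mod_cast small_card M S1 fun s hs => (Finset.mem_filter.mp hs).2
  have ex : ∀ s : ℤ × ℤ, ∃ t : ℤ × ℤ × ℤ, s ∈ S2 → t.1 ≠ 0 ∧ |t.1| ≤ 13 ∧
      t.2.1 ^ 2 + 12 * t.2.2 ^ 2 = s.1 ^ 2 + 12 * s.2 ^ 2 + t.1 ∧
      |c4 s.1 s.2 - c4 t.2.1 t.2.2 - 3 * t.1 / (2 * π ^ 2)|
        ≤ K / ((s.1 : ℝ) ^ 2 + 12 * (s.2 : ℝ) ^ 2) := by
    intro s
    by_cases h : s ∈ S2
    swap
    · exact ⟨0, fun h' => absurd h' h⟩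
    obtain ⟨m1, m2⟩ := Finset.mem_filter.mp h
    obtain ⟨c1, c2⟩ := hc s.1 s.2 (M1.trans (not_lt.mp m2))
    have c3 := (hS s m1).2
    rw [not_and] at c3
    have c4' := c3 c1
    simp only [not_forall] at c4'
    obtain ⟨p', q', v, f1, f2, f3⟩ := c4'
    obtain ⟨k, k1, k2, k3, k4⟩ := (c2 p' q' v f1 f2).resolve_left f3
    exact ⟨(k, p', q'), fun _ => ⟨k1, k2, k3, k4⟩⟩
  choose t ht using ex
  obtain ⟨f, hf⟩ : ∃ f : ℤ × ℤ → V, f = fun s => ![|s.1|, |s.2|, |(t s).2.1|, |(t s).2.2|] :=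
    ⟨_, rfl⟩
  have f0 : ∀ s, f s 0 = |s.1| := fun s => by rw [hf]; rfl
  have f1 : ∀ s, f s 1 = |s.2| := fun s => by rw [hf]; rfl
  have f2 : ∀ s, f s 2 = |(t s).2.1| := fun s => by rw [hf]; rfl
  have f3 : ∀ s, f s 3 = |(t s).2.2| := fun s => by rw [hf]; rfl
  have nf : ∀ s, (NN (f s) : ℝ) = (s.1 : ℝ) ^ 2 + 12 * (s.2 : ℝ) ^ 2 := fun s => by
    rw [NN_cast, f0, f1]; push_cast; simp only [sq_abs]
  have big : ∀ s ∈ S2, 80 ≤ (NN (f s) : ℝ) ∧ (NN (f s) : ℝ) ≤ X := by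
    intro s hs
    obtain ⟨m1, m2⟩ := Finset.mem_filter.mp hs
    rw [nf]
    exact ⟨M2.trans (not_lt.mp m2), (hS s m1).1⟩
  have pos : ∀ s ∈ S2, 0 < NN (f s) := fun s hs => by
    have : (0 : ℝ) < NN (f s) := by linarith [(big s hs).1]
    exact_mod_cast this
  obtain ⟨n, hn⟩ : ∃ n, n = Nat.log 2 ⌊X⌋₊ := ⟨_, rfl⟩
  have n1 : (2 : ℝ) ^ n ≤ X := by
    have h1 := Nat.pow_log_le_self 2 (show ⌊X⌋₊ ≠ 0 from (Nat.floor_pos.mpr hX).ne')
    have h2 : (2 : ℝ) ^ n ≤ (⌊X⌋₊ : ℝ) := by rw [hn]; exact_mod_cast h1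
    exact h2.trans (Nat.floor_le (by linarith))
  have b2 : (S2.card : ℝ) ≤ 27 * (4 * C * 4) * √X * (1 + log X) ^ 2 := by
    rw [Finset.card_eq_sum_card_fiberwise
      (f := fun s => ((t s).1, Nat.log 2 (NN (f s)).toNat))
      (t := Finset.Icc (-13 : ℤ) 13 ×ˢ Finset.range (n + 1)) (by
        intro s hs
        have hs' : s ∈ S2 := by exact_mod_cast hs
        simp only [Finset.coe_product, Set.mem_prod, Finset.mem_coe, Finset.mem_Icc,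
          Finset.mem_range]
        refine ⟨abs_le.mp (ht s hs').2.1, Nat.lt_succ_of_le ?_⟩
        rw [hn]
        apply Nat.log_mono_right
        apply Nat.le_floor
        have e : (((NN (f s)).toNat : ℕ) : ℝ) = NN (f s) := by
          exact_mod_cast Int.toNat_of_nonneg (pos s hs').le
        rw [e]
        exact (big s hs').2)]
    push_cast
    have each : ∀ a ∈ Finset.Icc (-13 : ℤ) 13 ×ˢ Finset.range (n + 1),
        ((S2.filter fun s => ((t s).1, Nat.log 2 (NN (f s)).toNat) = a).card : ℝ)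
          ≤ 4 * C * (1 + log X) ^ 2 * √((2 : ℝ) ^ a.2) := by
      rintro ⟨k, i⟩ _
      set T := S2.filter fun s => ((t s).1, Nat.log 2 (NN (f s)).toNat) = (k, i) with hT
      rcases T.eq_empty_or_nonempty with he | ⟨s0, hs0⟩
      · rw [he]; simp; positivity
      have mem : ∀ s ∈ T, s ∈ S2 ∧ (t s).1 = k ∧ (2 : ℝ) ^ i ≤ NN (f s) ∧
          (NN (f s) : ℝ) ≤ 2 * 2 ^ i := by
        intro s hs
        obtain ⟨m1, m2⟩ := Finset.mem_filter.mp hs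
        obtain ⟨m3, m4⟩ := Prod.mk.inj m2
        have := dyadic (pos s m1)
        rw [m4] at this
        exact ⟨m1, m3, this⟩
      obtain ⟨u1, u2, u3, u4⟩ := mem s0 hs0
      have k0 : k ≠ 0 := u2 ▸ (ht s0 u1).1
      have k1 : |k| ≤ 13 := u2 ▸ (ht s0 u1).2.1
      have Y1 : 40 ≤ (2 : ℝ) ^ i := by linarith [(big s0 u1).1]
      have Y2 : (2 : ℝ) ^ i ≤ X := u3.trans (big s0 u1).2
      have c1 := hs k (3 * k / (2 * π ^ 2)) (2 ^ i) (T.image f) k0 k1 (c_range k0 k1).1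
        (c_range k0 k1).2 Y1 (by
          intro P hP
          obtain ⟨s, hs, rfl⟩ := Finset.mem_image.mp hP
          obtain ⟨w1, w2, w3, w4⟩ := mem s hs
          obtain ⟨-, -, z3, z4⟩ := ht s w1
          refine ⟨fun j => ?_, ?_, w3, w4, ?_⟩
          · fin_cases j
            · exact (f0 s).ge.trans' (abs_nonneg _)
            · exact (f1 s).ge.trans' (abs_nonneg _)
            · exact (f2 s).ge.trans' (abs_nonneg _)
            · exact (f3 s).ge.trans' (abs_nonneg _)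
          · unfold NN NN'
            rw [f0, f1, f2, f3, ← w2]
            simp only [sq_abs]
            exact z3
          · rw [f0, f1, f2, f3, c4_absV, c4_absV, ← w2]
            refine z4.trans ?_
            rw [← nf]
            exact div_le_div_of_nonneg_left hK.le (by linarith) w3)
      have c2 : (T.card : ℝ) ≤ 4 * ((T.image f).card : ℝ) := by
        exact_mod_cast four_card T f f0 f1
      have l1 : log ((2 : ℝ) ^ i) ≤ log X := log_le_log (by linarith) Y2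
      have l0 : 0 ≤ log ((2 : ℝ) ^ i) := log_nonneg (by linarith)
      calc _ ≤ 4 * (C * √((2 : ℝ) ^ i) * (1 + log ((2 : ℝ) ^ i)) ^ 2) := by linarith
        _ ≤ 4 * (C * √((2 : ℝ) ^ i) * (1 + log X) ^ 2) := by gcongr
        _ = _ := by ring
    refine (Finset.sum_le_sum each).trans ?_
    rw [Finset.sum_product]
    simp only [← Finset.mul_sum, Finset.sum_const, Int.card_Icc, nsmul_eq_mul]
    have g1 := geom_sqrt n
    have g2 : √((2 : ℝ) ^ n) ≤ √X := sqrt_le_sqrt n1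
    have g3 : (((13 + 1 - -13 : ℤ).toNat : ℕ) : ℝ) = 27 := by
      rw [show (13 + 1 - -13 : ℤ).toNat = 27 by decide]; norm_num
    rw [g3]
    calc _ ≤ 4 * C * (1 + log X) ^ 2 * (27 * (4 * √X)) := by gcongr; linarith
      _ = _ := by ring
  have tot : (S.card : ℝ) = S1.card + S2.card := by exact_mod_cast split.symm
  have w : E ≤ E * √X * (1 + log X) ^ 2 := by
    rw [mul_assoc]
    exact le_mul_of_one_le_right E0 (one_le_mul_of_one_le_of_one_le H1 (by nlinarith))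
  rw [tot]
  linarith

end Pool.Agent.P.MP_858e15_gt
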