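import Pool.Agent.P.MP_858e15_gt.Geo
import Pool.Agent.P.MP_858e15_gt.Concave

namespace Pool.Agent.P.MP_858e15_gt

open Set MeasureTheory Real

theorem ls_int (a b : ℝ) : IntervalIntegrable (fun t => log |2 * sin t|) volume a b := by
  have h : IntervalIntegrable (log ∘ fun t => 2 * sin t) volume a b :=
    ((analyticOnNhd_const.mul analyticOnNhd_sin).meromorphicOn.intervalIntegrable_log)
  simpa only [Function.comp_def, log_abs] using h

theorem lob_pi : lob π = 0 := by
  unfold lob
  rw [neg_eq_zero, intervalIntegral.integral_congr_ae (g := fun t => log 2 + log (sin t))]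
  · rw [intervalIntegral.integral_add (g := fun t => log (sin t)) intervalIntegrable_const
      intervalIntegrable_log_sin, integral_log_sin_zero_pi]
    simp; ring
  · filter_upwards [compl_mem_ae_iff.mpr (measure_singleton π)] with t h1 h2
    rw [uIoc_of_le pi_pos.le] at h2
    have : 0 < sin t := sin_pos_of_pos_of_lt_pi h2.1 (lt_of_le_of_ne h2.2 h1)
    rw [log_abs, log_mul two_ne_zero this.ne']

theorem lob_sub (a b : ℝ) : ∫ t in a..b, log |2 * sin t| = lob a - lob b := by
  unfold lob
  rw [← intervalIntegral.integral_interval_sub_left (ls_int 0 b) (ls_int 0 a)]; ring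

theorem lob_pi_sub (x : ℝ) : lob (π - x) = -lob x := by
  have h := intervalIntegral.integral_comp_sub_left (a := 0) (b := x)
    (fun t => log |2 * sin t|) π
  simp only [sin_pi_sub, sub_zero] at h
  rw [lob_sub (π - x) π, lob_pi, sub_zero] at h
  rw [← h, lob, neg_neg]

theorem vert_int {g : ℝ} (hg : 0 < g) :
    ∫⁻ h in {h : ℝ | 0 < h ∧ g ≤ h ^ 2}, ENNReal.ofReal (1 / h ^ 3)
      = ENNReal.ofReal (1 / (2 * g)) := by
  have s0 : 0 < √g := sqrt_pos.mpr hg
  have e : {h : ℝ | 0 < h ∧ g ≤ h ^ 2} = Ici √g := by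
    ext h
    simp only [mem_ofPred_eq, mem_Ici]
    exact ⟨fun h1 => sqrt_le_iff.mpr ⟨h1.1.le, h1.2⟩,
      fun h1 => ⟨s0.trans_le h1, (sqrt_le_iff.mp h1).2⟩⟩
  have c : EqOn (fun h : ℝ => h ^ (-3 : ℝ)) (fun h => 1 / h ^ 3) (Ioi √g) := by
    intro h hh
    have : 0 < h := s0.trans hh
    simp only
    rw [rpow_neg this.le, one_div, ← rpow_natCast]; norm_num
  rw [e, setLIntegral_congr Ioi_ae_eq_Ici.symm, ← ofReal_integral_eq_lintegral_ofReal
    ((integrableOn_Ioi_rpow_of_lt (by norm_num) s0).congr_fun c measurableSet_Ioi)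
    (ae_restrict_of_forall_mem measurableSet_Ioi fun h hh => by
      have : 0 < h := s0.trans hh
      positivity),
    ← setIntegral_congr_fun measurableSet_Ioi c, integral_Ioi_rpow_of_lt (by norm_num) s0]
  congr 1
  rw [show (-3 : ℝ) + 1 = -(2 : ℕ) by norm_num, rpow_neg s0.le, rpow_natCast, sq_sqrt hg.le]
  push_cast
  field_simp

theorem rad_int {ρ l : ℝ} (h0 : 0 < ρ) (h1 : ρ < l) :
    ∫⁻ r in Ioc 0 ρ, ENNReal.ofReal (1 / (2 * (l - r)))
      = ENNReal.ofReal (1 / 2 * (log l - log (l - ρ))) := by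
  have hc : ContinuousOn (fun r => 1 / (2 * (l - r))) (uIcc 0 ρ) := by
    apply ContinuousOn.div continuousOn_const (by fun_prop)
    intro r hr
    rw [uIcc_of_le h0.le] at hr
    have : 0 < l - r := by linarith [hr.2]
    positivity
  rw [← ofReal_integral_eq_lintegral_ofReal
    ((intervalIntegrable_iff_integrableOn_Ioc_of_le h0.le).mp hc.intervalIntegrable)
    (ae_restrict_of_forall_mem measurableSet_Ioc fun r hr => by
      have : 0 < l - r := by linarith [hr.2]
      positivity), ← intervalIntegral.integral_of_le h0.le,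
    intervalIntegral.integral_eq_sub_of_hasDerivAt (f := fun r => -(1 / 2) * log (l - r)) ?_
      hc.intervalIntegrable]
  · congr 1; rw [sub_zero]; ring
  · intro r hr
    rw [uIcc_of_le h0.le] at hr
    have : 0 < l - r := by linarith [hr.2]
    refine ((((hasDerivAt_id r).const_sub l).log this.ne').const_mul (-(1 / 2))).congr_deriv ?_
    simp only [id]
    field_simp

theorem ang_int {α β γ : ℝ} (ha : 0 < α) (hb : 0 < β) (hc : 0 < γ) (h : α + β + γ = π) :
    ∫⁻ φ in Ioo 0 α, ENNReal.ofReal (1 / 2 * (log (sin (γ + φ) / sin γ)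
      - log (sin (γ + φ) / sin γ - sin β / sin (β + φ))))
      = ENNReal.ofReal (lob α + lob β + lob γ) ∧ 0 ≤ lob α + lob β + lob γ := by
  obtain ⟨G, hG⟩ : ∃ G : ℝ → ℝ, G = fun φ => 1 / 2 * (log |2 * sin (γ + φ)| + log |2 * sin (β + φ)|
    - log |2 * sin φ| - log |2 * sin (α - φ)|) := ⟨_, rfl⟩
  have i1 : IntervalIntegrable (fun φ => log |2 * sin (γ + φ)|) volume 0 α := by
    simpa using (ls_int γ (γ + α)).comp_add_left γ
  have i2 : IntervalIntegrable (fun φ => log |2 * sin (β + φ)|) volume 0 α := by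
    simpa using (ls_int β (β + α)).comp_add_left β
  have i3 := ls_int 0 α
  have i4 : IntervalIntegrable (fun φ => log |2 * sin (α - φ)|) volume 0 α := by
    simpa using (ls_int α 0).comp_sub_left α
  have iG : IntervalIntegrable G volume 0 α := by
    rw [hG]; exact (((i1.add i2).sub i3).sub i4).const_mul _
  have vG : ∫ φ in (0 : ℝ)..α, G φ = lob α + lob β + lob γ := by
    rw [hG, intervalIntegral.integral_const_mul,
      intervalIntegral.integral_sub ((i1.add i2).sub i3) i4,
      intervalIntegral.integral_sub (i1.add i2) i3, intervalIntegral.integral_add i1 i2,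
      intervalIntegral.integral_comp_add_left (fun t => log |2 * sin t|),
      intervalIntegral.integral_comp_add_left (fun t => log |2 * sin t|),
      intervalIntegral.integral_comp_sub_left (fun t => log |2 * sin t|)]
    simp only [lob_sub, add_zero, sub_self, sub_zero]
    rw [show γ + α = π - β by linarith, show β + α = π - γ by linarith, lob_pi_sub, lob_pi_sub]
    have : lob 0 = 0 := by simp [lob]
    rw [this]; ring
  have key : ∀ φ ∈ Ioo 0 α, 1 / 2 * (log (sin (γ + φ) / sin γ)
      - log (sin (γ + φ) / sin γ - sin β / sin (β + φ))) = G φ ∧ 0 ≤ G φ := by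
    intro φ ⟨h1, h2⟩
    have s1 : 0 < sin (γ + φ) := sin_pos_of_pos_of_lt_pi (by linarith) (by linarith)
    have s2 : 0 < sin (β + φ) := sin_pos_of_pos_of_lt_pi (by linarith) (by linarith)
    have s3 : 0 < sin φ := sin_pos_of_pos_of_lt_pi (by linarith) (by linarith)
    have s4 : 0 < sin (α - φ) := sin_pos_of_pos_of_lt_pi (by linarith) (by linarith)
    have s5 : 0 < sin γ := sin_pos_of_pos_of_lt_pi (by linarith) (by linarith)
    have s6 : 0 < sin β := sin_pos_of_pos_of_lt_pi (by linarith) (by linarith)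
    have e : sin (γ + φ) / sin γ - sin β / sin (β + φ)
        = sin φ * sin (α - φ) / (sin γ * sin (β + φ)) := by
      rw [show α - φ = π - (β + γ + φ) by linarith, sin_pi_sub]
      field_simp
      simp only [sin_add, cos_add]
      linear_combination (sin β * sin γ) * sin_sq_add_cos_sq φ
    have e2 : 1 / 2 * (log (sin (γ + φ) / sin γ)
        - log (sin (γ + φ) / sin γ - sin β / sin (β + φ))) = G φ := by
      rw [e, hG]
      simp only [log_abs]
      rw [log_div s1.ne' s5.ne', log_div (by positivity) (by positivity), log_mul s3.ne' s4.ne',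
        log_mul s5.ne' s2.ne', log_mul two_ne_zero s1.ne', log_mul two_ne_zero s2.ne',
        log_mul two_ne_zero s3.ne', log_mul two_ne_zero s4.ne']
      ring
    refine ⟨e2, ?_⟩
    rw [← e2]
    have : log (sin (γ + φ) / sin γ - sin β / sin (β + φ)) ≤ log (sin (γ + φ) / sin γ) :=
      log_le_log (by rw [e]; positivity) (sub_le_self _ (by positivity))
    linarith
  have nn : 0 ≤ᵐ[volume.restrict (Ioo 0 α)] G :=
    ae_restrict_of_forall_mem measurableSet_Ioo fun φ hφ => (key φ hφ).2
  rw [← vG, intervalIntegral.integral_of_le ha.le, integral_Ioc_eq_integral_Ioo]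
  refine ⟨?_, integral_nonneg_of_ae nn⟩
  rw [ofReal_integral_eq_lintegral_ofReal
    ((intervalIntegrable_iff_integrableOn_Ioo_of_le ha.le).mp iG) nn]
  exact setLIntegral_congr_fun measurableSet_Ioo fun φ hφ => by simp only [(key φ hφ).1]

theorem tet_eq {z : ℂ} (h : 0 < z.im) {b : ℝ} (hb : z.re + b * z.im = z.re ^ 2 + z.im ^ 2) :
    idealTet z = {x | (0 ≤ x.1.im ∧ x.1.im * z.re ≤ x.1.re * z.im ∧
      x.1.re * z.im - x.1.im * z.re + x.1.im ≤ z.im) ∧ 0 < x.2 ∧
      x.1.re + b * x.1.im - (x.1.re ^ 2 + x.1.im ^ 2) ≤ x.2 ^ 2} := by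
  have nn : ∀ u v : ℂ, ‖u‖ = ‖v‖ ↔ u.re ^ 2 + u.im ^ 2 = v.re ^ 2 + v.im ^ 2 := by
    intro u v
    rw [← sq_eq_sq₀ (norm_nonneg _) (norm_nonneg _), Complex.sq_norm, Complex.sq_norm,
      Complex.normSq_apply, Complex.normSq_apply, sq, sq, sq, sq]
  ext ⟨w, r⟩
  simp only [idealTet, mem_ofPred_eq, nn, Complex.sq_norm, Complex.normSq_apply, Complex.sub_re,
    Complex.sub_im, Complex.one_re, Complex.one_im]
  refine and_congr ⟨?_, ?_⟩ (and_congr_right fun _ => ⟨fun H => ?_, fun H c h1 h2 => ?_⟩)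
  · rintro ⟨s, t, h1, h2, h3, rfl⟩
    simp only [Complex.add_re, Complex.add_im, Complex.mul_re, Complex.mul_im, Complex.ofReal_re,
      Complex.ofReal_im]
    refine ⟨by nlinarith, by nlinarith, by nlinarith⟩
  · rintro ⟨h1, h2, h3⟩
    refine ⟨(w.re * z.im - w.im * z.re) / z.im, w.im / z.im, div_nonneg (by linarith) h.le,
      div_nonneg h1 h.le, by rw [← add_div, div_le_one h]; linarith, ?_⟩
    apply Complex.ext <;>
      simp only [Complex.add_re, Complex.add_im, Complex.mul_re, Complex.mul_im, Complex.ofReal_re,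
        Complex.ofReal_im] <;> field_simp <;> ring
  · have := H ⟨1 / 2, b / 2⟩ (by simp only; ring) (by simp only; linarith)
    simp only at this
    linarith
  · have e1 : c.re = 1 / 2 := by linarith
    have e2 : c.im = b / 2 := by
      apply mul_left_cancel₀ h.ne'
      rw [e1] at h2
      linarith
    rw [e1, e2]; linarith

theorem milnor {z : ℂ} (h : 0 < z.im) : hypVol z = tetVol z := by
  obtain ⟨a0, b0, ab, hv, -⟩ := tet_facts h
  rw [Complex.log_im] at a0 b0
  rw [Complex.log_im, Complex.log_im] at ab hv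
  have hz : z ≠ 0 := fun h0 => by rw [h0] at h; simp at h
  have hz1 : 1 - z ≠ 0 := fun h0 => by
    have := congrArg Complex.im h0
    simp at this; linarith
  have R0 : 0 < ‖z‖ := norm_pos_iff.mpr hz
  have x1 : z.re = ‖z‖ * cos z.arg := by rw [Complex.cos_arg hz]; field_simp
  have x2 : z.im = ‖z‖ * sin z.arg := by rw [Complex.sin_arg]; field_simp
  have x3 : 1 - z.re = ‖1 - z‖ * cos (-(1 - z).arg) := by
    rw [cos_neg, Complex.cos_arg hz1]; simp only [Complex.sub_re, Complex.one_re]; field_simp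
  have x4 : z.im = ‖1 - z‖ * sin (-(1 - z).arg) := by
    rw [sin_neg, Complex.sin_arg]
    simp only [Complex.sub_im, Complex.one_im]; field_simp; ring
  rw [hv, F]
  generalize z.arg = α, -(1 - z).arg = β, ‖1 - z‖ = R', ‖z‖ = R at *
  obtain ⟨γ, hγ⟩ : ∃ γ, γ = π - α - β := ⟨_, rfl⟩
  rw [← hγ]
  have c0 : 0 < γ := by linarith
  have sα : 0 < sin α := sin_pos_of_pos_of_lt_pi a0 (by linarith)
  have sβ : 0 < sin β := sin_pos_of_pos_of_lt_pi b0 (by linarith)
  have sγ : 0 < sin γ := sin_pos_of_pos_of_lt_pi c0 (by linarith)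
  have g1 : sin γ = sin α * cos β + cos α * sin β := by
    rw [hγ, show π - α - β = π - (α + β) by ring, sin_pi_sub, sin_add]
  have g2 : sin β = sin α * cos γ + cos α * sin γ := by
    rw [show β = π - (α + γ) by linarith, sin_pi_sub, sin_add]
  have g3 : R * sin γ = sin β := by
    rw [g1]; linear_combination (-cos β) * x2 + cos β * x4 - sin β * x1 - sin β * x3
  obtain ⟨b, hb⟩ : ∃ b, b = cos γ / sin γ := ⟨_, rfl⟩
  have b1 : b * sin γ = cos γ := by rw [hb]; field_simp
  have b2 : z.re + b * z.im = z.re ^ 2 + z.im ^ 2 := by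
    apply mul_left_cancel₀ sγ.ne'
    rw [x1, x2]
    linear_combination R * sin α * b1 - R * g2 - R * g3 - R ^ 2 * sin γ * sin_sq_add_cos_sq α
  obtain ⟨I1, I2⟩ := ang_int a0 b0 c0 (by linarith)
  have mT : MeasurableSet (idealTet z) := by
    rw [tet_eq h b2]
    simp only [ofPred_and]
    refine ((?_ : MeasurableSet _).inter ((?_ : MeasurableSet _).inter ?_)).inter
      ((measurableSet_lt ?_ ?_).inter ?_) <;> first | fun_prop | (apply measurableSet_le <;> fun_prop)
  have mf : Measurable fun x : ℂ × ℝ => ENNReal.ofReal (1 / x.2 ^ 3) := by fun_prop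
  obtain ⟨A, hA⟩ : ∃ A : Set (ℝ × ℝ),
      A = {p | p.2 ∈ Ioo 0 α ∧ p.1 ∈ Ioc 0 (sin β / sin (β + p.2))} := ⟨_, rfl⟩
  have mA : MeasurableSet A := by
    rw [hA]
    simp only [mem_Ioo, mem_Ioc, ofPred_and]
    refine ((measurableSet_lt ?_ ?_).inter (measurableSet_lt ?_ ?_)).inter
      ((measurableSet_lt ?_ ?_).inter (measurableSet_le ?_ ?_)) <;> fun_prop
  obtain ⟨Ψ, hΨ⟩ : ∃ Ψ : ℝ × ℝ → ENNReal,
      Ψ = fun p => ENNReal.ofReal (1 / (2 * (sin (γ + p.2) / sin γ - p.1))) := ⟨_, rfl⟩
  have mΨ : Measurable Ψ := by rw [hΨ]; fun_prop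
  have lt : ∀ φ ∈ Ioo 0 α, 0 < sin (β + φ) ∧ sin β / sin (β + φ) < sin (γ + φ) / sin γ := by
    intro φ ⟨h1, h2⟩
    have s2 : 0 < sin (β + φ) := sin_pos_of_pos_of_lt_pi (by linarith) (by linarith)
    have s3 : 0 < sin φ := sin_pos_of_pos_of_lt_pi (by linarith) (by linarith)
    have s4 : 0 < sin (β + γ + φ) := sin_pos_of_pos_of_lt_pi (by linarith) (by linarith)
    refine ⟨s2, ?_⟩
    rw [div_lt_div_iff₀ s2 sγ]
    have := mul_pos s3 s4
    simp only [sin_add, cos_add] at this ⊢
    linear_combination this - (sin β * sin γ) * sin_sq_add_cos_sq φ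
  rw [hypVol, integral_eq_lintegral_of_nonneg_ae
    (ae_restrict_of_forall_mem mT fun x hx => by have := hx.2.1; positivity)
    (Measurable.aestronglyMeasurable (by fun_prop)),
    ← lintegral_indicator mT, Measure.volume_eq_prod,
    lintegral_prod _ (mf.indicator mT).aemeasurable, ← Complex.lintegral_comp_polarCoord_symm,
    ← lintegral_indicator polarCoord.open_target.measurableSet,
    lintegral_congr_ae (g := A.indicator Ψ), Measure.volume_eq_prod,
    lintegral_prod_symm _ (mΨ.indicator mA).aemeasurable,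
    lintegral_congr (g := (Ioo 0 α).indicator fun φ => ENNReal.ofReal (1 / 2 *
      (log (sin (γ + φ) / sin γ) - log (sin (γ + φ) / sin γ - sin β / sin (β + φ))))),
    lintegral_indicator measurableSet_Ioo, I1, ENNReal.toReal_ofReal I2]
  · intro φ
    by_cases hφ : φ ∈ Ioo 0 α
    · rw [indicator_of_mem hφ, ← rad_int (div_pos sβ (lt φ hφ).1) (lt φ hφ).2,
        ← lintegral_indicator measurableSet_Ioc]
      apply lintegral_congr
      intro r
      simp only [indicator, hA, hΨ, mem_ofPred_eq, hφ, true_and]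
    · rw [indicator_of_notMem hφ]
      simp only [indicator, hA, mem_ofPred_eq, hφ, false_and, if_false, lintegral_zero]
  · have ae : ∀ᵐ φ : ℝ, φ ≠ 0 ∧ φ ≠ α := (Measure.ae_ne _ _).and (Measure.ae_ne _ _)
    filter_upwards [Measure.quasiMeasurePreserving_snd.ae ae]
    rintro ⟨r, φ⟩ ⟨n1, n2⟩
    simp only at n1 n2
    by_cases ht : (r, φ) ∈ polarCoord.target
    swap
    · rw [indicator_of_notMem ht, indicator_of_notMem]
      rw [hA]
      rintro ⟨⟨h1, h2⟩, h3, -⟩
      exact ht ⟨h3, by simp only at h1 ⊢; linarith [pi_pos], by simp only at h2 ⊢; linarith⟩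
    rw [indicator_of_mem ht]
    obtain ⟨r0, f1, f2⟩ := ht
    simp only [mem_Ioi] at r0 f1 f2
    obtain ⟨w, hw⟩ : ∃ w, w = Complex.polarCoord.symm (r, φ) := ⟨_, rfl⟩
    have w1 : w.re = r * cos φ := by
      rw [hw, Complex.polarCoord_symm_apply]; simp [-Complex.ofReal_cos, -Complex.ofReal_sin]
    have w2 : w.im = r * sin φ := by
      rw [hw, Complex.polarCoord_symm_apply]; simp [-Complex.ofReal_cos, -Complex.ofReal_sin]
    rw [← hw]
    have e1 : w.re * z.im - w.im * z.re = r * R * sin (α - φ) := by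
      rw [w1, w2, x1, x2, sin_sub]; ring
    have e2 : sin γ * (w.re * z.im - w.im * z.re + w.im - z.im)
        = sin α * (r * sin (β + φ) - sin β) := by
      rw [e1, w2, x2, sin_sub, sin_add]
      linear_combination (r * (sin α * cos φ - cos α * sin φ) - sin α) * g3 + r * sin φ * g1
    have e3 : w.re + b * w.im - (w.re ^ 2 + w.im ^ 2) = r * (sin (γ + φ) / sin γ - r) := by
      rw [w1, w2, hb, sin_add]
      field_simp
      linear_combination (-r * sin γ) * sin_sq_add_cos_sq φ
    have iff : (0 ≤ w.im ∧ w.im * z.re ≤ w.re * z.im ∧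
        w.re * z.im - w.im * z.re + w.im ≤ z.im) ↔ (r, φ) ∈ A := by
      rw [hA]
      simp only [mem_ofPred_eq, mem_Ioo, mem_Ioc]
      constructor
      · rintro ⟨h1, h2, h3⟩
        have p1 : 0 < φ := by
          by_contra hc
          have := sin_neg_of_neg_of_neg_pi_lt (lt_of_le_of_ne (not_lt.mp hc) n1) f1
          linarith [mul_neg_of_pos_of_neg r0 this]
        have p2 : φ < α := by
          by_contra hc
          have := sin_neg_of_neg_of_neg_pi_lt (x := α - φ)
            (by linarith [lt_of_le_of_ne (not_lt.mp hc) n2.symm]) (by linarith)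
          linarith [mul_neg_of_pos_of_neg (mul_pos r0 R0) this]
        refine ⟨⟨p1, p2⟩, r0, ?_⟩
        rw [le_div_iff₀ (lt φ ⟨p1, p2⟩).1, ← sub_nonpos]
        apply nonpos_of_mul_nonpos_right _ sα
        rw [← e2]
        exact mul_nonpos_of_nonneg_of_nonpos sγ.le (by linarith)
      · rintro ⟨⟨p1, p2⟩, -, h3⟩
        rw [le_div_iff₀ (lt φ ⟨p1, p2⟩).1] at h3
        have s3 : 0 < sin φ := sin_pos_of_pos_of_lt_pi p1 f2
        have s4 : 0 < sin (α - φ) := sin_pos_of_pos_of_lt_pi (by linarith) (by linarith)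
        refine ⟨by rw [w2]; positivity, ?_, ?_⟩
        · linarith [mul_pos (mul_pos r0 R0) s4]
        · rw [← sub_nonpos]
          apply nonpos_of_mul_nonpos_right _ sγ
          rw [e2]
          exact mul_nonpos_of_nonneg_of_nonpos sα.le (by linarith)
    by_cases hm : (r, φ) ∈ A
    · have hm' := hm
      rw [hA] at hm'
      have l0 : 0 < sin (γ + φ) / sin γ - r := by linarith [(lt φ hm'.1).2, hm'.2.2]
      have mS : MeasurableSet {h : ℝ | 0 < h ∧ r * (sin (γ + φ) / sin γ - r) ≤ h ^ 2} := by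
        simp only [ofPred_and]
        refine (measurableSet_lt ?_ ?_).inter (measurableSet_le ?_ ?_) <;> fun_prop
      rw [indicator_of_mem hm, lintegral_congr (g := indicator
        {h : ℝ | 0 < h ∧ r * (sin (γ + φ) / sin γ - r) ≤ h ^ 2} fun h => ENNReal.ofReal (1 / h ^ 3)),
        lintegral_indicator mS, vert_int (mul_pos r0 l0), hΨ, smul_eq_mul,
        ← ENNReal.ofReal_mul r0.le]
      · congr 1; field_simp
      · intro h'
        simp only [indicator, tet_eq h b2, mem_ofPred_eq, iff, hm, true_and, e3]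
    · rw [indicator_of_notMem hm]
      simp only [indicator, tet_eq h b2, mem_ofPred_eq, iff, hm, false_and, if_false,
        lintegral_zero, smul_zero]

theorem vol_iff {p q : ℤ} {v : ℝ} : Vol p q v ↔ FillVol p q v :=
  exists₂_congr fun _ _ => and_congr_right fun h => by rw [milnor h.1, milnor h.2.1]

end Pool.Agent.P.MP_858e15_gt
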