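import Pool.Agent.P.MP_858e15_gt.Iso

namespace Pool.Agent.P.MP_858e15_gt

open Real

def absV (d : V) : V := fun i => |d i|

theorem c4_absV (p q : ℤ) : c4 |p| |q| = c4 p q := by
  unfold c4; push_cast; simp only [sq_abs]

theorem abs_card (S : Finset V) : S.card ≤ 16 * (S.image absV).card := by
  classical
  apply Finset.card_le_mul_card_image
  intro e _
  have h1 : (S.filter fun d => absV d = e) ⊆ Fintype.piFinset fun i => ({e i, -e i} : Finset ℤ) := by
    intro d hd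
    have := (Finset.mem_filter.mp hd).2
    rw [Fintype.mem_piFinset]
    intro i
    rw [← this]
    simp only [absV, Finset.mem_insert, Finset.mem_singleton]
    rcases abs_choice (d i) with h | h <;> omega
  refine (Finset.card_le_card h1).trans ?_
  rw [Fintype.card_piFinset]
  calc _ ≤ ∏ _i : Fin 4, 2 := Finset.prod_le_prod' fun i _ => Finset.card_le_two
    _ = 16 := by simp

theorem prim_abs {d : V} (h : Prim d) : Prim (absV d) := by
  obtain ⟨c, hc⟩ := h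
  refine ⟨fun i => c i * (d i).sign, ?_⟩
  simp only [absV, mul_assoc, Int.sign_mul_abs]
  exact hc

theorem dyadic {n : ℤ} (h : 0 < n) :
    (2 : ℝ) ^ Nat.log 2 n.toNat ≤ n ∧ (n : ℝ) ≤ 2 * 2 ^ Nat.log 2 n.toNat := by
  have e : ((n.toNat : ℕ) : ℝ) = n := by exact_mod_cast Int.toNat_of_nonneg h.le
  have h1 := Nat.pow_log_le_self 2 (show n.toNat ≠ 0 by omega)
  have h2 := (Nat.lt_pow_succ_log_self (b := 2) (by norm_num) n.toNat).le
  rw [← e]
  constructor
  · exact_mod_cast h1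
  · rw [Nat.succ_eq_add_one, pow_succ, mul_comm] at h2; exact_mod_cast h2

theorem log_index {i : ℕ} {T : ℝ} (h : (2 : ℝ) ^ i ≤ T) : (i : ℝ) ≤ 2 * log T := by
  have h1 := log_le_log (by positivity) h
  rw [log_pow] at h1
  have h2 := log_two_gt_d9
  have : (0 : ℝ) ≤ i := by positivity
  nlinarith

theorem log_eight {Y : ℝ} (hY : 1 ≤ Y) : log (8 * Y) ≤ 3 + log Y := by
  rw [log_mul (by norm_num) (by linarith), show (8 : ℝ) = 2 ^ 3 by norm_num, log_pow]
  have := log_two_lt_d9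
  push_cast; linarith

theorem adm_sum {K : ℝ} (hK : 0 ≤ K) : ∃ C : ℝ, 0 < C ∧ ∀ (c Y : ℝ) (D : Finset V),
    0.15 ≤ |c| → |c| ≤ 1.99 → 1 ≤ Y →
    (∀ d ∈ D, Prim d ∧ NN' d = NN d ∧ (NN d : ℝ) ≤ 8 * Y ∧
      |c4 (d 0) (d 1) - c4 (d 2) (d 3) - c| ≤ K / NN d) →
    ∑ d ∈ D, 1 / √(NN d : ℝ) ≤ C * (1 + log Y) ^ 2 := by
  classical
  obtain ⟨C, hC, h⟩ := iso_shell hK
  refine ⟨16 * C * 4 * 7, by positivity, ?_⟩
  intro c Y D hc1 hc2 hY hD
  have lg0 : 0 ≤ log Y := log_nonneg hY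
  have l8 := log_eight hY
  obtain ⟨I, hI⟩ : ∃ I : ℕ, I = ⌊2 * log (8 * Y)⌋₊ + 1 := ⟨_, rfl⟩
  have l80 : 0 ≤ log (8 * Y) := log_nonneg (by linarith)
  have I1 : (I : ℝ) ≤ 7 * (1 + log Y) := by
    rw [hI]; push_cast
    linarith [Nat.floor_le (show 0 ≤ 2 * log (8 * Y) by positivity)]
  rw [← Finset.sum_fiberwise_of_maps_to (t := Finset.range I)
    (g := fun d : V => Nat.log 2 (NN d).toNat) (by
      intro d hd
      obtain ⟨d1, d2, d3, -⟩ := hD d hd
      rw [Finset.mem_range, hI]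
      exact Nat.lt_succ_of_le (Nat.le_floor (log_index ((dyadic (prim_pos d1 d2)).1.trans d3))))]
  have each : ∀ i ∈ Finset.range I, ∑ d ∈ D with Nat.log 2 (NN d).toNat = i, 1 / √(NN d : ℝ)
      ≤ 16 * C * 4 * (1 + log Y) := by
    intro i _
    rcases (D.filter fun d => Nat.log 2 (NN d).toNat = i).eq_empty_or_nonempty with he | ⟨d0, hd0⟩
    · rw [he]; simp; positivity
    obtain ⟨Z, hZ⟩ : ∃ Z : ℝ, Z = 2 ^ i := ⟨_, rfl⟩
    have Z1 : 1 ≤ Z := by rw [hZ]; exact one_le_pow₀ (by norm_num)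
    have sZ : 0 < √Z := sqrt_pos.mpr (by linarith)
    have mem : ∀ d ∈ D.filter fun d => Nat.log 2 (NN d).toNat = i,
        Z ≤ (NN d : ℝ) ∧ (NN d : ℝ) ≤ 2 * Z := by
      intro d hd
      obtain ⟨m1, m2⟩ := Finset.mem_filter.mp hd
      obtain ⟨d1, d2, -⟩ := hD d m1
      have := dyadic (prim_pos d1 d2)
      rwa [m2, ← hZ] at this
    have Z8 : Z ≤ 8 * Y := (mem d0 hd0).1.trans (hD d0 (Finset.mem_filter.mp hd0).1).2.2.1
    have lZ : log Z ≤ 3 + log Y := (log_le_log (by linarith) Z8).trans l8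
    have c1 := h c Z ((D.filter fun d => Nat.log 2 (NN d).toNat = i).image absV) hc1 hc2 Z1 (by
      intro e he
      obtain ⟨d, hd, rfl⟩ := Finset.mem_image.mp he
      obtain ⟨d1, d2, -, d4⟩ := hD d (Finset.mem_filter.mp hd).1
      obtain ⟨m1, m2⟩ := mem d hd
      have n1 : NN (absV d) = NN d := by simp only [NN, absV, sq_abs]
      have n2 : NN' (absV d) = NN' d := by simp only [NN', absV, sq_abs]
      refine ⟨⟨fun i => abs_nonneg _, by rw [n1, n2, d2]; ring, by rwa [n1], by rwa [n1], ?_⟩,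
        prim_abs d1⟩
      simp only [absV, c4_absV]
      exact d4.trans (div_le_div_of_nonneg_left hK (by linarith) m1))
    have c2 : ((D.filter fun d => Nat.log 2 (NN d).toNat = i).card : ℝ)
        ≤ 16 * (((D.filter fun d => Nat.log 2 (NN d).toNat = i).image absV).card : ℝ) := by
      exact_mod_cast abs_card _
    calc _ ≤ ∑ d ∈ D with Nat.log 2 (NN d).toNat = i, 1 / √Z := by
          apply Finset.sum_le_sum
          intro d hd
          exact one_div_le_one_div_of_le sZ (sqrt_le_sqrt (mem d hd).1)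
      _ = ((D.filter fun d => Nat.log 2 (NN d).toNat = i).card : ℝ) * (1 / √Z) := by
          rw [Finset.sum_const, nsmul_eq_mul]
      _ ≤ 16 * (C * √Z * (1 + log Z)) * (1 / √Z) := by gcongr; linarith
      _ = 16 * C * (1 + log Z) := by field_simp
      _ ≤ 16 * C * (4 * (1 + log Y)) := by gcongr; linarith
      _ = _ := by ring
  refine (Finset.sum_le_sum each).trans ?_
  rw [Finset.sum_const, Finset.card_range, nsmul_eq_mul]
  calc (I : ℝ) * (16 * C * 4 * (1 + log Y)) ≤ 7 * (1 + log Y) * (16 * C * 4 * (1 + log Y)) := by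
        gcongr
    _ = _ := by ring

theorem shell {K : ℝ} (hK : 0 ≤ K) : ∃ C : ℝ, 0 < C ∧ ∀ (k : ℤ) (c Y : ℝ) (S : Finset V),
    k ≠ 0 → |k| ≤ 13 → 0.15 ≤ |c| → |c| ≤ 1.99 → 40 ≤ Y → (∀ P ∈ S, Near k c K Y P) →
    (S.card : ℝ) ≤ C * √Y * (1 + log Y) ^ 2 := by
  classical
  obtain ⟨C, hC, h⟩ := adm_sum (K := 6000 * K + 2000) (by positivity)
  obtain ⟨L, hL⟩ : ∃ L : ℕ, L = ⌈2 * K + 60⌉₊ := ⟨_, rfl⟩
  obtain ⟨E, hE⟩ : ∃ E : ℝ, E = ((2 * L + 1) ^ 4 : ℕ) := ⟨_, rfl⟩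
  have E0 : 0 < E := by rw [hE]; positivity
  obtain ⟨L0, hL0⟩ : ∃ L0 : ℕ, (L0 : ℤ) = 169 := ⟨169, rfl⟩
  obtain ⟨A, hA⟩ : ∃ A : ℝ, A = 2 * L0 + 1 := ⟨_, rfl⟩
  have A0 : 0 < A := by rw [hA]; positivity
  refine ⟨32 * E + A * A * 12 * C, by positivity, ?_⟩
  intro k c Y S hk0 hk hc1 hc2 hY hS
  have Y0 : 0 < Y := by linarith
  have H1 : 1 ≤ √Y := le_sqrt_of_sq_le (by linarith)
  have lg0 : 0 ≤ log Y := log_nonneg (by linarith)
  have hPP : ∀ P ∈ S, BB P P = k := fun P hP => by rw [BB_self, (hS P hP).2.1]; ring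
  have split := Finset.card_filter_add_card_filter_not (s := S)
    (fun P => ∃ Q ∈ S, Q ≠ P ∧ lab Y P = lab Y Q ∧ BB P Q = k)
  set S2 := S.filter fun P => ∃ Q ∈ S, Q ≠ P ∧ lab Y P = lab Y Q ∧ BB P Q = k with hS2
  set S1 := S.filter fun P => ¬ ∃ Q ∈ S, Q ≠ P ∧ lab Y P = lab Y Q ∧ BB P Q = k with hS1
  have b1 : (S1.card : ℝ) ≤ 32 * E * √Y := by
    have c1 := Finset.card_le_mul_card_image_of_maps_to (s := S1) (f := lab Y)
      (t := (Finset.univ : Finset (Bool × Bool)) ×ˢ Finset.range (⌊7 * √Y⌋₊ + 1))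
      (fun P hP => lab_mem hk hY (hS P (Finset.mem_filter.mp hP).1)) (1 * (2 * L + 1) ^ 4) (by
        intro t _
        apply classes
        · intro P hP Q hQ
          obtain ⟨p1, p2⟩ := Finset.mem_filter.mp hP
          obtain ⟨q1, q2⟩ := Finset.mem_filter.mp hQ
          have := (gram hk hY hK (hS P (Finset.mem_filter.mp p1).1)
            (hS Q (Finset.mem_filter.mp q1).1) (p2.trans q2.symm)).1
          have h2 : |(BB P Q : ℝ)| ≤ (L : ℝ) := by rw [hL]; exact this.trans (Nat.le_ceil _)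
          exact_mod_cast h2
        · intro S' hS' hB
          rw [Finset.card_le_one]
          intro P hP Q hQ
          by_contra hne
          obtain ⟨p1, p2⟩ := Finset.mem_filter.mp (hS' hP)
          obtain ⟨q1, q2⟩ := Finset.mem_filter.mp (hS' hQ)
          obtain ⟨p3, p4⟩ := Finset.mem_filter.mp p1
          exact p4 ⟨Q, (Finset.mem_filter.mp q1).1, fun h0 => hne h0.symm, p2.trans q2.symm,
            (hB P hP Q hQ).trans (hPP P p3)⟩)
    simp only [Finset.card_product, Finset.card_univ, Fintype.card_prod, Fintype.card_bool,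
      Finset.card_range, one_mul] at c1
    have c2 : (S1.card : ℝ) ≤ E * (2 * 2 * ((⌊7 * √Y⌋₊ : ℝ) + 1)) := by
      rw [hE]; exact_mod_cast c1
    have c3 := Nat.floor_le (show 0 ≤ 7 * √Y by positivity)
    calc _ ≤ E * (2 * 2 * ((⌊7 * √Y⌋₊ : ℝ) + 1)) := c2
      _ ≤ E * (2 * 2 * (8 * √Y)) := by gcongr; linarith
      _ = _ := by ring
  have ex : ∀ P : V, ∃ d : V, P ∈ S2 → (Prim d ∧ NN' d = NN d ∧ (NN d : ℝ) ≤ 8 * Y ∧
      |c4 (d 0) (d 1) - c4 (d 2) (d 3) - c| ≤ (6000 * K + 2000) / NN d) ∧ BB P d = 0 := by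
    intro P
    by_cases hP : P ∈ S2
    swap
    · exact ⟨P, fun h => absurd h hP⟩
    obtain ⟨p1, Q, q1, q2, q3, q4⟩ := Finset.mem_filter.mp hP
    obtain ⟨m, d, m0, d1, d2⟩ := exists_prim (D := Q - P) (sub_ne_zero.mpr q2)
    simp only [Pi.sub_apply] at d2
    have q0 : ∀ i, Q i = P i + m * d i := fun i => by linarith [d2 i]
    have e1 : BB P Q = BB P P + m * BB P d := by
      unfold BB; rw [q0 0, q0 1, q0 2, q0 3]; ring
    have e2 : BB Q Q = BB P P + 2 * m * BB P d + m ^ 2 * (NN' d - NN d) := by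
      unfold BB NN NN'; rw [q0 0, q0 1, q0 2, q0 3]; ring
    rw [q4, hPP P p1] at e1
    have f1 : BB P d = 0 := (mul_eq_zero.mp (show m * BB P d = 0 by linarith)).resolve_left m0
    rw [hPP Q q1, hPP P p1, f1] at e2
    have f2 : NN' d = NN d := sub_eq_zero.mp ((mul_eq_zero.mp
      (show m ^ 2 * (NN' d - NN d) = 0 by linarith)).resolve_left (pow_ne_zero 2 m0))
    obtain ⟨-, g1, g2⟩ := gram hk hY hK (hS P p1) (hS Q q1) q3
    obtain ⟨a1, a2⟩ := admissible hk (by linarith) hY hK (hS P p1) (hS Q q1) m0 d2 f2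
      (prim_pos d1 f2) f1 g1 g2
    exact ⟨d, fun _ => ⟨⟨d1, f2, a1, a2⟩, f1⟩⟩
  choose dd hdd using ex
  have b2 : (S2.card : ℝ) ≤ A * A * 12 * C * √Y * (1 + log Y) ^ 2 := by
    have hD : ∀ d ∈ S2.image dd, Prim d ∧ NN' d = NN d ∧ (NN d : ℝ) ≤ 8 * Y ∧
        |c4 (d 0) (d 1) - c4 (d 2) (d 3) - c| ≤ (6000 * K + 2000) / NN d := by
      intro d hd
      obtain ⟨P, hP, rfl⟩ := Finset.mem_image.mp hd
      exact (hdd P hP).1
    have c1 := h c Y (S2.image dd) hc1 hc2 (by linarith) hD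
    rw [Finset.card_eq_sum_card_image dd S2]
    push_cast
    have each : ∀ d ∈ S2.image dd, ((S2.filter fun P => dd P = d).card : ℝ)
        ≤ A * A * 12 * √Y * (1 / √(NN d : ℝ)) := by
      intro d hd
      obtain ⟨d1, d2, d3, -⟩ := hD d hd
      have n0 : (0 : ℝ) < NN d := by exact_mod_cast prim_pos d1 d2
      have sn : 0 < √(NN d : ℝ) := sqrt_pos.mpr n0
      have sn2 : √(NN d : ℝ) ^ 2 = NN d := sq_sqrt n0.le
      have sY2 : √Y ^ 2 = Y := sq_sqrt Y0.le
      obtain ⟨r, hr⟩ : ∃ r, r = √Y / √(NN d : ℝ) := ⟨_, rfl⟩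
      have r0 : 0 < r := by rw [hr]; positivity
      have r2 : r ^ 2 * NN d = Y := by rw [hr, div_pow, sn2, sY2]; field_simp
      have r3 : 1 ≤ 3 * r := by
        apply le_of_sq_le_sq _ (by positivity)
        apply le_of_mul_le_mul_right _ n0
        nlinarith
      have lc := line_count d1 d2 hk0 hk (S2.filter fun P => dd P = d) ⌈3 / 2 * r⌉₊ L0 hL0 (by
        intro P hP
        obtain ⟨p1, p2⟩ := Finset.mem_filter.mp hP
        have p3 := (Finset.mem_filter.mp p1).1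
        refine ⟨p2 ▸ (hdd P p1).2, hPP P p3, ?_⟩
        have x1 := Nat.le_ceil (3 / 2 * r)
        have x2 : (3 / 2 * r) ^ 2 * NN d ≤ (⌈3 / 2 * r⌉₊ : ℝ) ^ 2 * NN d := by gcongr
        have x3 : (NN P : ℝ) ≤ (⌈3 / 2 * r⌉₊ : ℝ) ^ 2 * NN d := by
          have := (hS P p3).2.2.2.1
          nlinarith
        exact_mod_cast x3)
      have lc' : ((S2.filter fun P => dd P = d).card : ℝ)
          ≤ A * (A * (2 * (⌈3 / 2 * r⌉₊ : ℝ) + 1)) := by
        rw [hA]; exact_mod_cast lc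
      have x4 := (Nat.ceil_lt_add_one (show 0 ≤ 3 / 2 * r by positivity)).le
      calc _ ≤ A * (A * (2 * (⌈3 / 2 * r⌉₊ : ℝ) + 1)) := lc'
        _ ≤ A * (A * (12 * r)) := by gcongr; linarith
        _ = _ := by rw [hr]; ring
    refine (Finset.sum_le_sum each).trans ?_
    rw [← Finset.mul_sum]
    calc _ ≤ A * A * 12 * √Y * (C * (1 + log Y) ^ 2) := by gcongr
      _ = _ := by ring
  have tot : (S.card : ℝ) = S2.card + S1.card := by exact_mod_cast split.symm
  have w : 32 * E * √Y ≤ 32 * E * √Y * (1 + log Y) ^ 2 :=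
    le_mul_of_one_le_right (by positivity) (by nlinarith)
  rw [tot]
  linarith

end Pool.Agent.P.MP_858e15_gt
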